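import Pool.Agent.RHC.StA

/-!
RHC [CB] (helper44): all pairs of good points are regular, counting forms with given values.
-/

set_option autoImplicit false

namespace Pool.Agent.RHC

open scoped BigOperators
open Classical NumberField IsDedekindDomain
open Pool.Agent.RHP (Mon mono ev Prim)
open Pool.Agent.RHK

theorem CB_box (K : Type) [Field K] [NumberField K] (s d H : ℕ) :
    (box K s d (3 * H)).card ≤ (3 ^ dg K) ^ Fintype.card (Mon s d) * (box K s d H).card := by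
  unfold box
  rw [Fintype.card_piFinset, Fintype.card_piFinset, Finset.prod_const, Finset.prod_const,
    Finset.card_univ, card_cb, card_cb, ← mul_pow, ← mul_pow]
  exact Nat.pow_le_pow_left (Nat.pow_le_pow_left (by omega) _) _

theorem CB_good {K : Type} [Field K] [NumberField K] {s c t : ℕ} {x : Fin s → 𝓞 K}
    (h : x ∈ CG K s c t) : Prim x ∧ ∀ v : InfinitePlace K, ((XC s c t : ℕ) : ℝ) < 2 * vs v x ∧
      vs v x ≤ XC s c t := by
  unfold CG at h
  rw [Finset.mem_filter] at h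
  obtain ⟨h1, h2, h3, -⟩ := h
  refine ⟨h2, fun v => ⟨h3 v, ?_⟩⟩
  unfold vs
  rw [pi_norm_le_iff_of_nonneg (Nat.cast_nonneg _)]
  intro i
  have h4 := mem_pb.1 (Fintype.mem_piFinset.1 h1 i) v
  have h5 : (0 : ℝ) ≤ av v (x i) := by
    unfold av
    exact apply_nonneg _ _
  rw [Real.norm_of_nonneg h5]
  exact h4

theorem CB_ne {K : Type} [Field K] [NumberField K] {s : ℕ} {x : Fin s → 𝓞 K} {X : ℕ}
    (h : ∀ v : InfinitePlace K, (X : ℝ) < 2 * vs v x ∧ vs v x ≤ X) : x ≠ 0 := by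
  intro h0
  obtain ⟨v⟩ : Nonempty (InfinitePlace K) := inferInstance
  have h1 := (h v).1
  rw [h0, vs_eq_zero.2 rfl] at h1
  have h2 : (0 : ℝ) ≤ X := Nat.cast_nonneg _
  linarith

theorem thm_CB (hG : St_CWR) (hc1 : St_COV1) (hc2 : St_COV2) (t1 : St_T1) (t2 : St_T2) :
    St_CB := by
  intro K _ _ s k m hyp
  have hs := hyp.hs
  have hk := hyp.hk
  have hm := hyp.hm
  have hd : 2 ≤ k * m := le_trans (by omega) (Nat.mul_le_mul hk hm)
  obtain ⟨C1, hC10, hC1⟩ := hG K s (by omega)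
  obtain ⟨CA, hA0, hA⟩ := t1 K s (k * m) (by omega)
  obtain ⟨CD, hD0, hD⟩ := t2 K s (k * m) hd
  obtain ⟨CE, hE⟩ := hc1 K s (k * m) (by omega)
  obtain ⟨CF, hF⟩ := hc2 K s (k * m) hd
  obtain ⟨B, hB⟩ : ∃ B : ℝ, B = ((3 : ℝ) ^ dg K) ^ Fintype.card (Mon s (k * m)) := ⟨_, rfl⟩
  have hB0 : 0 < B := by
    rw [hB]
    positivity
  refine ⟨(CA + CD) * B, by positivity, ?_⟩
  intro c v hP
  have hPH := hP.hH
  refine ⟨max 1 (max (⌈CA + CD⌉₊) ((CE + CF + 1) * C1 ^ 2)), ?_⟩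
  intro t ht V H hVH x hx
  have ht1 : 1 ≤ t := le_trans (le_max_left _ _) ht
  have ht2 : ⌈CA + CD⌉₊ ≤ t := le_trans ((le_max_left _ _).trans (le_max_right _ _)) ht
  have ht3 : (CE + CF + 1) * C1 ^ 2 ≤ t := le_trans ((le_max_right _ _).trans (le_max_right _ _)) ht
  have htC : CA + CD ≤ (t : ℝ) := (Nat.le_ceil _).trans (by exact_mod_cast ht2)
  have hX1 : 1 ≤ XC s c t := by unfold XC; exact Nat.one_le_pow _ _ ht1
  have hH4 : t ^ (2 * c + 4) ≤ H := by
    calc t ^ (2 * c + 4) ≤ t ^ (k * v) := Nat.pow_le_pow_right ht1 hPH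
      _ = (t ^ v) ^ k := by rw [← pow_mul, mul_comm]
      _ ≤ V ^ k := Nat.pow_le_pow_left hVH.1 k
      _ ≤ H := hVH.2.2.1
  have hH1 : 1 ≤ H := le_trans (Nat.one_le_pow _ _ ht1) hH4
  have h3H1 : 1 ≤ 3 * H := by omega
  obtain ⟨x1, x2⟩ := CB_good hx
  have hwx := hC1 c t ht1 x hx
  have htR : (0 : ℝ) < t := by exact_mod_cast ht1
  have hXR : (0 : ℝ) < (XC s c t : ℝ) := by exact_mod_cast hX1
  have hHR : (0 : ℝ) < (H : ℝ) := by exact_mod_cast hH1
  obtain ⟨Y, hY⟩ : ∃ Y : ℕ, Y = C1 * t ^ (c + 1) := ⟨_, rfl⟩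
  rw [← hY] at hwx
  have hY1 : 1 ≤ Y := by
    rw [hY]
    exact Nat.mul_pos hC10 (Nat.pow_pos ht1)
  -- the levels
  have hlev : (CE + CF + 1) * Y ^ 2 * t ≤ H := by
    calc (CE + CF + 1) * Y ^ 2 * t = (CE + CF + 1) * C1 ^ 2 * t ^ (2 * c + 3) := by
          rw [hY]
          ring
      _ ≤ t * t ^ (2 * c + 3) := Nat.mul_le_mul_right _ ht3
      _ = t ^ (2 * c + 4) := by ring
      _ ≤ H := hH4
  have hYY : Y ≤ Y ^ 2 := by nlinarith
  have hlev1 : (CE : ℝ) * (Y : ℝ) ≤ (H : ℝ) / t := by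
    rw [le_div_iff₀ htR]
    have h1 : CE * Y * t ≤ H := by
      refine le_trans ?_ hlev
      exact Nat.mul_le_mul_right _ (Nat.mul_le_mul (by omega) hYY)
    exact_mod_cast h1
  have hlev2 : (CF : ℝ) * (Y : ℝ) ^ 2 ≤ (H : ℝ) / t := by
    rw [le_div_iff₀ htR]
    have h1 : CF * Y ^ 2 * t ≤ H := by
      refine le_trans ?_ hlev
      exact Nat.mul_le_mul_right _ (Nat.mul_le_mul (by omega) le_rfl)
    exact_mod_cast h1
  have hcov : ∀ z ∈ CG K s c t, Cv1 (k * m) z ((H : ℝ) / t) := by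
    intro z hz f hf
    have hwz := hC1 c t ht1 z hz
    rw [← hY] at hwz
    obtain ⟨lam, h1, h2⟩ := hE Y z (CB_ne (CB_good hz).2) hwz f hf
    exact ⟨lam, h1, fun μ => (h2 μ).trans hlev1⟩
  have hrho : (CA + CD) * ((H : ℝ) / t) ≤ ((3 * H : ℕ) : ℝ) := by
    rw [mul_div_assoc', div_le_iff₀ htR]
    push_cast
    nlinarith
  have hrhoA : CA * ((H : ℝ) / t) ≤ ((3 * H : ℕ) : ℝ) := by
    refine le_trans (mul_le_mul_of_nonneg_right ?_ (by positivity)) hrho
    linarith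
  have hrhoD : CD * ((H : ℝ) / t) ≤ ((3 * H : ℕ) : ℝ) := by
    refine le_trans (mul_le_mul_of_nonneg_right ?_ (by positivity)) hrho
    linarith
  have hbox : ((box K s (k * m) (3 * H)).card : ℝ) ≤ B * ((box K s (k * m) H).card : ℝ) := by
    rw [hB]
    exact_mod_cast CB_box K s (k * m) H
  have hbox0 : (0 : ℝ) ≤ ((box K s (k * m) H).card : ℝ) := Nat.cast_nonneg _
  have h3H : (H : ℝ) ≤ ((3 * H : ℕ) : ℝ) := by
    push_cast
    linarith
  constructor
  · intro a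
    have h1 := hA (XC s c t) (3 * H) ((H : ℝ) / t) x hX1 h3H1 x1 (fun w => (x2 w).1) (hcov x hx)
      (by positivity) hrhoA a
    calc (c1 (d := k * m) (3 * H) x a : ℝ) * ((H : ℝ) * (XC s c t : ℝ) ^ (k * m)) ^ dg K
        ≤ (c1 (d := k * m) (3 * H) x a : ℝ) *
            (((3 * H : ℕ) : ℝ) * (XC s c t : ℝ) ^ (k * m)) ^ dg K := by
          apply mul_le_mul_of_nonneg_left _ (Nat.cast_nonneg _)
          apply pow_le_pow_left₀ (by positivity)
          exact mul_le_mul_of_nonneg_right h3H (by positivity)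
      _ ≤ CA * ((box K s (k * m) (3 * H)).card : ℝ) := h1
      _ ≤ (CA + CD) * (B * ((box K s (k * m) H).card : ℝ)) := by
          apply mul_le_mul (by linarith) hbox (Nat.cast_nonneg _) (by positivity)
      _ = (CA + CD) * B * ((box K s (k * m) H).card : ℝ) := by ring
  · intro y hy hw
    obtain ⟨y1, y2⟩ := CB_good hy
    have hwy := hC1 c t ht1 y hy
    rw [← hY] at hwy
    have hcv2 : Cv2 (k * m) x y ((H : ℝ) / t) := by
      intro f hf hf'
      obtain ⟨lam, h1, h1', h2⟩ := hF Y x y hw hwx hwy f hf hf'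
      exact ⟨lam, h1, h1', fun μ => (h2 μ).trans hlev2⟩
    refine ⟨hcv2, fun a b => ?_⟩
    have hwn : (0 : ℝ) ≤ (wn x y : ℝ) := Nat.cast_nonneg _
    have hwp : (0 : ℝ) < wp x y := wp_pos hw
    have h1 := hD (XC s c t) (3 * H) ((H : ℝ) / t) x y hX1 h3H1 x1 y1 x2 y2 hw (hcov x hx) hcv2
      (by positivity) hrhoD a b
    have h2 : (((H : ℝ) * (XC s c t : ℝ) ^ (k * m)) ^ dg K) ^ 2 =
        ((H : ℝ) ^ 2 * (XC s c t : ℝ) ^ (2 * (k * m) - 2)) ^ dg K *
          ((XC s c t : ℝ) ^ 2) ^ dg K := by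
      rw [← pow_mul, mul_comm (dg K) 2, pow_mul, ← mul_pow]
      congr 1
      have h3 : (XC s c t : ℝ) ^ (2 * (k * m) - 2) * (XC s c t : ℝ) ^ 2 =
          ((XC s c t : ℝ) ^ (k * m)) ^ 2 := by
        rw [← pow_add, ← pow_mul]
        congr 1
        omega
      rw [mul_pow, ← h3]
      ring
    rw [h2]
    calc (c2 (d := k * m) (3 * H) x y a b : ℝ) *
          (((H : ℝ) ^ 2 * (XC s c t : ℝ) ^ (2 * (k * m) - 2)) ^ dg K *
            ((XC s c t : ℝ) ^ 2) ^ dg K * wp x y)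
        = (c2 (d := k * m) (3 * H) x y a b : ℝ) *
          (((H : ℝ) ^ 2 * (XC s c t : ℝ) ^ (2 * (k * m) - 2)) ^ dg K * wp x y) *
            ((XC s c t : ℝ) ^ 2) ^ dg K := by ring
      _ ≤ (c2 (d := k * m) (3 * H) x y a b : ℝ) *
          (((((3 * H : ℕ) : ℝ)) ^ 2 * (XC s c t : ℝ) ^ (2 * (k * m) - 2)) ^ dg K * wp x y) *
            ((XC s c t : ℝ) ^ 2) ^ dg K := by
          apply mul_le_mul_of_nonneg_right _ (by positivity)
          apply mul_le_mul_of_nonneg_left _ (Nat.cast_nonneg _)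
          apply mul_le_mul_of_nonneg_right _ hwp.le
          apply pow_le_pow_left₀ (by positivity)
          apply mul_le_mul_of_nonneg_right _ (by positivity)
          exact pow_le_pow_left₀ hHR.le h3H 2
      _ ≤ (CD * wn x y * ((box K s (k * m) (3 * H)).card : ℝ)) *
            ((XC s c t : ℝ) ^ 2) ^ dg K :=
          mul_le_mul_of_nonneg_right h1 (by positivity)
      _ ≤ ((CA + CD) * wn x y * (B * ((box K s (k * m) H).card : ℝ))) *
            ((XC s c t : ℝ) ^ 2) ^ dg K := by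
          apply mul_le_mul_of_nonneg_right _ (by positivity)
          apply mul_le_mul _ hbox (Nat.cast_nonneg _) (by positivity)
          exact mul_le_mul_of_nonneg_right (by linarith) hwn
      _ = _ := by ring

end Pool.Agent.RHC
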