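import Pool.Agent.RHC.StA
import Pool.Agent.RHK.Sz

/-!
RHC, CNT: the pairs which are not parallel (helper16).
-/

set_option autoImplicit false

namespace Pool.Agent.RHC

open scoped BigOperators
open Classical NumberField IsDedekindDomain
open Pool.Agent.RHP (Mon mono ev Prim)
open Pool.Agent.RHK

/-- a sum of terms which vanish outside of a set -/
theorem CNT_sum {ι : Type} (S : Finset ι) (P : ι → Prop) (g : ι → ℝ) (K0 : ℝ)
    (h1 : ∀ q ∈ S, ¬ P q → g q = 0) (h2 : ∀ q ∈ S, g q ≤ K0) :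
    ∑ q ∈ S, g q ≤ ((S.filter fun q => P q).card : ℝ) * K0 := by
  have e1 : ∑ q ∈ S, g q = ∑ q ∈ S.filter (fun q => P q), g q := by
    symm
    apply Finset.sum_subset (Finset.filter_subset _ _)
    intro q hq hq'
    apply h1 q hq
    intro hP
    exact hq' (Finset.mem_filter.2 ⟨hq, hP⟩)
  rw [e1]
  refine (Finset.sum_le_card_nsmul _ _ K0 fun q hq => h2 q (Finset.mem_filter.1 hq).1).trans
    (le_of_eq ?_)
  rw [nsmul_eq_mul]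

theorem CNT_cP {K : Type} [Field K] [NumberField K] {s d H : ℕ} {x y : Fin s → 𝓞 K} {a b : 𝓞 K}
    (h : ¬ Cmp d x y a b) : cP d H x y a b = 0 := by
  unfold cP
  rw [Finset.filter_false_of_mem]
  · rfl
  · intro f _ hf
    exact h ⟨f, hf⟩

theorem CNT_vs {K : Type} [Field K] [NumberField K] {s c t : ℕ} {x : Fin s → 𝓞 K}
    (hx : x ∈ CG K s c t) (v : InfinitePlace K) : vs v x ≤ ((XC s c t : ℕ) : ℝ) := by
  unfold CG at hx
  rw [Finset.mem_filter, Fintype.mem_piFinset] at hx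
  rw [vs_le (Nat.cast_nonneg _)]
  intro i
  exact (mem_pb.1 (hx.1 i)) v

theorem thm_CNT (h1 : St_CB) (h2 : St_PHI) (h3 : St_DLT) (h4 : St_NN) (h5 : St_LL)
    (h6 : St_TSC) : St_CNT := by
  intro K _ _ s k m A hyp hA
  obtain ⟨C1, hC1, h1'⟩ := h1 K s k m hyp
  obtain ⟨C4, hC4, h4'⟩ := h4 K s k m hyp.hk
  obtain ⟨C5, hC5, h5'⟩ := h5 K s k m hyp.hk
  refine ⟨2 * C1 * (C4 + C5), by positivity, fun c v κ W par hκ hW => ?_⟩
  obtain ⟨t1, h1t⟩ := h1' c v par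
  refine ⟨t1 + 2 * κ * W + 1, fun t ht V H hR x hx y hy hxy => ?_⟩
  have ht1 : 1 ≤ t := by omega
  have htκ : 2 * κ * W ≤ t := by omega
  have h1t' := ((h1t t (by omega) V H hR x hx).2 y hy hxy).2
  clear h1t h1'
  have hV1 : 1 ≤ V := le_trans (Nat.one_le_pow _ _ ht1) hR.1
  have hH1 : 1 ≤ H := le_trans (Nat.one_le_pow _ _ hV1) hR.2.2.1
  have hX1 : 1 ≤ XC s c t := Nat.one_le_pow _ _ ht1
  have hU1 : 1 ≤ UC s m A c t V := by
    unfold UC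
    exact Nat.mul_pos (Nat.mul_pos hA (Nat.one_le_pow _ _ hX1)) hV1
  obtain ⟨-, hP2, hP3, -⟩ := h2 K s (k * m) H hH1
  obtain ⟨Θ, hΘ⟩ : ∃ Θ : ℕ, Θ = ThC s c t H κ (k * m) := ⟨_, rfl⟩
  obtain ⟨X, hX⟩ : ∃ X : ℕ, X = XC s c t := ⟨_, rfl⟩
  obtain ⟨U, hU⟩ : ∃ U : ℕ, U = UC s m A c t V := ⟨_, rfl⟩
  have hΘX : 2 * X ^ 2 * W ≤ Θ := by
    rw [hΘ]
    unfold ThC
    rw [Nat.le_div_iff_mul_le hκ, ← hX]
    have hkv : 1 ≤ k * v := by have := par.hH; omega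
    have htH : t ≤ H := by
      calc t = t ^ 1 := (pow_one t).symm
        _ ≤ t ^ (v * k) := Nat.pow_le_pow_right ht1 (by rw [mul_comm]; exact hkv)
        _ = (t ^ v) ^ k := pow_mul _ _ _
        _ ≤ V ^ k := Nat.pow_le_pow_left hR.1 _
        _ ≤ H := hR.2.2.1
    have hkm : 2 ≤ k * m := by
      have := hyp.hk
      have := hyp.hm
      nlinarith
    have hXX : X ^ 2 ≤ X ^ (k * m) := Nat.pow_le_pow_right (by rw [hX]; exact hX1) hkm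
    calc 2 * X ^ 2 * W * κ = 2 * κ * W * X ^ 2 := by ring
      _ ≤ H * X ^ (k * m) := Nat.mul_le_mul (htκ.trans htH) hXX
  have hPx : Prim x := (Finset.mem_filter.1 hx).2.1
  have hNN := h4' U x y (by rw [hU]; exact hU1) hPx hxy
  have hLL := h5' U W Θ X x y (by rw [hU]; exact hU1) hW (by rw [hX]; exact hX1) hΘX hPx
    (fun v => by rw [hX]; exact CNT_vs hx v) (fun v => by rw [hX]; exact CNT_vs hy v) hxy
  have hTS0 : 0 < (TS K Θ W).card := Finset.card_pos.2 ⟨0, (h6 K Θ W hW).2⟩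
  obtain ⟨T, hT⟩ : ∃ T : ℝ, T = ((TS K Θ W).card : ℝ) := ⟨_, rfl⟩
  have hT0 : 0 < T := by rw [hT]; exact_mod_cast hTS0
  obtain ⟨P, hP⟩ : ∃ P : ℝ, P = ((H : ℝ) * (XC s c t : ℝ) ^ (k * m)) ^ dg K := ⟨_, rfl⟩
  obtain ⟨Ur, hUr⟩ : ∃ Ur : ℝ, Ur = (U : ℝ) ^ dg K := ⟨_, rfl⟩
  obtain ⟨Bx, hBx⟩ : ∃ Bx : ℝ, Bx = ((box K s (k * m) H).card : ℝ) := ⟨_, rfl⟩
  obtain ⟨om, hom⟩ : ∃ om : ℝ, om = (wn x y : ℝ) * ((XC s c t : ℝ) ^ 2) ^ dg K / wp x y := ⟨_, rfl⟩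
  obtain ⟨ρ, hρ⟩ : ∃ ρ : ℝ, ρ = rp (wn x y) (MM k) := ⟨_, rfl⟩
  have hBx0 : 0 ≤ Bx := by rw [hBx]; exact Nat.cast_nonneg _
  have hHR : (0 : ℝ) < H := by exact_mod_cast hH1
  have hXR : (0 : ℝ) < XC s c t := by exact_mod_cast hX1
  have hwp : 0 < wp x y := wp_pos hxy
  have hP0 : 0 < P := by rw [hP]; positivity
  have hom0 : 0 ≤ om := by rw [hom]; positivity
  have hUR : (0 : ℝ) < (U : ℝ) := by rw [hU]; exact_mod_cast hU1
  have hUr0 : 0 < Ur := by rw [hUr]; positivity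
  obtain ⟨K0, hK0⟩ : ∃ K0 : ℝ, K0 = 2 * (C1 * om * Bx / P ^ 2) := ⟨_, rfl⟩
  have hK00 : 0 ≤ K0 := by rw [hK0]; positivity
  have hcP : ∀ a b : 𝓞 K, cP (k * m) H x y a b ≤ K0 := by
    intro a b
    refine ((hP3 x y a b).2).trans ?_
    rw [hK0]
    apply mul_le_mul_of_nonneg_left _ (by norm_num)
    have e1 := h1t' a b
    rw [← hP, ← hBx] at e1
    rw [le_div_iff₀ (by positivity), hom]
    have e2 : C1 * ((wn x y : ℝ) * ((XC s c t : ℝ) ^ 2) ^ dg K / wp x y) * Bx =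
      (C1 * (wn x y * ((XC s c t : ℝ) ^ 2) ^ dg K) * Bx) / wp x y := by ring
    rw [e2, le_div_iff₀ hwp]
    calc _ = (c2 (d := k * m) (3 * H) x y a b : ℝ) * (P ^ 2 * wp x y) := by ring
      _ ≤ _ := e1
  rw [← hUr, ← hρ] at hNN hLL
  rw [← hT] at hLL
  rw [Finset.sum_add_distrib]
  have hfirst : ∑ q ∈ pb K ((UC s m A c t V : ℕ) : ℝ) ×ˢ pb K ((UC s m A c t V : ℕ) : ℝ),
      ∑ f ∈ box K s (k * m) (2 * H), Ph H f * (dlt (q.1 ^ k) x f * dlt (q.2 ^ k) y f) ≤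
      C4 * (Ur * (Ur * ρ + 1)) * K0 := by
    rw [← hU]
    have e1 := CNT_sum (pb K (U : ℝ) ×ˢ pb K (U : ℝ))
      (fun q => Cmp (k * m) x y (q.1 ^ k) (q.2 ^ k))
      (fun q => ∑ f ∈ box K s (k * m) (2 * H), Ph H f * (dlt (q.1 ^ k) x f * dlt (q.2 ^ k) y f))
      K0 (fun q _ hq => by
        show ∑ f ∈ box K s (k * m) (2 * H), Ph H f * (dlt (q.1 ^ k) x f * dlt (q.2 ^ k) y f) = 0
        rw [(h3 K s (k * m) H Θ W x y (q.1 ^ k) (q.2 ^ k) hW).1]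
        exact CNT_cP hq)
      (fun q _ => by
        show ∑ f ∈ box K s (k * m) (2 * H), Ph H f * (dlt (q.1 ^ k) x f * dlt (q.2 ^ k) y f) ≤ K0
        rw [(h3 K s (k * m) H Θ W x y (q.1 ^ k) (q.2 ^ k) hW).1]
        exact hcP _ _)
    exact e1.trans (mul_le_mul_of_nonneg_right hNN hK00)
  have hsecond : ∑ q ∈ pb K ((UC s m A c t V : ℕ) : ℝ) ×ˢ pb K ((UC s m A c t V : ℕ) : ℝ),
      ∑ f ∈ box K s (k * m) (2 * H), Ph H f *
        (lmt (ThC s c t H κ (k * m)) W (q.1 ^ k) x f *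
          lmt (ThC s c t H κ (k * m)) W (q.2 ^ k) y f) ≤
      C5 * (Ur * (Ur * ρ + 1)) * K0 := by
    rw [← hU, ← hΘ]
    have e0 : ∀ q ∈ pb K (U : ℝ) ×ˢ pb K (U : ℝ),
        ∑ f ∈ box K s (k * m) (2 * H), Ph H f *
        (lmt Θ W (q.1 ^ k) x f * lmt Θ W (q.2 ^ k) y f) =
        1 / T ^ 2 * ∑ z ∈ TS K Θ W ×ˢ TS K Θ W,
          cP (k * m) H x y (q.1 ^ k + z.1) (q.2 ^ k + z.2) := fun q _ => by
      rw [hT]
      exact (h3 K s (k * m) H Θ W x y (q.1 ^ k) (q.2 ^ k) hW).2.1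
    rw [Finset.sum_congr rfl e0, ← Finset.mul_sum, ← Finset.sum_product']
    have e1 := CNT_sum ((pb K (U : ℝ) ×ˢ pb K (U : ℝ)) ×ˢ (TS K Θ W ×ˢ TS K Θ W))
      (fun p => Cmp (k * m) x y (p.1.1 ^ k + p.2.1) (p.1.2 ^ k + p.2.2))
      (fun p => cP (k * m) H x y (p.1.1 ^ k + p.2.1) (p.1.2 ^ k + p.2.2))
      K0 (fun q _ hq => CNT_cP hq) (fun q _ => hcP _ _)
    have e2 := e1.trans (mul_le_mul_of_nonneg_right hLL hK00)
    refine (mul_le_mul_of_nonneg_left e2 (by positivity)).trans (le_of_eq ?_)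
    field_simp
  refine (add_le_add hfirst hsecond).trans (le_of_eq ?_)
  unfold wtC
  rw [← hU, ← hUr, ← hP, ← hBx, ← hom, ← hρ, hK0]
  field_simp

end Pool.Agent.RHC
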