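import Pool.Agent.RHC.StA

/-!
RHC [CTYP] (helper25): typical pairs.
-/

set_option autoImplicit false

namespace Pool.Agent.RHC

open scoped BigOperators
open Classical NumberField IsDedekindDomain
open Pool.Agent.RHP (Mon mono ev Prim)
open Pool.Agent.RHK

/-- the facts on a good point -/
theorem CTYP_good {K : Type} [Field K] [NumberField K] {s c t : ℕ} {x : Fin s → 𝓞 K}
    (h : x ∈ CG K s c t) : Prim x ∧
      ∀ v : InfinitePlace K, ((XC s c t : ℕ) : ℝ) < 2 * vs v x ∧ vs v x ≤ ((XC s c t : ℕ) : ℝ) := by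
  unfold CG at h
  rw [Finset.mem_filter, mem_bx (Nat.cast_nonneg _)] at h
  exact ⟨h.2.1, fun v => ⟨h.2.2.1 v, h.1 v⟩⟩

theorem CTYP_H {k v t V H : ℕ} (ht : 1 ≤ t) (h : CR k v t V H) : 1 ≤ H := by
  have h1 : 1 ≤ V := le_trans (Nat.one_le_pow _ _ ht) h.1
  exact le_trans (Nat.one_le_pow _ _ h1) h.2.2.1

theorem thm_CTYP (hR : St_CTR) (hB : St_CB) (hP : St_PHI) (hD : St_DLT) : St_CTYP := by
  intro K _ _ s k m hyp
  have hd : 2 ≤ k * m := by
    have := hyp.hk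
    have := hyp.hm
    nlinarith
  obtain ⟨C1, hC1, hC⟩ := hR K s (k * m) hd
  obtain ⟨C2, hC2, hCB⟩ := hB K s k m hyp
  refine ⟨4 * C2, by positivity, fun c v k' m1 hpar hk' hm1 => ?_⟩
  refine ⟨C1 * m1 * k', by positivity, fun W hW hWd => ?_⟩
  obtain ⟨t0, ht0⟩ := hCB c v hpar
  refine ⟨max t0 (C1 * k' + 1), fun t ht V H hCR x hx y hy hPxy hTy a b => ?_⟩
  have htt0 : t ≥ t0 := le_trans (le_max_left _ _) ht
  have htC : C1 * k' + 1 ≤ t := le_trans (le_max_right _ _) ht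
  have ht1 : 1 ≤ t := by omega
  have hH : 1 ≤ H := CTYP_H ht1 hCR
  obtain ⟨hP1, hP2, hP3, hP4⟩ := hP K s (k * m) H hH
  obtain ⟨-, hy2⟩ := ht0 t htt0 V H hCR x hx
  obtain ⟨hCv, hc2⟩ := hy2 y hy hPxy
  obtain ⟨hgx1, hgx2⟩ := CTYP_good hx
  obtain ⟨hgy1, hgy2⟩ := CTYP_good hy
  obtain ⟨hT1, hT2⟩ := hTy
  set Θ := ThC s c t H (C1 * m1 * k') (k * m) with hΘ
  have hX1 : 1 ≤ XC s c t := Nat.one_le_pow _ _ ht1
  have htR : (0 : ℝ) < t := by exact_mod_cast ht1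
  have hHR : (0 : ℝ) < H := by exact_mod_cast hH
  have hXR : (0 : ℝ) < (XC s c t : ℝ) := by exact_mod_cast hX1
  have hWI : (W : 𝓞 K) ∈ gI x y := by
    have h1 : wn x y ∣ W := hWd _ (wn_pos hPxy) hT1
    obtain ⟨u, hu⟩ := h1
    rw [hu, Nat.cast_mul]
    exact Ideal.mul_mem_right _ _ (Ideal.absNorm_mem _)
  have hκ : 0 < C1 * m1 * k' := by positivity
  obtain ⟨-, -, hD3⟩ := hD K s (k * m) H Θ W x y a b hW
  have hwp := wp_pos hPxy
  -- the bound for c2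
  set Bx : ℝ := ((box K s (k * m) H).card : ℝ) with hBx
  set D : ℝ := (((H : ℝ) * (XC s c t : ℝ) ^ (k * m)) ^ dg K) ^ 2 with hDdef
  have hD0 : 0 < D := by positivity
  have hXw : ((XC s c t : ℝ) ^ 2) ^ dg K ≤ (m1 : ℝ) ^ dg K * wp x y := by
    rw [← prod_pow_mult (K := K), ← prod_pow_mult (K := K) (m1 : ℝ)]
    unfold wp
    rw [← Finset.prod_mul_distrib]
    refine Finset.prod_le_prod (fun v _ => by positivity) fun v _ => ?_
    rw [← mul_pow]
    exact pow_le_pow_left₀ (by positivity) (hT2 v) _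
  have hc2' : (c2 (d := k * m) (3 * H) x y a b : ℝ) ≤ C2 * (m1 : ℝ) ^ (dg K + 1) / D * Bx := by
    have h1 := hc2 a b
    have hwn : (wn x y : ℝ) ≤ m1 := by exact_mod_cast hT1
    have h2 : (c2 (d := k * m) (3 * H) x y a b : ℝ) * (D * wp x y) ≤
        (C2 * (m1 : ℝ) ^ (dg K + 1) * Bx) * wp x y := by
      refine h1.trans ?_
      have h3 : (wn x y : ℝ) * ((XC s c t : ℝ) ^ 2) ^ dg K ≤
          (m1 : ℝ) * ((m1 : ℝ) ^ dg K * wp x y) :=
        mul_le_mul hwn hXw (by positivity) (Nat.cast_nonneg _)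
      calc C2 * ((wn x y : ℝ) * ((XC s c t : ℝ) ^ 2) ^ dg K) * Bx
          ≤ C2 * ((m1 : ℝ) * ((m1 : ℝ) ^ dg K * wp x y)) * Bx := by
            apply mul_le_mul_of_nonneg_right _ (Nat.cast_nonneg _)
            exact mul_le_mul_of_nonneg_left h3 hC2.le
        _ = (C2 * (m1 : ℝ) ^ (dg K + 1) * Bx) * wp x y := by
            rw [pow_succ]
            ring
    rw [← mul_assoc] at h2
    have h4 := le_of_mul_le_mul_right h2 hwp
    rw [div_mul_eq_mul_div, le_div_iff₀ hD0]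
    exact h4
  have hk'R : (0 : ℝ) < k' := by exact_mod_cast hk'
  have hmain := hD3 (1 / k' * (c2 (d := k * m) (3 * H) x y a b : ℝ)) (by
    intro u hu w hw
    have hmem : ∀ u ∈ TS K Θ W, (W : 𝓞 K) ∣ u ∧ cz u * (C1 * m1 * k') ≤ H * XC s c t ^ (k * m) := by
      intro u hu
      unfold TS at hu
      rw [Finset.mem_filter, mem_cb] at hu
      refine ⟨hu.2, ?_⟩
      rw [hΘ] at hu
      unfold ThC at hu
      exact (Nat.le_div_iff_mul_le hκ).1 hu.1
    obtain ⟨z, hz1, hz2, hz3⟩ := hC (XC s c t) H (C1 * m1 * k') W m1 k' ((H : ℝ) / t) x y hX1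
      hgx1 hgy1 hgx2 hgy2 hPxy hCv (by positivity) hWI hT2 hk' le_rfl (by
        rw [mul_div_assoc', div_le_iff₀ htR, mul_comm]
        apply mul_le_mul_of_nonneg_left _ hHR.le
        exact_mod_cast (by omega : C1 * k' ≤ t)) u w (hmem u hu).1 (hmem w hw).1 (hmem u hu).2
      (hmem w hw).2
    exact hP4 x y a b u w z k' hk' hz1 hz2 hz3)
  refine hmain.trans ?_
  calc 4 * (1 / (k' : ℝ) * (c2 (d := k * m) (3 * H) x y a b : ℝ))
      ≤ 4 * (1 / (k' : ℝ) * (C2 * (m1 : ℝ) ^ (dg K + 1) / D * Bx)) := by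
        apply mul_le_mul_of_nonneg_left _ (by norm_num)
        exact mul_le_mul_of_nonneg_left hc2' (by positivity)
    _ = 4 * C2 / k' * (m1 : ℝ) ^ (dg K + 1) / D * Bx := by
        field_simp

end Pool.Agent.RHC
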