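import Pool.Agent.RHC.StA
import Pool.Agent.RHP.Final

/-!
RHC: the conclusion: `CMain` from `SMC`, `LLC`, `LPC` (helper50; adapted from RHM/Final.lean).
-/

set_option autoImplicit false

namespace Pool.Agent.RHC

open scoped BigOperators
open Classical NumberField IsDedekindDomain
open Pool.Agent.RHP (Mon mono ev Prim WW card_le_add WW_pos dvd_WW)
open Pool.Agent.RHK

section

variable {K : Type} [Field K] [NumberField K] {s k m : ℕ}

/-- every large `H` lies in the range of a large `t` -/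
theorem exists_root (h t0 : ℕ) (hh : 1 ≤ h) : ∃ H0 : ℕ, ∀ H ≥ H0, ∃ t ≥ t0, 1 ≤ t ∧
    t ^ h ≤ H ∧ H ≤ (t + 1) ^ h := by
  refine ⟨(t0 + 1) ^ h, fun H hH => ?_⟩
  have hP : (t0 + 1) ^ h ≤ H := hH
  have hb : t0 + 1 ≤ H := by
    calc t0 + 1 = (t0 + 1) ^ 1 := (pow_one _).symm
      _ ≤ (t0 + 1) ^ h := Nat.pow_le_pow_right (by omega) hh
      _ ≤ H := hP
  have h1 : t0 + 1 ≤ Nat.findGreatest (fun t => t ^ h ≤ H) H :=
    Nat.le_findGreatest hb hP
  have h2 : (Nat.findGreatest (fun t => t ^ h ≤ H) H) ^ h ≤ H :=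
    Nat.findGreatest_spec (P := fun t => t ^ h ≤ H) hb hP
  set t := Nat.findGreatest (fun t => t ^ h ≤ H) H with ht
  refine ⟨t, by omega, by omega, h2, ?_⟩
  by_contra hcon
  push Not at hcon
  have h3 : (t + 1) ^ h ≤ H := hcon.le
  have h4 : t + 1 ≤ H := by
    calc t + 1 = (t + 1) ^ 1 := (pow_one _).symm
      _ ≤ (t + 1) ^ h := Nat.pow_le_pow_right (by omega) hh
      _ ≤ H := h3
  have h5 : t + 1 ≤ Nat.findGreatest (fun t => t ^ h ≤ H) H := Nat.le_findGreatest h4 h3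
  omega

/-- every large `H` has parameters `V`, `t` -/
theorem exists_CR (k v t0 : ℕ) (hk : 1 ≤ k) (hv : 1 ≤ v) :
    ∃ H0 : ℕ, ∀ H ≥ H0, ∃ t ≥ t0, 1 ≤ t ∧ ∃ V, CR k v t V H := by
  obtain ⟨V0, hV0⟩ := exists_root v t0 hv
  obtain ⟨H0, hH0⟩ := exists_root k V0 hk
  refine ⟨H0, fun H hH => ?_⟩
  obtain ⟨V, hV, -, h1, h2⟩ := hH0 H hH
  obtain ⟨t, ht, ht1, h3, h4⟩ := hV0 V hV
  exact ⟨t, ht, ht1, V, h3, h4.trans (Nat.pow_le_pow_left (by omega) _), h1, h2⟩

theorem XC_pos (s c t : ℕ) (ht : 1 ≤ t) : 0 < XC s c t := pow_pos ht _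

theorem EC_pos (r s k m c v t V H : ℕ) (ht : 1 ≤ t) (hH : CR k v t V H) :
    0 < EC r s k m c t V H := by
  unfold EC
  have hV : 0 < V := lt_of_lt_of_le (pow_pos ht _) hH.1
  have hH' : 0 < H := lt_of_lt_of_le (pow_pos hV _) hH.2.2.1
  have hX : 0 < XC s c t := XC_pos s c t ht
  have hV' : (0 : ℝ) < V := by exact_mod_cast hV
  have hH'' : (0 : ℝ) < H := by exact_mod_cast hH'
  have hX' : (0 : ℝ) < XC s c t := by exact_mod_cast hX
  positivity

/-- a point counted by `NC` gives a point over `K` -/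
theorem hasZero_of_NC (A c t V : ℕ) (f : Mon s (k * m) → 𝓞 K) (h : NC A c t V f ≠ 0) :
    HasZeroC f K := by
  unfold NC at h
  obtain ⟨x, hx, h1⟩ := Finset.exists_ne_zero_of_sum_ne_zero h
  obtain ⟨w, hw, h2⟩ := Finset.exists_ne_zero_of_sum_ne_zero h1
  have h3 : ev f x = w ^ k := by
    by_contra h3
    exact h2 (if_neg h3)
  unfold CG at hx
  rw [Finset.mem_filter] at hx
  refine ⟨fun i => (x i : K), ?_, (w : K), ?_⟩
  · intro h0
    obtain ⟨c, hc⟩ := hx.2.1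
    have : ∀ i, x i = 0 := fun i => by
      have h2 : (x i : K) = 0 := congrFun h0 i
      exact RingOfIntegers.coe_eq_zero_iff.1 h2
    simp [this] at hc
  · have h4 : ev (fun μ => algebraMap (𝓞 K) K (f μ)) (fun l => algebraMap (𝓞 K) K (x l)) =
        algebraMap (𝓞 K) K (ev f x) := Pool.Agent.RHP.ev_map (algebraMap (𝓞 K) K) f x
    rw [h3, map_pow] at h4
    exact h4

/-- Chebyshev -/
theorem chebC (A c v t V H κ W : ℕ) (γ : ℝ) (hγ : 0 < γ) (ht : 1 ≤ t) (hH : CR k v t V H)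
    (ε : ℝ) (hs : ∑ F ∈ box K s (k * m) H, (NC A c t V F - NLC A c t V H κ W F) ^ 2
      ≤ ε * EC (dg K) s k m c t V H ^ 2 * ((box K s (k * m) H).card : ℝ)) :
    (((box K s (k * m) H).filter fun F => NC A c t V F = 0 ∧
      γ * EC (dg K) s k m c t V H ≤ NLC A c t V H κ W F).card : ℝ)
      ≤ ε / γ ^ 2 * ((box K s (k * m) H).card : ℝ) := by
  have hE := EC_pos (dg K) s k m c v t V H ht hH
  obtain ⟨E, hEd⟩ : ∃ E : ℝ, E = EC (dg K) s k m c t V H := ⟨_, rfl⟩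
  rw [← hEd] at hE hs ⊢
  have hcE : 0 < γ * E := mul_pos hγ hE
  obtain ⟨S, hS⟩ : ∃ S : Finset (Mon s (k * m) → 𝓞 K), S = (box K s (k * m) H).filter fun F =>
    NC A c t V F = 0 ∧ γ * E ≤ NLC A c t V H κ W F := ⟨_, rfl⟩
  rw [← hS]
  have h1 : (S.card : ℝ) * (γ * E) ^ 2 ≤
      ∑ F ∈ box K s (k * m) H, (NC A c t V F - NLC A c t V H κ W F) ^ 2 := by
    calc (S.card : ℝ) * (γ * E) ^ 2
        = ∑ F ∈ S, (γ * E) ^ 2 := by
          rw [Finset.sum_const, nsmul_eq_mul]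
      _ ≤ ∑ F ∈ S, (NC A c t V F - NLC A c t V H κ W F) ^ 2 := by
          apply Finset.sum_le_sum
          intro F hF
          rw [hS] at hF
          obtain ⟨_, hF1, hF2⟩ := Finset.mem_filter.1 hF
          rw [hF1, zero_sub, neg_sq]
          exact pow_le_pow_left₀ hcE.le hF2 2
      _ ≤ ∑ F ∈ box K s (k * m) H, (NC A c t V F - NLC A c t V H κ W F) ^ 2 := by
          apply Finset.sum_le_sum_of_subset_of_nonneg
          · rw [hS]
            exact Finset.filter_subset _ _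
          intros
          positivity
  have h2 := h1.trans hs
  have h3 : (γ * E) ^ 2 = γ ^ 2 * E ^ 2 := by ring
  rw [h3] at h2
  have h4 : 0 < E ^ 2 := by positivity
  have h5 : 0 < γ ^ 2 := by positivity
  have h6 : (S.card : ℝ) * γ ^ 2 ≤ ε * ((box K s (k * m) H).card : ℝ) := by
    have : ((S.card : ℝ) * γ ^ 2) * E ^ 2 ≤
        (ε * ((box K s (k * m) H).card : ℝ)) * E ^ 2 := by
      nlinarith [h2]
    exact le_of_mul_le_mul_right this h4
  rw [div_mul_eq_mul_div, le_div_iff₀ h5]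
  exact h6

theorem cmain_of (A c v : ℕ) (hk : 1 ≤ k) (hv : 1 ≤ v) (sm : SMC K s k m A c v)
    (ll : LLC K s k m A c v) (lp : LPC K s k m A c v) : CMain K s k m := by
  unfold CMain
  constructor
  · obtain ⟨γ, hc, c', hc', m2, h2⟩ := lp
    obtain ⟨κ, m0, hκ, h3⟩ := sm (γ ^ 2 * c' / 2) (by positivity)
    set M := max m0 m2 with hM
    obtain ⟨t1, h4⟩ := h3 (WW M) (WW_pos M) (fun g hg hg' => dvd_WW M g hg (hg'.trans (le_max_left _ _)))
    obtain ⟨t2, h5⟩ := h2 M (le_max_right _ _) κ hκ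
    obtain ⟨H0, hH0⟩ := exists_CR k v (max t1 t2) hk hv
    refine ⟨c' / 2, by positivity, H0, fun H hH => ?_⟩
    obtain ⟨t, ht, ht1, V, hR⟩ := hH0 H hH
    have h6 := h4 t ((le_max_left _ _).trans ht) V H hR
    have h7 := h5 t ((le_max_right _ _).trans ht) V H hR
    have h8 := chebC A c v t V H κ (WW M) γ hc ht1 hR _ h6
    have h9 : (((box K s (k * m) H).filter fun F =>
          γ * EC (dg K) s k m c t V H ≤ NLC A c t V H κ (WW M) F).card : ℝ)
        ≤ (((box K s (k * m) H).filter fun F => HasZeroC F K).card : ℝ)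
          + (((box K s (k * m) H).filter fun F => NC A c t V F = 0 ∧
              γ * EC (dg K) s k m c t V H ≤ NLC A c t V H κ (WW M) F).card : ℝ) := by
      apply card_le_add
      intro F _ hF
      by_cases hN : NC A c t V F = 0
      · exact Or.inr ⟨hN, hF⟩
      · exact Or.inl (hasZero_of_NC A c t V F hN)
    have h10 : γ ^ 2 * c' / 2 / γ ^ 2 = c' / 2 := by field_simp
    rw [h10] at h8
    linarith
  · intro ε hε
    obtain ⟨γ, hc, m2, h2⟩ := ll (ε / 2) (by positivity)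
    obtain ⟨κ, m0, hκ, h3⟩ := sm (γ ^ 2 * (ε / 2)) (by positivity)
    set M := max m0 m2 with hM
    obtain ⟨t1, h4⟩ := h3 (WW M) (WW_pos M) (fun g hg hg' => dvd_WW M g hg (hg'.trans (le_max_left _ _)))
    obtain ⟨t2, h5⟩ := h2 M (le_max_right _ _) κ hκ
    obtain ⟨H0, hH0⟩ := exists_CR k v (max t1 t2) hk hv
    refine ⟨H0, fun H hH => ?_⟩
    obtain ⟨t, ht, ht1, V, hR⟩ := hH0 H hH
    have h6 := h4 t ((le_max_left _ _).trans ht) V H hR
    have h7 := h5 t ((le_max_right _ _).trans ht) V H hR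
    have h8 := chebC A c v t V H κ (WW M) γ hc ht1 hR _ h6
    have h9 : (((box K s (k * m) H).filter fun F => ELSC F ∧ ¬ HasZeroC F K).card : ℝ)
        ≤ (((box K s (k * m) H).filter fun F => ELSC F ∧
            NLC A c t V H κ (WW M) F < γ * EC (dg K) s k m c t V H).card : ℝ)
          + (((box K s (k * m) H).filter fun F => NC A c t V F = 0 ∧
              γ * EC (dg K) s k m c t V H ≤ NLC A c t V H κ (WW M) F).card : ℝ) := by
      apply card_le_add
      intro F _ hF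
      have hN : NC A c t V F = 0 := by
        by_contra hN
        exact hF.2 (hasZero_of_NC A c t V F hN)
      by_cases hc1 : γ * EC (dg K) s k m c t V H ≤ NLC A c t V H κ (WW M) F
      · exact Or.inr ⟨hN, hc1⟩
      · exact Or.inl ⟨hF.1, not_le.1 hc1⟩
    have h10 : γ ^ 2 * (ε / 2) / γ ^ 2 = ε / 2 := by field_simp
    rw [h10] at h8
    linarith

end

/-- suitable parameters -/
theorem exists_CPar (s k m c0 : ℕ) (h : CHyp s k m) : ∃ c ≥ c0, 1 ≤ c ∧ ∃ v, 1 ≤ v ∧ CPar s k m c v := by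
  obtain ⟨hs, hk, hm, hF⟩ := h
  obtain ⟨n, rfl⟩ : ∃ n, s = n + 1 := ⟨s - 1, by omega⟩
  obtain ⟨k', rfl⟩ : ∃ k', k = k' + 1 := ⟨k - 1, by omega⟩
  obtain ⟨e, he⟩ : ∃ e, n + 1 - m * k' = e + 1 := by
    have : m * k' < n + 1 := by simpa using hF
    exact ⟨n + 1 - m * k' - 1, by omega⟩
  have hn : 2 ≤ n := by omega
  have hk' : 1 ≤ k' := by omega
  refine ⟨k' * (c0 + 2), ?_, ?_, (c0 + 2) * n * (e + 1), ?_, ?_, ?_⟩
  · nlinarith
  · nlinarith
  · have : 1 ≤ (c0 + 2) * n := by nlinarith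
    nlinarith
  · have h1 : 2 * (c0 + 2) ≤ (c0 + 2) * n * (e + 1) := by
      calc 2 * (c0 + 2) = (c0 + 2) * 2 * 1 := by ring
        _ ≤ (c0 + 2) * n * (e + 1) := Nat.mul_le_mul (Nat.mul_le_mul_left _ hn) (by omega)
    calc 2 * (k' * (c0 + 2)) + 4 ≤ (k' + 1) * (2 * (c0 + 2)) := by nlinarith
      _ ≤ (k' + 1) * ((c0 + 2) * n * (e + 1)) := Nat.mul_le_mul_left _ h1
  · simp only [Nat.add_sub_cancel]
    rw [he]
    nlinarith [Nat.zero_le (k' * (c0 + 2) * n * (e + 1))]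

/-- THE MAIN THEOREM for coefficient vectors in the boxes of coordinates -/
theorem cmain_all (hA : St_CSM)
    (hL : ∀ (K : Type) [Field K] [NumberField K] (s k m : ℕ), CHyp s k m → ∃ A0 : ℕ, ∀ A ≥ A0,
      ∀ c v : ℕ, 1 ≤ c → 1 ≤ v → LLC K s k m A c v ∧ LPC K s k m A c v)
    (K : Type) [Field K] [NumberField K] (s k m : ℕ) (hyp : CHyp s k m) : CMain K s k m := by
  obtain ⟨A0, hA0⟩ := hL K s k m hyp
  obtain ⟨c0, hc0⟩ := hA K s k m (max A0 1) hyp (le_max_right _ _)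
  obtain ⟨c, hc, hc1, v, hv1, hpar⟩ := exists_CPar s k m c0 hyp
  obtain ⟨h1, h2⟩ := hA0 (max A0 1) (le_max_left _ _) c v hc1 hv1
  have := hyp.hk
  exact cmain_of (max A0 1) c v (by omega) hv1 (hc0 c hc v hpar) h1 h2

end Pool.Agent.RHC
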