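import Pool.Agent.RHC.StA

/-!
RHC, CSM: the second moment (helper16).
-/

set_option autoImplicit false

namespace Pool.Agent.RHC

open scoped BigOperators
open Classical NumberField IsDedekindDomain
open Pool.Agent.RHP (Mon mono ev Prim)
open Pool.Agent.RHK

theorem CSM_pb (h : RHM.St_PBC) (K : Type) [Field K] [NumberField K] : ∃ C : ℝ, 0 < C ∧
    ∀ U : ℕ, 1 ≤ U → ((pb K (U : ℝ)).card : ℝ) ≤ C * (U : ℝ) ^ dg K := by
  obtain ⟨C, hC, h1⟩ := h K 1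
  refine ⟨C, hC, fun U hU => ?_⟩
  have h2 := h1 U hU
  rwa [Fintype.card_piFinset, Finset.prod_const, Finset.card_univ, Fintype.card_fin, pow_one,
    pow_one] at h2

theorem CSM_rp (M : ℕ) (hM : 1 ≤ M) (C δ : ℝ) (hδ : 0 < δ) : ∃ m : ℕ, 1 ≤ m ∧ C * rp m M ≤ δ := by
  have hM' : (0 : ℝ) < M := by exact_mod_cast hM
  have hM1 : (0 : ℝ) < 1 / M := by positivity
  have h1 := (tendsto_rpow_neg_atTop hM1).comp tendsto_natCast_atTop_atTop
  have h2 := h1.const_mul C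
  rw [mul_zero] at h2
  obtain ⟨m, hm1, hm2⟩ := ((h2.eventually_le_const hδ).and (Filter.eventually_ge_atTop 1)).exists
  refine ⟨m, hm2, ?_⟩
  unfold rp
  rw [neg_div]
  exact hm1

theorem CSM_rp_nonneg (m M : ℕ) : 0 ≤ rp m M := Real.rpow_nonneg (Nat.cast_nonneg m) _

theorem thm_CSM (h1 : St_ABSC) (h2 : St_CTYP) (h3 : St_CNT) (h4 : St_CPARL) (h5 : St_CSUM)
    (h6 : St_CEXP) (h7 : St_PHI) (h8 : St_TSC) (h9 : RHM.St_PBC) : St_CSM := by
  intro K _ _ s k m A hyp hA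
  obtain ⟨c0, h5'⟩ := h5 K s k m A hyp hA
  obtain ⟨C2, hC2, h2'⟩ := h2 K s k m hyp
  obtain ⟨C3, hC3, h3'⟩ := h3 K s k m A hyp hA
  obtain ⟨C4, hC4, h4'⟩ := h4 K s k m A hyp hA
  obtain ⟨C7, hC7, h7a⟩ := h9 K s
  obtain ⟨C8, hC8, h8a⟩ := CSM_pb h9 K
  refine ⟨c0, fun c hc v par => ?_⟩
  obtain ⟨C5, hC5, t5, h5t⟩ := h5' c hc v
  obtain ⟨C6, hC6, h6'⟩ := h6 K s k m c v hyp par
  intro ε hε
  have hAR : (1 : ℝ) ≤ A := by exact_mod_cast hA
  obtain ⟨A', hA'⟩ : ∃ A' : ℝ, A' = (A : ℝ) ^ dg K := ⟨_, rfl⟩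
  have hA'0 : 0 < A' := by rw [hA']; positivity
  have hM : 1 ≤ MM k := by
    have := hyp.hk
    unfold MM
    rw [Nat.le_div_iff_mul_le (by norm_num)]
    nlinarith
  obtain ⟨m1, hm1, hm1'⟩ := CSM_rp (MM k) hM (C3 * C5 * A' ^ 2) (ε / 8) (by positivity)
  obtain ⟨D2, hD2⟩ : ∃ D2 : ℝ, D2 = C7 ^ 2 * C8 ^ 2 * A' ^ 2 * C2 * (m1 : ℝ) ^ (dg K + 1) :=
    ⟨_, rfl⟩
  have hD20 : 0 ≤ D2 := by rw [hD2]; positivity
  obtain ⟨k', hk'⟩ := exists_nat_ge (max 1 (D2 * 8 / ε))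
  have hk1R : (1 : ℝ) ≤ k' := (le_max_left _ _).trans hk'
  have hk1 : 1 ≤ k' := by exact_mod_cast hk1R
  have hk2 : D2 / k' ≤ ε / 8 := by
    have e1 : D2 * 8 / ε ≤ k' := (le_max_right _ _).trans hk'
    rw [div_le_iff₀ hε] at e1
    rw [div_le_iff₀ (by linarith)]
    linarith
  obtain ⟨κ, hκ, h2W⟩ := h2' c v k' m1 par hk1 hm1
  refine ⟨κ, m1, hκ, fun W hW hWd => ?_⟩
  obtain ⟨t2, h2t⟩ := h2W W hW hWd
  obtain ⟨t3, h3t⟩ := h3' c v κ W par hκ hW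
  obtain ⟨t4, h4t⟩ := h4' c v κ W par hκ hW
  obtain ⟨t6, ht6⟩ := exists_nat_ge (max 1 ((C3 * C5 * A' ^ 2 + C4 * C6) * 8 / ε))
  refine ⟨t2 + t3 + t4 + t5 + t6, fun t ht V H hR => ?_⟩
  have ht6' : (t6 : ℝ) ≤ t := by
    have : t6 ≤ t := by omega
    exact_mod_cast this
  have htR : (1 : ℝ) ≤ t := ((le_max_left _ _).trans ht6).trans ht6'
  have ht1 : 1 ≤ t := by exact_mod_cast htR
  have htε : (C3 * C5 * A' ^ 2 + C4 * C6) / t ≤ ε / 8 := by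
    have e1 : (C3 * C5 * A' ^ 2 + C4 * C6) * 8 / ε ≤ t :=
      ((le_max_right _ _).trans ht6).trans ht6'
    rw [div_le_iff₀ hε] at e1
    rw [div_le_iff₀ (by linarith)]
    linarith
  have h2t' := h2t t (by omega) V H hR
  have h3t' := h3t t (by omega) V H hR
  have h4t' := h4t t (by omega) V H hR
  have h5t' := (h5t t (by omega) V H hR).2 m1 hm1
  have h6t' := h6' t ht1 V H hR
  clear h2t h3t h4t h5t h6' h5' h2' h3' h4' h2W
  have hV1 : 1 ≤ V := le_trans (Nat.one_le_pow _ _ ht1) hR.1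
  have hH1 : 1 ≤ H := le_trans (Nat.one_le_pow _ _ hV1) hR.2.2.1
  have hX1 : 1 ≤ XC s c t := Nat.one_le_pow _ _ ht1
  have hU1 : 1 ≤ UC s m A c t V := by
    unfold UC
    exact Nat.mul_pos (Nat.mul_pos hA (Nat.one_le_pow _ _ hX1)) hV1
  obtain ⟨hP1, hP2, -, -⟩ := h7 K s (k * m) H hH1
  have hTS := (h8 K (ThC s c t H κ (k * m)) W hW).1
  obtain ⟨E, hE⟩ : ∃ E : ℝ, E = EC (dg K) s k m c t V H := ⟨_, rfl⟩
  obtain ⟨P, hP⟩ : ∃ P : ℝ, P = ((H : ℝ) * (XC s c t : ℝ) ^ (k * m)) ^ dg K := ⟨_, rfl⟩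
  obtain ⟨Xs, hXs⟩ : ∃ Xs : ℝ, Xs = ((XC s c t : ℝ) ^ s) ^ dg K := ⟨_, rfl⟩
  obtain ⟨Ur, hUr⟩ : ∃ Ur : ℝ, Ur = ((UC s m A c t V : ℕ) : ℝ) ^ dg K := ⟨_, rfl⟩
  obtain ⟨Bx, hBx⟩ : ∃ Bx : ℝ, Bx = ((box K s (k * m) H).card : ℝ) := ⟨_, rfl⟩
  have hBx0 : 0 ≤ Bx := by rw [hBx]; exact Nat.cast_nonneg _
  have hHR : (0 : ℝ) < H := by exact_mod_cast hH1
  have hXR : (0 : ℝ) < XC s c t := by exact_mod_cast hX1
  have hVR : (0 : ℝ) < V := by exact_mod_cast hV1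
  have hP0 : 0 < P := by rw [hP]; positivity
  have hE0 : 0 < E := by rw [hE]; unfold EC; positivity
  have hXs0 : 0 < Xs := by rw [hXs]; positivity
  have hUr0 : 0 < Ur := by
    have : (0 : ℝ) < ((UC s m A c t V : ℕ) : ℝ) := by exact_mod_cast hU1
    rw [hUr]; positivity
  have hmain : Xs * Ur = A' * E * P := by
    rw [hXs, hUr, hA', hE, hP]
    unfold EC UC
    rw [← mul_pow, ← mul_pow, ← mul_pow]
    congr 1
    push_cast
    field_simp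
  have hGB : ((CG K s c t).card : ℝ) ≤ C7 * Xs := by
    rw [hXs]
    refine le_trans ?_ (h7a _ hX1)
    exact_mod_cast Finset.card_le_card (Finset.filter_subset _ _)
  have hBB : ((pb K ((UC s m A c t V : ℕ) : ℝ)).card : ℝ) ≤ C8 * Ur := by
    rw [hUr]
    exact h8a _ hU1
  rw [← hE, ← hBx] at h4t'
  rw [← hE] at h6t'
  rw [← hXs] at h5t'
  rw [← hE, ← hBx]
  obtain ⟨b0, hb0⟩ : ∃ b0 : ℝ, b0 = C2 / k' * (m1 : ℝ) ^ (dg K + 1) / P ^ 2 * Bx := ⟨_, rfl⟩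
  have hb00 : 0 ≤ b0 := by rw [hb0]; positivity
  have key := h1 (Mon s (k * m) → 𝓞 K) (Fin s → 𝓞 K) (𝓞 K) (box K s (k * m) (2 * H)) (Ph H)
    (CG K s c t) (pb K ((UC s m A c t V : ℕ) : ℝ)) (fun x w f => dlt (w ^ k) x f)
    (fun x w f => lmt (ThC s c t H κ (k * m)) W (w ^ k) x f)
    (fun x y => ¬ Par x y ∧ TyC c t m1 x y) (fun _ _ => b0) (fun f _ => (hP2 f).1)
    (fun x w f => by
      constructor
      · show 0 ≤ dlt (w ^ k) x f
        unfold dlt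
        split_ifs <;> norm_num
      · show 0 ≤ lmt (ThC s c t H κ (k * m)) W (w ^ k) x f
        unfold lmt
        split_ifs
        · positivity
        · exact le_refl _)
    (fun x hx y hy hxy w _ w' _ => by
      rw [hb0, hP, hBx]
      exact h2t' x hx y hy hxy.1 hxy.2 (w ^ k) (w' ^ k))
  have hLHS : ∑ f ∈ box K s (k * m) H, (NC A c t V f - NLC A c t V H κ W f) ^ 2 ≤
      ∑ F ∈ box K s (k * m) (2 * H), Ph H F * (∑ x ∈ CG K s c t,
        ∑ w ∈ pb K ((UC s m A c t V : ℕ) : ℝ),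
          (dlt (w ^ k) x F - lmt (ThC s c t H κ (k * m)) W (w ^ k) x F)) ^ 2 := by
    have hd : ∀ f : Mon s (k * m) → 𝓞 K, NC A c t V f - NLC A c t V H κ W f =
        ∑ x ∈ CG K s c t, ∑ w ∈ pb K ((UC s m A c t V : ℕ) : ℝ),
          (dlt (w ^ k) x f - lmt (ThC s c t H κ (k * m)) W (w ^ k) x f) := by
      intro f
      unfold NC NLC
      rw [← Finset.sum_sub_distrib]
      apply Finset.sum_congr rfl
      intro x _
      rw [← Finset.sum_sub_distrib]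
      apply Finset.sum_congr rfl
      intro w _
      unfold dlt lmt TC
      rw [hTS]
    have hsub : box K s (k * m) H ⊆ box K s (k * m) (2 * H) := by
      unfold box
      apply Fintype.piFinset_subset
      intro _ a ha
      rw [mem_cb] at ha ⊢
      omega
    refine le_trans ?_ (Finset.sum_le_sum_of_subset_of_nonneg hsub
      fun f _ _ => mul_nonneg (hP2 f).1 (sq_nonneg _))
    apply Finset.sum_le_sum
    intro f hf
    rw [hd f]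
    have := hP1 f hf
    have h0 := sq_nonneg (∑ x ∈ CG K s c t, ∑ w ∈ pb K ((UC s m A c t V : ℕ) : ℝ),
          (dlt (w ^ k) x f - lmt (ThC s c t H κ (k * m)) W (w ^ k) x f))
    nlinarith
  refine (hLHS.trans key).trans ?_
  clear hLHS key
  -- typical pairs
  have hT : ∑ p ∈ (CG K s c t ×ˢ CG K s c t).filter (fun p => ¬ Par p.1 p.2 ∧ TyC c t m1 p.1 p.2),
      ((pb K ((UC s m A c t V : ℕ) : ℝ)).card : ℝ) ^ 2 * b0 ≤ ε / 8 * (E ^ 2 * Bx) := by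
    rw [Finset.sum_const, nsmul_eq_mul]
    have e1 : ((((CG K s c t ×ˢ CG K s c t).filter
        (fun p => ¬ Par p.1 p.2 ∧ TyC c t m1 p.1 p.2)).card : ℕ) : ℝ) ≤ (C7 * Xs) ^ 2 := by
      refine le_trans (b := (((CG K s c t ×ˢ CG K s c t).card : ℕ) : ℝ)) ?_ ?_
      · exact_mod_cast Finset.card_le_card (Finset.filter_subset _ _)
      · rw [Finset.card_product]
        push_cast
        rw [← sq]
        exact pow_le_pow_left₀ (Nat.cast_nonneg _) hGB 2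
    have e2 : ((pb K ((UC s m A c t V : ℕ) : ℝ)).card : ℝ) ^ 2 ≤ (C8 * Ur) ^ 2 :=
      pow_le_pow_left₀ (Nat.cast_nonneg _) hBB 2
    calc _ ≤ (C7 * Xs) ^ 2 * ((C8 * Ur) ^ 2 * b0) :=
          mul_le_mul e1 (mul_le_mul_of_nonneg_right e2 hb00) (by positivity) (by positivity)
      _ = C7 ^ 2 * C8 ^ 2 * (Xs * Ur) ^ 2 * b0 := by ring
      _ = D2 / k' * (E ^ 2 * Bx) := by
          rw [hmain, hb0, hD2]
          have : (k' : ℝ) ≠ 0 := by linarith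
          field_simp
      _ ≤ _ := mul_le_mul_of_nonneg_right hk2 (by positivity)
  -- parallel pairs
  have hPar : ∑ p ∈ (CG K s c t ×ˢ CG K s c t).filter (fun p => Par p.1 p.2),
      ∑ q ∈ pb K ((UC s m A c t V : ℕ) : ℝ) ×ˢ pb K ((UC s m A c t V : ℕ) : ℝ),
        (∑ f ∈ box K s (k * m) (2 * H), Ph H f * (dlt (q.1 ^ k) p.1 f * dlt (q.2 ^ k) p.2 f) +
        ∑ f ∈ box K s (k * m) (2 * H), Ph H f *
          (lmt (ThC s c t H κ (k * m)) W (q.1 ^ k) p.1 f *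
            lmt (ThC s c t H κ (k * m)) W (q.2 ^ k) p.2 f)) ≤ C4 * C6 / t * (E ^ 2 * Bx) := by
    refine h4t'.trans ?_
    have e1 : E ≤ C6 / t * E ^ 2 := by
      rw [div_mul_eq_mul_div, le_div_iff₀ (by linarith)]
      nlinarith
    calc C4 * E * Bx = (C4 * Bx) * E := by ring
      _ ≤ (C4 * Bx) * (C6 / t * E ^ 2) := mul_le_mul_of_nonneg_left e1 (by positivity)
      _ = _ := by ring
  -- the other pairs
  have hOth : ∑ p ∈ (CG K s c t ×ˢ CG K s c t).filter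
      (fun p => ¬ Par p.1 p.2 ∧ ¬ TyC c t m1 p.1 p.2),
      ∑ q ∈ pb K ((UC s m A c t V : ℕ) : ℝ) ×ˢ pb K ((UC s m A c t V : ℕ) : ℝ),
        (∑ f ∈ box K s (k * m) (2 * H), Ph H f * (dlt (q.1 ^ k) p.1 f * dlt (q.2 ^ k) p.2 f) +
        ∑ f ∈ box K s (k * m) (2 * H), Ph H f *
          (lmt (ThC s c t H κ (k * m)) W (q.1 ^ k) p.1 f *
            lmt (ThC s c t H κ (k * m)) W (q.2 ^ k) p.2 f)) ≤
      (ε / 8 + C3 * C5 * A' ^ 2 / t) * (E ^ 2 * Bx) := by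
    have e1 : ∀ p ∈ (CG K s c t ×ˢ CG K s c t).filter
        (fun p => ¬ Par p.1 p.2 ∧ ¬ TyC c t m1 p.1 p.2),
        ∑ q ∈ pb K ((UC s m A c t V : ℕ) : ℝ) ×ˢ pb K ((UC s m A c t V : ℕ) : ℝ),
        (∑ f ∈ box K s (k * m) (2 * H), Ph H f * (dlt (q.1 ^ k) p.1 f * dlt (q.2 ^ k) p.2 f) +
        ∑ f ∈ box K s (k * m) (2 * H), Ph H f *
          (lmt (ThC s c t H κ (k * m)) W (q.1 ^ k) p.1 f *
            lmt (ThC s c t H κ (k * m)) W (q.2 ^ k) p.2 f)) ≤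
        (C3 * Ur ^ 2 / P ^ 2 * Bx) * wtC c t (UC s m A c t V) (MM k) p.1 p.2 := by
      intro p hp
      rw [Finset.mem_filter, Finset.mem_product] at hp
      refine (h3t' p.1 hp.1.1 p.2 hp.1.2 hp.2.1).trans (le_of_eq ?_)
      rw [← hUr, ← hP, ← hBx]
      ring
    refine (Finset.sum_le_sum e1).trans ?_
    rw [← Finset.mul_sum]
    have e2 : 0 ≤ C3 * Ur ^ 2 / P ^ 2 * Bx := by positivity
    refine (mul_le_mul_of_nonneg_left h5t' e2).trans ?_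
    have e3 : C3 * Ur ^ 2 / P ^ 2 * Bx * (C5 * (rp m1 (MM k) + 1 / t) * Xs ^ 2) =
        C3 * C5 * (rp m1 (MM k) + 1 / t) * (Xs * Ur) ^ 2 / P ^ 2 * Bx := by ring
    rw [e3, hmain]
    have e4 : C3 * C5 * (rp m1 (MM k) + 1 / t) * (A' * E * P) ^ 2 / P ^ 2 * Bx =
        (C3 * C5 * A' ^ 2 * rp m1 (MM k) + C3 * C5 * A' ^ 2 / t) * (E ^ 2 * Bx) := by
      have : (t : ℝ) ≠ 0 := by linarith
      field_simp
    rw [e4]
    exact mul_le_mul_of_nonneg_right (by linarith) (by positivity)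
  have hsplit : ∀ g : (Fin s → 𝓞 K) × (Fin s → 𝓞 K) → ℝ,
      ∑ p ∈ (CG K s c t ×ˢ CG K s c t).filter
        (fun p => ¬ (¬ Par p.1 p.2 ∧ TyC c t m1 p.1 p.2)), g p =
      ∑ p ∈ (CG K s c t ×ˢ CG K s c t).filter (fun p => Par p.1 p.2), g p +
      ∑ p ∈ (CG K s c t ×ˢ CG K s c t).filter
        (fun p => ¬ Par p.1 p.2 ∧ ¬ TyC c t m1 p.1 p.2), g p := by
    intro g
    rw [← Finset.sum_union]
    · apply Finset.sum_congr _ fun _ _ => rfl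
      ext p
      simp only [Finset.mem_filter, Finset.mem_union]
      tauto
    · rw [Finset.disjoint_left]
      intro p hp hq
      rw [Finset.mem_filter] at hp hq
      exact hq.2.1 hp.2
  have hsum := hsplit (fun p => ∑ q ∈ pb K ((UC s m A c t V : ℕ) : ℝ) ×ˢ
    pb K ((UC s m A c t V : ℕ) : ℝ),
        (∑ f ∈ box K s (k * m) (2 * H), Ph H f * (dlt (q.1 ^ k) p.1 f * dlt (q.2 ^ k) p.2 f) +
        ∑ f ∈ box K s (k * m) (2 * H), Ph H f *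
          (lmt (ThC s c t H κ (k * m)) W (q.1 ^ k) p.1 f *
            lmt (ThC s c t H κ (k * m)) W (q.2 ^ k) p.2 f)))
  have hEB : 0 ≤ E ^ 2 * Bx := by positivity
  have hfin : ε / 8 * (E ^ 2 * Bx) + (C4 * C6 / t * (E ^ 2 * Bx) +
      (ε / 8 + C3 * C5 * A' ^ 2 / t) * (E ^ 2 * Bx)) ≤ ε * E ^ 2 * Bx := by
    have e1 : ε / 8 * (E ^ 2 * Bx) + (C4 * C6 / t * (E ^ 2 * Bx) +
      (ε / 8 + C3 * C5 * A' ^ 2 / t) * (E ^ 2 * Bx)) =
      (ε / 4 + (C3 * C5 * A' ^ 2 + C4 * C6) / t) * (E ^ 2 * Bx) := by ring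
    rw [e1]
    have e2 : ε / 4 + (C3 * C5 * A' ^ 2 + C4 * C6) / t ≤ ε := by linarith
    calc _ ≤ ε * (E ^ 2 * Bx) := mul_le_mul_of_nonneg_right e2 hEB
      _ = _ := by ring
  refine le_trans (add_le_add ?_ ?_) hfin
  · refine le_trans (le_of_eq ?_) hT
    apply Finset.sum_congr _ fun _ _ => rfl
    ext p
    simp only [Finset.mem_filter]
  · refine le_trans (le_of_eq ?_) (add_le_add hPar hOth)
    refine Eq.trans ?_ hsum
    apply Finset.sum_congr _ fun _ _ => rfl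
    ext p
    simp only [Finset.mem_filter]

end Pool.Agent.RHC
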