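import Pool.Agent.RHC.Defs
import Pool.Agent.RHM.StA

/-!
RHC, block A (second moment for the cyclic covers `w^k = f(x)`): definitions and the statements of the
modules (helper50).  `r = dg K`, `n = s - 1`, `d = k m`, `M = k (k+1)/2`, `X = XC s c t`, `L = t^c`.  Every
module proves `theorem thm_NAME : St_NAME`, or `theorem thm_NAME (h : St_OTHER) ... : St_NAME`, using other
statements (of this file, of RHK/StA or RHM/StA) as hypotheses, or imports of the finished theorems.  The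
proofs are in the docstrings; `C`, `c > 0` are constants.
-/

set_option autoImplicit false

namespace Pool.Agent.RHC

open scoped BigOperators
open Classical NumberField IsDedekindDomain
open Pool.Agent.RHP (Mon mono ev Prim)
open Pool.Agent.RHK

/-! ### Definitions -/

/-- the number of pairs of `k + 1` elements -/
def MM (k : ℕ) : ℕ := k * (k + 1) / 2

/-- `N^(-1/M)` -/
noncomputable def rp (N : ℝ) (M : ℕ) : ℝ := N ^ (-(1 : ℝ) / M)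

section

variable (K : Type) [Field K] [NumberField K]

/-- the multiples of `W` with coordinates in `[-Θ,Θ]` -/
noncomputable def TS (Θ W : ℕ) : Finset (𝓞 K) := (cb K Θ).filter fun a => (W : 𝓞 K) ∣ a

variable {K}

/-- there is an integral form of degree `d` with the values `a` at `x` and `b` at `y` -/
def Cmp {s : ℕ} (d : ℕ) (x y : Fin s → 𝓞 K) (a b : 𝓞 K) : Prop :=
  ∃ f : Mon s d → 𝓞 K, ev f x = a ∧ ev f y = b

/-- the largest coordinate of the coefficients -/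
noncomputable def fm {s d : ℕ} (f : Mon s d → 𝓞 K) : ℕ := Finset.univ.sup fun μ => cz (f μ)

/-- the weight: at least one on the box of height `H`, zero outside of the box of height `2H` -/
noncomputable def Ph {s d : ℕ} (H : ℕ) (f : Mon s d → 𝓞 K) : ℝ := max 0 (2 - (fm f : ℝ) / H)

/-- the weighted number of the forms with the values `a` at `x` and `b` at `y` -/
noncomputable def cP {s : ℕ} (d H : ℕ) (x y : Fin s → 𝓞 K) (a b : 𝓞 K) : ℝ :=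
  ∑ f ∈ (box K s d (2 * H)).filter (fun f => ev f x = a ∧ ev f y = b), Ph H f

/-- indicator of `f(x) = a` -/
noncomputable def dlt {s d : ℕ} (a : 𝓞 K) (x : Fin s → 𝓞 K) (f : Mon s d → 𝓞 K) : ℝ :=
  if ev f x = a then 1 else 0

/-- its local model -/
noncomputable def lmt {s d : ℕ} (Θ W : ℕ) (a : 𝓞 K) (x : Fin s → 𝓞 K) (f : Mon s d → 𝓞 K) : ℝ :=
  if (W : 𝓞 K) ∣ ev f x - a ∧ cz (ev f x - a) ≤ Θ then 1 / ((TS K Θ W).card : ℝ) else 0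

/-- the weight of a pair of points -/
noncomputable def wtC {s : ℕ} (c t U M : ℕ) (x y : Fin s → 𝓞 K) : ℝ :=
  (wn x y : ℝ) * ((XC s c t : ℝ) ^ 2) ^ dg K / wp x y * (rp (wn x y) M + 1 / (U : ℝ) ^ dg K)

/-- typical pairs -/
def TyC {s : ℕ} (c t m1 : ℕ) (x y : Fin s → 𝓞 K) : Prop :=
  wn x y ≤ m1 ∧ ∀ v : InfinitePlace K, (XC s c t : ℝ) ^ 2 ≤ m1 * wv v x y

end

/-! ### Arithmetic -/

/-- [TSC].  PROOF.  As `SM_cardT` in RHK/SM.lean (`a = W b`, `cz a = W cz b`). -/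
def St_TSC : Prop :=
  ∀ (K : Type) [Field K] [NumberField K] (Θ W : ℕ), 0 < W →
    (TS K Θ W).card = (2 * (Θ / W) + 1) ^ dg K ∧ (0 : 𝓞 K) ∈ TS K Θ W

/-- [IDR] from RHK.IDC.  PROOF.  Dyadic: the ideals of `S` with `2^j z <= absNorm I < 2^(j+1) z` are at most
`C 2^(j+1) z`, each term is at most `(2^j z)^(-1-1/M)`: the sum is at most
`∑_j 2C (2^j z)^(-1/M) = C' z^(-1/M)`. -/
def St_IDR : Prop :=
  ∀ (K : Type) [Field K] [NumberField K] (M : ℕ), 1 ≤ M → ∃ C : ℝ, 0 < C ∧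
    ∀ (z : ℕ) (S : Finset (Ideal (𝓞 K))), 1 ≤ z → (∀ I ∈ S, z ≤ Ideal.absNorm I) →
      ∑ I ∈ S, (1 / (Ideal.absNorm I : ℝ)) * rp (Ideal.absNorm I) M ≤ C * rp z M

/-- [VDM] the number of the solutions of `w^k = a` modulo an ideal; from CELL, DVN (RHK).
PROOF.  `N = absNorm I`, `M = k(k+1)/2`, `ρ > 0` with `ρ^(r M) = N/2` (`r = dg K >= 1`).  CELL at every place with
`R = U`, `δ = ρ`, applied to `em w`: at most `∏_v (4U/ρ + 1)^mult = (4U/ρ + 1)^r` combinations of cells.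
If one combination contains `k + 1` different solutions `w_0, .., w_k`: the Vandermonde determinant
`det (w_i^j)_(i,j = 0..k) = ∏_(i<j) (w_j - w_i) ≠ 0` (`Matrix.det_vandermonde`) is in `I`, because modulo `I`
its last column is `a` times its first column (`w_i^k = a`, `w_i^0 = 1`); so by DVN
`N <= ∏_v ∏_(i<j) av v (w_j - w_i)^mult <= ∏_v ρ^(M mult) = ρ^(r M) = N/2`: contradiction.  So every
combination has at most `k` solutions: at most `k (4U/ρ + 1)^r <= C (U^r ρ^(-r) + 1)`, `ρ^(-r) = (N/2)^(-1/M)`. -/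
def St_VDM : Prop :=
  ∀ (K : Type) [Field K] [NumberField K] (k : ℕ), 2 ≤ k → ∃ C : ℝ, 0 < C ∧
    ∀ (U : ℕ) (a : 𝓞 K) (I : Ideal (𝓞 K)), 1 ≤ U → I ≠ ⊥ →
      (((pb K (U : ℝ)).filter fun w => w ^ k - a ∈ I).card : ℝ) ≤
        C * ((U : ℝ) ^ dg K * rp (Ideal.absNorm I) (MM k) + 1)

/-- [CMPT].  PROOF.  `∑ c_i x_i = 1` (Prim), `λ = ∑ c_i y_i`.  `y_j - λ x_j = ∑_i c_i (x_i y_j - x_j y_i)` is in
`gI x y`.  So `ev f y - ev f (λ x)` is in `gI x y` (apply the quotient map and `ev_map`), and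
`ev f (λ x) = λ^d ev f x` (`mono_smul`, `Mon.sum_eq`). -/
def St_CMPT : Prop :=
  ∀ (K : Type) [Field K] [NumberField K] (s : ℕ) (x y : Fin s → 𝓞 K), Prim x → ∃ lam : 𝓞 K,
    ∀ (d : ℕ) (f : Mon s d → 𝓞 K), ev f y - lam ^ d * ev f x ∈ gI x y

/-- [NN] compatible pairs of powers; from VDM, CMPT, and `#pb K U <= C U^r` (RHK.IDU, as `EXC_pb` in
RHK/EXC.lean).  PROOF.  For every `w` the `w'` with `Cmp (k m) x y (w^k) (w'^k)` satisfy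
`w'^k - λ^(km) w^k ∈ gI x y`: VDM. -/
def St_NN : Prop :=
  ∀ (K : Type) [Field K] [NumberField K] (s k m : ℕ), 2 ≤ k → ∃ C : ℝ, 0 < C ∧
    ∀ (U : ℕ) (x y : Fin s → 𝓞 K), 1 ≤ U → Prim x → ¬ Par x y →
      (((pb K (U : ℝ) ×ˢ pb K (U : ℝ)).filter fun p => Cmp (k * m) x y (p.1 ^ k) (p.2 ^ k)).card : ℝ) ≤
        C * ((U : ℝ) ^ dg K * ((U : ℝ) ^ dg K * rp (wn x y) (MM k) + 1))

/-- [LL] the same for the local model; from VDM, CMPT, TSC, CMP, IDU (RHK).  The constant does not depend on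
`W`, `Θ`.  PROOF.  `g = gI x y`, `N = wn x y = absNorm g <= (2X^2)^r` (`wn_le_wp`, `wv_le_mul`), `g' = g ⊔ span {W}`,
`N' = absNorm g'`.  Let `Cmp (k m) x y (w^k + u) (w'^k + v)`.  (i) `u`, `v` are divisible by `W`, so
`w'^k - λ^(km) w^k ∈ g'`: for every `w` at most `C (U^r rp N' M + 1)` values of `w'` (VDM).
(ii) For given `w, w', u` two possible `v` differ by an element of `g ⊓ span {W}` (CMPT: both `w'^k + v` are
congruent to `λ^(km) (w^k + u)` modulo `g`) with all absolute values `<= 2CΘ` (CMP), and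
`absNorm (g ⊓ span {W}) * N' = N * W^r` (`Ideal.sup_mul_inf`), which is at most `Θ^r`.  IDU: at most
`C Θ^r N'/(N W^r) <= C' #TS N'/N` values of `v` (`Θ/W <= 2⌊Θ/W⌋ + 1`).
Total: `#pb U * C(U^r rp N' M + 1) * #TS * C #TS N'/N`, and `rp N' M * N'/N <= rp N M`, `N'/N <= 1` as `N' <= N`
(`g ≤ g'`). -/
def St_LL : Prop :=
  ∀ (K : Type) [Field K] [NumberField K] (s k m : ℕ), 2 ≤ k → ∃ C : ℝ, 0 < C ∧
    ∀ (U W Θ X : ℕ) (x y : Fin s → 𝓞 K), 1 ≤ U → 0 < W → 1 ≤ X → 2 * X ^ 2 * W ≤ Θ → Prim x →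
      (∀ v : InfinitePlace K, vs v x ≤ X) → (∀ v : InfinitePlace K, vs v y ≤ X) → ¬ Par x y →
      ((((pb K (U : ℝ) ×ˢ pb K (U : ℝ)) ×ˢ (TS K Θ W ×ˢ TS K Θ W)).filter fun p =>
        Cmp (k * m) x y (p.1.1 ^ k + p.2.1) (p.1.2 ^ k + p.2.2)).card : ℝ) ≤
        C * (((TS K Θ W).card : ℝ) ^ 2 *
          ((U : ℝ) ^ dg K * ((U : ℝ) ^ dg K * rp (wn x y) (MM k) + 1)))

/-! ### The pair sum -/

/-- [CPA] the main groups, `n = s - 1`; from M3, DYB (RHK), IDR.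
PROOF.  As RHK/PS.lean (`PS_term`, `PS_b_mem`, `PS_groups` (a)) with `R = 1`, but with the exponent `n - 1 >= 1`
of `PT B` and the additional factor `rp (wn) M`.  `2^N₀ <= 4X^2`, `I = gI x y`, `2^(b_v-1) < wv v x y <= 2^(b_v)`.
`PT B >= wp >= (X^2)^r/Z >= C Z (X/L)^r >= C absNorm I (X/L)^r` by `C Z^2 <= (X L)^r`.  So M3 (first part): a
group has at most `C PT B^n absNorm I^(-n) X^(-r(n-1))` elements, the term is at most
`2^r absNorm I X^(2r)/PT B * rp (absNorm I) M`.  The sum is at most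
`C X^(2r - r(n-1)) ∑_I absNorm I^(-(n-1)) rp (absNorm I) M ∑_b PT B^(n-1)`
`<= C X^(2r - r(n-1)) (4X^2)^(r(n-1)) = C X^(rs)` by IDR (`z = 1`, `absNorm I^(-(n-1)) <= 1/absNorm I`) and DYB
(`e = n - 1`).  Second sum: `absNorm I > m1`: IDR with `z = m1 + 1`; or `m1 wv < X^2` for some `v`: DYB gives the
factor `C/m1 <= C rp m1 M`. -/
def St_CPA : Prop :=
  ∀ (K : Type) [Field K] [NumberField K] (s M : ℕ), 3 ≤ s → 1 ≤ M → ∃ C : ℝ, 0 < C ∧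
    ∀ (X Y L : ℕ) (Z : ℝ) (x : Fin s → 𝓞 K), 1 ≤ X → 1 ≤ Y → 1 ≤ L → Prim x →
      (∀ v : InfinitePlace K, (X : ℝ) < 2 * vs v x ∧ vs v x ≤ X) → WR x Y →
      (∀ l : Fin s → 𝓞 K, l ≠ 0 → (∀ v : InfinitePlace K, vs v l ≤ (L : ℝ)) → dp l x ≠ 0) →
      1 ≤ Z → C * Z ^ 2 ≤ ((X : ℝ) * L) ^ dg K →
      (∑ y ∈ (bx K s (X : ℝ)).filter (fun y => ¬ Par x y ∧ (wn x y : ℝ) ≤ Z ∧
          ((X : ℝ) ^ 2) ^ dg K ≤ Z * wp x y),
        (wn x y : ℝ) * ((X : ℝ) ^ 2) ^ dg K / wp x y * rp (wn x y) M ≤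
        C * ((X : ℝ) ^ s) ^ dg K) ∧
      ∀ m1 : ℕ, 1 ≤ m1 →
        ∑ y ∈ (bx K s (X : ℝ)).filter (fun y => (¬ Par x y ∧ (wn x y : ℝ) ≤ Z ∧
          ((X : ℝ) ^ 2) ^ dg K ≤ Z * wp x y) ∧
          (m1 < wn x y ∨ ∃ v : InfinitePlace K, m1 * wv v x y < (X : ℝ) ^ 2)),
        (wn x y : ℝ) * ((X : ℝ) ^ 2) ^ dg K / wp x y * rp (wn x y) M ≤
        C * rp m1 M * ((X : ℝ) ^ s) ^ dg K

/-- [CPB] the other groups, with a loss; from M3 (last line), DYB, IDR.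
PROOF.  Groups as in CPA; a group has at most `C ((Y/X)^r PT B/absNorm I)^n` elements (M3, last line), so its
total is at most `C X^(2r) (Y/X)^(rn) absNorm I^(-(n-1)) rp (absNorm I) M PT B^(n-1)`.
`absNorm I > Z`: `∑_I (1/absNorm I) rp (absNorm I) M <= C rp Z M` (IDR with `z = ⌈Z⌉`, `rp` decreasing), DYB:
total `C (X Y)^(rn) rp Z M`.  `Z wp < X^(2r)`: then `PT B <= 2^r wp <= 2^r X^(2r)/Z`, so
`∑_b PT B^(n-1) <= #b * (2^r X^(2r)/Z)^(n-1) <= C (1 + log X)^r X^(2r(n-1))/Z` (the number of the `b` is at most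
`(C (1 + log X))^(#places)`, `PS_b_mem`, `PS_card_places`), `1/Z <= rp Z M`. -/
def St_CPB : Prop :=
  ∀ (K : Type) [Field K] [NumberField K] (s M : ℕ), 3 ≤ s → 1 ≤ M → ∃ C : ℝ, 0 < C ∧
    ∀ (X Y L : ℕ) (Z : ℝ) (x : Fin s → 𝓞 K), 1 ≤ X → 1 ≤ Y → 1 ≤ L → Prim x →
      (∀ v : InfinitePlace K, (X : ℝ) < 2 * vs v x ∧ vs v x ≤ X) → WR x Y →
      (∀ l : Fin s → 𝓞 K, l ≠ 0 → (∀ v : InfinitePlace K, vs v l ≤ (L : ℝ)) → dp l x ≠ 0) →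
      1 ≤ Z →
      ∑ y ∈ (bx K s (X : ℝ)).filter (fun y => ¬ Par x y ∧ (Z < wn x y ∨
          Z * wp x y < ((X : ℝ) ^ 2) ^ dg K)),
        (wn x y : ℝ) * ((X : ℝ) ^ 2) ^ dg K / wp x y * rp (wn x y) M ≤
        C * rp Z M * (1 + Nat.log 2 X) ^ dg K * (((X : ℝ) * Y) ^ (s - 1)) ^ dg K

/-- [CWR] good points are well rounded; from RHK.MINK (or `GX_WR` in RHK/EXG.lean: `CG K s c t = GX K s c t`). -/
def St_CWR : Prop :=
  ∀ (K : Type) [Field K] [NumberField K] (s : ℕ), 2 ≤ s → ∃ C : ℕ, 0 < C ∧ ∀ c t : ℕ, 1 ≤ t →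
    ∀ x ∈ CG K s c t, WR x (C * t ^ (c + 1))

/-- [CPS] the pair sums for a fixed good point; from CPA, CPB, CWR and LTS (RHM/LTS.lean).
PROOF.  `X = t^(cn+1)`, `n = s - 1`, `L = t^c`, `Y = C₁ t^(c+1)` (CWR), `Z = t^ζ`, `ζ = M (r n + r + 1)`,
`c0 = 2 ζ + s + 1`.  `(X Y)^n = C₁^n t^(cn + n) X^n = C₁^n X^s t^(n-1)`, `1 + log X <= C t` (`C` depends on `c`).
`C Z^2 <= (X L)^r` for large `t`.  First sum: CPA + CPB (`CG ⊆ bx`), and CPB is at most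
`C t^(-(rn + r + 1)) t^r X^(rs) t^(r(n-1)) <= (C/t) X^(rs)`.  Second: the same with `m1`.
Third: LTS with `R = 1`: `<= C (X^s t^(n-1))^r C t <= C (t^s)^r (X^s)^r`. -/
def St_CPS : Prop :=
  ∀ (K : Type) [Field K] [NumberField K] (s M : ℕ), 3 ≤ s → 1 ≤ M → ∃ c0 : ℕ, ∀ c ≥ c0,
    ∃ C : ℝ, 0 < C ∧ ∃ t0 : ℕ, ∀ t ≥ t0, ∀ x ∈ CG K s c t,
      (∑ y ∈ (CG K s c t).filter (fun y => ¬ Par x y),
        (wn x y : ℝ) * ((XC s c t : ℝ) ^ 2) ^ dg K / wp x y * rp (wn x y) M ≤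
        C * ((XC s c t : ℝ) ^ s) ^ dg K) ∧
      (∀ m1 : ℕ, 1 ≤ m1 →
        ∑ y ∈ (CG K s c t).filter (fun y => ¬ Par x y ∧ ¬ TyC c t m1 x y),
        (wn x y : ℝ) * ((XC s c t : ℝ) ^ 2) ^ dg K / wp x y * rp (wn x y) M ≤
        C * (rp m1 M + 1 / t) * ((XC s c t : ℝ) ^ s) ^ dg K) ∧
      (∑ y ∈ (CG K s c t).filter (fun y => ¬ Par x y),
        (wn x y : ℝ) * ((XC s c t : ℝ) ^ 2) ^ dg K / wp x y ≤
        C * ((t : ℝ) ^ s) ^ dg K * ((XC s c t : ℝ) ^ s) ^ dg K)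

/-- [CSUM] the sums over pairs; from CPS, PBC (RHM/PBC.lean).  PROOF.  `#CG <= #bx <= C X^(rs)` (PBC), and
`wtC = om rp + om/U^r`, `om = wn X^(2r)/wp`.  `U = A X^m V >= X = t^(cn+1) >= t^(s+1)` for `c0 >= s + 1`
(`V >= t^v >= 1`, `A >= 1`, `m >= 1`), so by the third part of CPS the sum of `om/U^r` is at most
`C (t^s)^r X^(2rs)/U^r <= (C/t) X^(2rs)`. -/
def St_CSUM : Prop :=
  ∀ (K : Type) [Field K] [NumberField K] (s k m A : ℕ), CHyp s k m → 1 ≤ A → ∃ c0 : ℕ, ∀ c ≥ c0,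
    ∀ v : ℕ, ∃ C : ℝ, 0 < C ∧ ∃ t0 : ℕ, ∀ t ≥ t0, ∀ V H : ℕ, CR k v t V H →
    (∑ p ∈ (CG K s c t ×ˢ CG K s c t).filter (fun p => ¬ Par p.1 p.2),
      wtC c t (UC s m A c t V) (MM k) p.1 p.2 ≤ C * (((XC s c t : ℝ) ^ s) ^ dg K) ^ 2) ∧
    ∀ m1 : ℕ, 1 ≤ m1 →
      ∑ p ∈ (CG K s c t ×ˢ CG K s c t).filter (fun p => ¬ Par p.1 p.2 ∧ ¬ TyC c t m1 p.1 p.2),
      wtC c t (UC s m A c t V) (MM k) p.1 p.2 ≤
        C * (rp m1 (MM k) + 1 / t) * (((XC s c t : ℝ) ^ s) ^ dg K) ^ 2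

/-! ### Counting forms -/

/-- [CB] all pairs are regular, counting forms with given values; from T1, T2, COV1, COV2 (RHK), CWR.
`d = k m >= 2`.  PROOF.  `Y = C t^(c+1)` (CWR), `ρ = H/t`: `Cv1 d x (C Y)`, `Cv2 d x y (C Y^2)`,
`C Y^2 = C' t^(2c+2) <= H/t` for large `t` as `H >= V^k >= t^(kv)`, `k v >= 2c + 4`.  T1 and T2 at the height
`3H` with `ρ = H/t`; `#box (3H) <= C #box H` (`T2_box` in RHK/T2.lean), and for the second line multiply with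
`(X^2)^r`. -/
def St_CB : Prop :=
  ∀ (K : Type) [Field K] [NumberField K] (s k m : ℕ), CHyp s k m → ∃ C : ℝ, 0 < C ∧
    ∀ c v : ℕ, CPar s k m c v → ∃ t0 : ℕ, ∀ t ≥ t0, ∀ V H : ℕ, CR k v t V H → ∀ x ∈ CG K s c t,
      (∀ a : 𝓞 K, (c1 (d := k * m) (3 * H) x a : ℝ) *
        ((H : ℝ) * (XC s c t : ℝ) ^ (k * m)) ^ dg K ≤ C * (box K s (k * m) H).card) ∧
      ∀ y ∈ CG K s c t, ¬ Par x y → Cv2 (k * m) x y ((H : ℝ) / t) ∧ ∀ a b : 𝓞 K,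
        (c2 (d := k * m) (3 * H) x y a b : ℝ) *
          ((((H : ℝ) * (XC s c t : ℝ) ^ (k * m)) ^ dg K) ^ 2 * wp x y) ≤
        C * (wn x y * ((XC s c t : ℝ) ^ 2) ^ dg K) * (box K s (k * m) H).card

/-- [CTR] translations for typical pairs; from RF2, GCD, CMP (RHK).  PROOF.  The second half of RHK/TYP.lean
(`thm_TYP`, the integral form `a * h + f0 + lam` and the estimate `hsz` of its coordinates). -/
def St_CTR : Prop :=
  ∀ (K : Type) [Field K] [NumberField K] (s d : ℕ), 2 ≤ d → ∃ C : ℕ, 0 < C ∧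
    ∀ (X H κ W m1 k : ℕ) (ρ : ℝ) (x y : Fin s → 𝓞 K), 1 ≤ X → Prim x → Prim y →
      (∀ v : InfinitePlace K, (X : ℝ) < 2 * vs v x ∧ vs v x ≤ X) →
      (∀ v : InfinitePlace K, (X : ℝ) < 2 * vs v y ∧ vs v y ≤ X) →
      ¬ Par x y → Cv2 d x y ρ → 0 ≤ ρ → (W : 𝓞 K) ∈ gI x y →
      (∀ v : InfinitePlace K, (X : ℝ) ^ 2 ≤ m1 * wv v x y) → 1 ≤ k → C * m1 * k ≤ κ →
      (C : ℝ) * k * ρ ≤ H →
      ∀ a b : 𝓞 K, (W : 𝓞 K) ∣ a → (W : 𝓞 K) ∣ b → cz a * κ ≤ H * X ^ d → cz b * κ ≤ H * X ^ d →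
      ∃ z : Mon s d → 𝓞 K, ev z x = a ∧ ev z y = b ∧ ∀ μ, cz (z μ) * k ≤ H

/-- [PHI] the weight.  PROOF.  `f ∈ box H` iff `fm f <= H`.  First and second: clear (`H >= 1`).  Third:
`Ph <= 2` and monotonicity of the boxes.  Fourth: the `f` with `f(x) = a + u`, `f(y) = b + w` are the `f0 + z`
with `f0(x) = a`, `f0(y) = b`; both sums can be extended to the `f0` in `box (3H)` (`Ph = 0` outside of
`box (2H)`, `fm (f0 + z) <= fm f0 + H`, `fm f0 <= fm (f0 + z) + H`), and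
`|Ph (f0 + z) - Ph f0| <= |fm (f0 + z) - fm f0|/H <= 1/k`. -/
def St_PHI : Prop :=
  ∀ (K : Type) [Field K] [NumberField K] (s d H : ℕ), 1 ≤ H →
    (∀ f ∈ box K s d H, 1 ≤ Ph H f) ∧ (∀ f : Mon s d → 𝓞 K, 0 ≤ Ph H f ∧ Ph H f ≤ 2) ∧
    (∀ (x y : Fin s → 𝓞 K) (a b : 𝓞 K), 0 ≤ cP d H x y a b ∧
      cP d H x y a b ≤ 2 * (c2 (d := d) (3 * H) x y a b : ℝ)) ∧
    ∀ (x y : Fin s → 𝓞 K) (a b u w : 𝓞 K) (z : Mon s d → 𝓞 K) (k : ℕ), 1 ≤ k → ev z x = u →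
      ev z y = w → (∀ μ, cz (z μ) * k ≤ H) →
      |cP d H x y (a + u) (b + w) - cP d H x y a b| ≤ 1 / k * (c2 (d := d) (3 * H) x y a b : ℝ)

/-- [DLT] sums of the indicators and their local models.  PROOF.  `S` = `box (2H)`.  `lmt Θ W a x f` is
`1/#TS` times the number (0 or 1) of the `u` in `TS` with `f(x) = a + u`, i.e. `(1/#TS) ∑_(u ∈ TS) dlt (a+u) x f`.
First and second: exchange the sums.  Third: the mixed sums are `(1/#TS) ∑_v cP a (b+v)` and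
`(1/#TS) ∑_u cP (a+u) b`; all four terms are averages over `(u,v)` of values within `β` of `cP a b`
(`0 ∈ TS`), so the alternating sum is at most `4β`. -/
def St_DLT : Prop :=
  ∀ (K : Type) [Field K] [NumberField K] (s d H Θ W : ℕ) (x y : Fin s → 𝓞 K) (a b : 𝓞 K), 0 < W →
    (∑ f ∈ box K s d (2 * H), Ph H f * (dlt a x f * dlt b y f) = cP d H x y a b) ∧
    (∑ f ∈ box K s d (2 * H), Ph H f * (lmt Θ W a x f * lmt Θ W b y f) =
      1 / ((TS K Θ W).card : ℝ) ^ 2 * ∑ q ∈ TS K Θ W ×ˢ TS K Θ W, cP d H x y (a + q.1) (b + q.2)) ∧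
    ∀ β : ℝ, (∀ u ∈ TS K Θ W, ∀ v ∈ TS K Θ W,
        |cP d H x y (a + u) (b + v) - cP d H x y a b| ≤ β) →
      ∑ f ∈ box K s d (2 * H),
        Ph H f * ((dlt a x f - lmt Θ W a x f) * (dlt b y f - lmt Θ W b y f)) ≤ 4 * β

/-! ### The second moment -/

/-- [ABSC] finite sums.  PROOF.  Expand the square into the sum over `(x,y)` in `G × G` and `(w,w')` in `B × B`
of `Φ F (δ x w F - λ x w F)(δ y w' F - λ y w' F)`; for the pairs with `Ty` use the hypothesis, for the others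
`(δ - λ)(δ' - λ') <= δ δ' + λ λ'`. -/
def St_ABSC : Prop :=
  ∀ (Ω P Q : Type) (S : Finset Ω) (Φ : Ω → ℝ) (G : Finset P) (B : Finset Q) (δ lam : P → Q → Ω → ℝ)
    (Ty : P → P → Prop) (b : P → P → ℝ), (∀ F ∈ S, 0 ≤ Φ F) →
    (∀ x w F, 0 ≤ δ x w F ∧ 0 ≤ lam x w F) →
    (∀ x ∈ G, ∀ y ∈ G, Ty x y → ∀ w ∈ B, ∀ w' ∈ B,
      ∑ F ∈ S, Φ F * ((δ x w F - lam x w F) * (δ y w' F - lam y w' F)) ≤ b x y) →
    ∑ F ∈ S, Φ F * (∑ x ∈ G, ∑ w ∈ B, (δ x w F - lam x w F)) ^ 2 ≤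
      ∑ p ∈ (G ×ˢ G).filter (fun p => Ty p.1 p.2), (B.card : ℝ) ^ 2 * b p.1 p.2 +
      ∑ p ∈ (G ×ˢ G).filter (fun p => ¬ Ty p.1 p.2), ∑ q ∈ B ×ˢ B,
        (∑ F ∈ S, Φ F * (δ p.1 q.1 F * δ p.2 q.2 F) +
          ∑ F ∈ S, Φ F * (lam p.1 q.1 F * lam p.2 q.2 F))

/-- [CTYP] typical pairs; from CTR, CB, PHI, DLT.  PROOF.  Given `k'` and `m1`, `κ = C m1 k'` with `C` of CTR.
`wn x y` divides `W` and is in `gI x y` (`Ideal.absNorm_mem`), so `W ∈ gI x y`.  For `u`, `v` in `TS K Θ W`: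
`W | u, v`, `cz u <= Θ = ⌊H X^d/κ⌋`; CTR with `ρ = H/t` (`C k' H/t <= H` for `t >= C k'`) gives `z`; PHI (fourth)
and CB: `|cP (a+u) (b+v) - cP a b| <= (1/k') c2 (3H) a b`, and `X^(2r) <= m1^r wp` (`X^2 <= m1 wv`), so
`c2 (3H) a b <= C m1^(r+1) #box/((H X^d)^r)^2`.  DLT. -/
def St_CTYP : Prop :=
  ∀ (K : Type) [Field K] [NumberField K] (s k m : ℕ), CHyp s k m → ∃ C : ℝ, 0 < C ∧
    ∀ (c v k' m1 : ℕ), CPar s k m c v → 1 ≤ k' → 1 ≤ m1 → ∃ κ : ℕ, 0 < κ ∧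
    ∀ W : ℕ, 0 < W → (∀ g, 1 ≤ g → g ≤ m1 → g ∣ W) → ∃ t0 : ℕ, ∀ t ≥ t0, ∀ V H : ℕ, CR k v t V H →
    ∀ x ∈ CG K s c t, ∀ y ∈ CG K s c t, ¬ Par x y → TyC c t m1 x y → ∀ a b : 𝓞 K,
      ∑ f ∈ box K s (k * m) (2 * H),
        Ph H f * ((dlt a x f - lmt (ThC s c t H κ (k * m)) W a x f) *
          (dlt b y f - lmt (ThC s c t H κ (k * m)) W b y f)) ≤
      C / k' * (m1 : ℝ) ^ (dg K + 1) / (((H : ℝ) * (XC s c t : ℝ) ^ (k * m)) ^ dg K) ^ 2 *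
        (box K s (k * m) H).card

/-- [CNT] the other pairs which are not parallel; from CB, PHI, DLT, NN, LL.  PROOF.  By DLT the two sums are
`cP (w^k) (w'^k)` and the average of `cP (w^k + u) (w'^k + v)`; `cP = 0` if not `Cmp`, and
`cP <= 2 c2 (3H) <= 2 C wn X^(2r)/wp #box/((H X^d)^r)^2` (PHI, CB).  NN and LL (`2X^2 W <= Θ` for large `t`:
`H X^d/κ >= 2 W X^2 + 1`, `d >= 2`, `H >= t`), and `U^r (U^r rp + 1) = U^(2r) (rp + 1/U^r)`. -/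
def St_CNT : Prop :=
  ∀ (K : Type) [Field K] [NumberField K] (s k m A : ℕ), CHyp s k m → 1 ≤ A → ∃ C : ℝ, 0 < C ∧
    ∀ (c v κ W : ℕ), CPar s k m c v → 0 < κ → 0 < W → ∃ t0 : ℕ, ∀ t ≥ t0, ∀ V H : ℕ,
    CR k v t V H → ∀ x ∈ CG K s c t, ∀ y ∈ CG K s c t, ¬ Par x y →
      ∑ q ∈ pb K ((UC s m A c t V : ℕ) : ℝ) ×ˢ pb K ((UC s m A c t V : ℕ) : ℝ),
        (∑ f ∈ box K s (k * m) (2 * H), Ph H f * (dlt (q.1 ^ k) x f * dlt (q.2 ^ k) y f) +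
        ∑ f ∈ box K s (k * m) (2 * H), Ph H f *
          (lmt (ThC s c t H κ (k * m)) W (q.1 ^ k) x f * lmt (ThC s c t H κ (k * m)) W (q.2 ^ k) y f)) ≤
      C * wtC c t (UC s m A c t V) (MM k) x y * (((UC s m A c t V : ℕ) : ℝ) ^ dg K) ^ 2 /
        (((H : ℝ) * (XC s c t : ℝ) ^ (k * m)) ^ dg K) ^ 2 * (box K s (k * m) H).card

/-- [CEXP].  PROOF.  `EC = (X^ι V/H)^r`, `ι = s - m(k-1) >= 1` (`km + ι = s + m`), `H <= (V+1)^k <= 2^k V^k`, so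
`V/H >= 1/(2^k V^(k-1)) >= 1/(2^k (2t)^(v(k-1)))` and `X^ι >= t^(v(k-1)+1)` by `CPar.hE`. -/
def St_CEXP : Prop :=
  ∀ (K : Type) [Field K] [NumberField K] (s k m c v : ℕ), CHyp s k m → CPar s k m c v →
    ∃ C : ℝ, 0 < C ∧ ∀ t : ℕ, 1 ≤ t → ∀ V H : ℕ, CR k v t V H →
      (t : ℝ) ≤ C * EC (dg K) s k m c t V H

/-- [CPARL] parallel pairs; from CB, PHI, DLT, TSC, PAR (RHK), PBC (RHM), IDU.
PROOF.  For every `x` at most `C` points `y` (PAR), `y = u x` with a unit `u` (`∑ c_i x_i = 1`, `u = ∑ c_i y_i`,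
and `y` is primitive), so `ev f y = u^d ev f x`: `cP a b = 0` unless `b = u^d a`, and then
`cP a b <= 2 c1 (3H) x a <= C #box/(H X^d)^r` (CB).
First sum: for every `w` at most `k` elements `w'` with `w'^k = u^d w^k` (`Polynomial.nthRoots`), total
`<= C #CG U^r k #box/(H X^d)^r <= C EC #box` (PBC, `#pb U <= C U^r`, `U = A X^m V`).
Second sum: for every `w, w', u'` at most one `v`: total `<= C #CG U^(2r)/#TS #box/(H X^d)^r`, and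
`#TS >= (Θ/W)^r >= (H X^d/(2 κ W))^r >= U^r` for large `t`, because `U^k = A^k X^(km) V^k <= A^k H X^d` and
`k >= 2`, `U → ∞`. -/
def St_CPARL : Prop :=
  ∀ (K : Type) [Field K] [NumberField K] (s k m A : ℕ), CHyp s k m → 1 ≤ A → ∃ C : ℝ, 0 < C ∧
    ∀ (c v κ W : ℕ), CPar s k m c v → 0 < κ → 0 < W → ∃ t0 : ℕ, ∀ t ≥ t0, ∀ V H : ℕ,
    CR k v t V H →
      ∑ p ∈ (CG K s c t ×ˢ CG K s c t).filter (fun p => Par p.1 p.2),
      ∑ q ∈ pb K ((UC s m A c t V : ℕ) : ℝ) ×ˢ pb K ((UC s m A c t V : ℕ) : ℝ),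
        (∑ f ∈ box K s (k * m) (2 * H), Ph H f * (dlt (q.1 ^ k) p.1 f * dlt (q.2 ^ k) p.2 f) +
        ∑ f ∈ box K s (k * m) (2 * H), Ph H f *
          (lmt (ThC s c t H κ (k * m)) W (q.1 ^ k) p.1 f *
            lmt (ThC s c t H κ (k * m)) W (q.2 ^ k) p.2 f)) ≤
      C * EC (dg K) s k m c t V H * (box K s (k * m) H).card

/-- [CSM] the second moment; from ABSC, CTYP, CNT, CPARL, CSUM, CEXP, PHI, TSC, PBC (RHM), IDU.
PROOF.  `ε`; `m1` with `C rp m1 M <= ε/8`, then `k'` with `(C/k') m1^(r+1) <= ε/8`, `κ` from CTYP, then `W`, `t0`.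
`NC - NLC = ∑_x ∑_w (dlt (w^k) x f - lmt Θ W (w^k) x f)` (TSC: `#TS = TC`).  The sum over `box H` of its square is
at most the sum over `box (2H)` with the weight `Ph` (PHI).  ABSC with `Ty x y = (¬ Par x y ∧ TyC c t m1 x y)`.
Typical pairs: `(C U^r)^2 (C X^(rs))^2 (C/k') m1^(r+1)/((H X^d)^r)^2 #box = C' (1/k') m1^(r+1) EC^2 #box`.
Not typical, not parallel: CNT, CSUM: `C (rp m1 M + 1/t) EC^2 #box`.  Parallel: CPARL, CEXP: `(C/t) EC^2 #box`.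
(`(X^s U)^r/(H X^d)^r = A^r EC`.)  The constants depend on `K, s, k, m, A, c, v`, not on `ε, m1, k', κ, W`. -/
def St_CSM : Prop :=
  ∀ (K : Type) [Field K] [NumberField K] (s k m A : ℕ), CHyp s k m → 1 ≤ A → ∃ c0 : ℕ,
    ∀ c ≥ c0, ∀ v : ℕ, CPar s k m c v → SMC K s k m A c v

end Pool.Agent.RHC
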