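import Pool.Agent.RHC.StA

/-!
RHC, module LL: compatible pairs for the local model (helper29).
-/

set_option autoImplicit false

namespace Pool.Agent.RHC

open scoped BigOperators
open Classical NumberField IsDedekindDomain
open Pool.Agent.RHP (Mon mono ev Prim)
open Pool.Agent.RHK

/-- the number of the integers of bounded absolute value (as RHK/EXC.lean) -/
theorem LL_pb (hI : St_IDU) (K : Type) [Field K] [NumberField K] : ∃ C : ℝ, 0 < C ∧ ∀ T : ℝ,
    1 ≤ T → ((pb K T).card : ℝ) ≤ C * T ^ dg K := by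
  obtain ⟨C, hC, h⟩ := hI K
  refine ⟨C, hC, fun T hT => ?_⟩
  have h1 := h ⊤ (fun _ => T) (fun _ => by linarith) bot_ne_top.symm (by
    rw [Ideal.absNorm_top, Nat.cast_one]
    unfold PT
    rw [prod_pow_mult]
    exact one_le_pow₀ hT)
  unfold PT at h1
  rw [Ideal.absNorm_top, Nat.cast_one, mul_one, prod_pow_mult] at h1
  refine le_trans ?_ h1
  rw [Nat.cast_le]
  refine Finset.card_le_card fun a ha => ?_
  rw [Finset.mem_filter, mem_pT]
  exact ⟨mem_pb.1 ha, Submodule.mem_top⟩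

theorem LL_rp {M : ℕ} (hM : 1 ≤ M) {a b : ℝ} (ha : 0 < a) (hab : a ≤ b) :
    rp a M * a ≤ rp b M * b := by
  have hb := ha.trans_le hab
  unfold rp
  rw [← Real.rpow_add_one ha.ne', ← Real.rpow_add_one hb.ne']
  apply Real.rpow_le_rpow ha.le hab
  have h1 : (1 : ℝ) ≤ M := by exact_mod_cast hM
  have h2 : 1 / (M : ℝ) ≤ 1 := by
    rw [div_le_one (by linarith)]
    exact h1
  rw [neg_div]
  linarith

theorem LL_card {α β : Type} [DecidableEq β] (s : Finset α) (t : Finset β) (f : α → β) (Hf : ∀ a ∈ s, f a ∈ t)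
    (n : ℝ) (hn : ∀ b ∈ t, ((s.filter fun a => f a = b).card : ℝ) ≤ n) :
    (s.card : ℝ) ≤ t.card * n := by
  rw [Finset.card_eq_sum_card_fiberwise Hf]
  push_cast
  calc ∑ b ∈ t, ((s.filter fun a => f a = b).card : ℝ) ≤ ∑ _b ∈ t, n := Finset.sum_le_sum hn
    _ = t.card * n := by rw [Finset.sum_const, nsmul_eq_mul]

theorem thm_LL (hV : St_VDM) (hT : St_CMPT) (hTS : St_TSC) (hC : St_CMP) (hI : St_IDU) :
    St_LL := by
  intro K _ _ s k m hk
  obtain ⟨C1, hC1, hV⟩ := hV K k hk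
  obtain ⟨C4, hC4, hpb⟩ := LL_pb hI K
  obtain ⟨C2, hC2, hI2⟩ := hI K
  obtain ⟨C3, hC3, hcmp, -⟩ := hC K
  have hC3' : (1 : ℝ) ≤ C3 := by exact_mod_cast hC3
  refine ⟨C4 * C1 * C2 * (2 * C3) ^ dg K, by positivity, ?_⟩
  intro U W Θ X x y hU hW hX hΘ hx hvx hvy hpar
  obtain ⟨lam, hlam⟩ := hT K s x y hx
  have hU' : (1 : ℝ) ≤ U := by exact_mod_cast hU
  have hW' : (1 : ℝ) ≤ W := by exact_mod_cast hW
  have hX' : (1 : ℝ) ≤ X := by exact_mod_cast hX
  have hΘ' : 2 * (X : ℝ) ^ 2 * W ≤ Θ := by exact_mod_cast hΘ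
  have hΘ1 : (1 : ℝ) ≤ Θ := by nlinarith [one_le_pow₀ hX' (n := 2)]
  have hN0 : 0 < wn x y := wn_pos hpar
  set J : Ideal (𝓞 K) := Ideal.span {(W : 𝓞 K)} with hJ
  set N' : ℕ := Ideal.absNorm (gI x y ⊔ J) with hN'
  have hg' : gI x y ⊔ J ≠ ⊥ := by
    intro h
    apply gI_ne_bot hpar
    rw [eq_bot_iff, ← h]
    exact le_sup_left
  have hN'0 : 0 < N' := Nat.pos_of_ne_zero fun h' => hg' (Ideal.absNorm_eq_zero_iff.1 h')
  have hN'N : N' ≤ wn x y :=
    Nat.le_of_dvd hN0 (Ideal.absNorm_dvd_absNorm_of_le le_sup_left)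
  set D' : ℕ := Ideal.absNorm (gI x y ⊓ J) with hD'
  have hmul : N' * D' = wn x y * W ^ dg K := by
    have h1 := congrArg Ideal.absNorm (Ideal.sup_mul_inf (gI x y) J)
    rw [map_mul, map_mul] at h1
    rw [hN', hD', h1, hJ, Ideal.absNorm_span_natCast, RingOfIntegers.rank]
    rfl
  have hD'0 : 0 < D' := by
    rcases Nat.eq_zero_or_pos D' with h | h
    · rw [h, mul_zero] at hmul
      have : 0 < wn x y * W ^ dg K := by positivity
      omega
    · exact h
  have hinf : gI x y ⊓ J ≠ ⊥ := by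
    intro h
    rw [hD', h, Ideal.absNorm_bot] at hD'0
    exact absurd hD'0 (lt_irrefl 0)
  -- sizes as real numbers
  have hNr : (0 : ℝ) < wn x y := by exact_mod_cast hN0
  have hN'r : (0 : ℝ) < N' := by exact_mod_cast hN'0
  have hN'1 : (1 : ℝ) ≤ N' := by exact_mod_cast hN'0
  have hD'r : (0 : ℝ) < D' := by exact_mod_cast hD'0
  have hN'Nr : (N' : ℝ) ≤ wn x y := by exact_mod_cast hN'N
  have hmulr : (N' : ℝ) * D' = wn x y * (W : ℝ) ^ dg K := by exact_mod_cast hmul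
  -- `T`
  set T : ℝ := ((TS K Θ W).card : ℝ) with hTdef
  have hT1 : (Θ : ℝ) ^ dg K ≤ T * (W : ℝ) ^ dg K := by
    rw [hTdef, (hTS K Θ W hW).1]
    push_cast
    rw [← mul_pow]
    apply pow_le_pow_left₀ (by positivity)
    have h1 : Θ < W * (Θ / W) + W := by
      have h2 := Nat.div_add_mod Θ W
      have h3 := Nat.mod_lt Θ hW
      omega
    have h2 : (Θ : ℝ) ≤ W * ((Θ / W : ℕ) : ℝ) + W := by exact_mod_cast h1.le
    have h3 : (0 : ℝ) ≤ W * ((Θ / W : ℕ) : ℝ) := by positivity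
    have h4 : (2 * ((Θ / W : ℕ) : ℝ) + 1) * W = 2 * (W * ((Θ / W : ℕ) : ℝ)) + W := by ring
    rw [h4]
    linarith
  have hT0 : 0 ≤ T := by positivity
  -- the pairs `(w, w')`
  set P : Finset (𝓞 K × 𝓞 K) := (pb K (U : ℝ) ×ˢ pb K (U : ℝ)).filter fun p =>
    p.2 ^ k - lam ^ (k * m) * p.1 ^ k ∈ gI x y ⊔ J with hP
  have hrp : 0 ≤ rp N' (MM k) := by unfold rp; positivity
  have hPcard : (P.card : ℝ) ≤ (C4 * (U : ℝ) ^ dg K) *
      (C1 * ((U : ℝ) ^ dg K * rp N' (MM k) + 1)) := by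
    refine (LL_card P (pb K (U : ℝ)) Prod.fst ?_ (C1 * ((U : ℝ) ^ dg K * rp N' (MM k) + 1))
      ?_).trans ?_
    · intro p hp
      exact (Finset.mem_product.1 (Finset.mem_filter.1 hp).1).1
    · intro w _
      refine le_trans ?_ (hV U (lam ^ (k * m) * w ^ k) (gI x y ⊔ J) hU hg')
      rw [Nat.cast_le]
      refine Finset.card_le_card_of_injOn Prod.snd ?_ ?_
      · rintro ⟨w1, w2⟩ hp
        rw [Finset.mem_coe, Finset.mem_filter, hP, Finset.mem_filter, Finset.mem_product] at hp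
        obtain ⟨⟨⟨h1, h2⟩, h3⟩, h4⟩ := hp
        simp only at h1 h2 h3 h4
        subst h4
        rw [Finset.mem_coe, Finset.mem_filter]
        exact ⟨h2, h3⟩
      · rintro ⟨w1, w2⟩ hp ⟨w3, w4⟩ hp' h
        rw [Finset.mem_coe, Finset.mem_filter] at hp hp'
        have h1 : w1 = w := hp.2
        have h2 : w3 = w := hp'.2
        have h3 : w2 = w4 := h
        rw [h1, h2, h3]
    · exact mul_le_mul_of_nonneg_right (hpb U hU') (by positivity)
  -- the bound for the number of the `v`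
  have hPT : PT (fun _ : InfinitePlace K => 2 * (C3 : ℝ) * Θ) = (2 * (C3 : ℝ) * Θ) ^ dg K := by
    unfold PT
    rw [prod_pow_mult]
  have hwn : (wn x y : ℝ) ≤ (2 * (X : ℝ) ^ 2) ^ dg K := by
    refine (wn_le_wp hpar).trans ?_
    rw [← prod_pow_mult (K := K)]
    refine Finset.prod_le_prod (fun v _ => pow_nonneg (wv_nonneg v x y) _) fun v _ =>
      pow_le_pow_left₀ (wv_nonneg v x y) ?_ _
    refine (wv_le_mul v x y).trans ?_
    have := mul_le_mul (hvx v) (hvy v) (vs_nonneg v y) (by positivity)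
    rw [sq]
    linarith
  have hDle : (D' : ℝ) ≤ PT (fun _ : InfinitePlace K => 2 * (C3 : ℝ) * Θ) := by
    rw [hPT]
    have h1 : (D' : ℝ) ≤ wn x y * (W : ℝ) ^ dg K := by
      rw [← hmulr]
      exact le_mul_of_one_le_left hD'r.le hN'1
    refine h1.trans ?_
    calc (wn x y : ℝ) * (W : ℝ) ^ dg K ≤ (2 * (X : ℝ) ^ 2) ^ dg K * (W : ℝ) ^ dg K :=
          mul_le_mul_of_nonneg_right hwn (by positivity)
      _ = (2 * (X : ℝ) ^ 2 * W) ^ dg K := (mul_pow _ _ _).symm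
      _ ≤ (2 * (C3 : ℝ) * Θ) ^ dg K := by
          apply pow_le_pow_left₀ (by positivity)
          have h5 := mul_le_mul_of_nonneg_right hC3' (show (0 : ℝ) ≤ Θ by linarith)
          linarith
  have hIDU := hI2 (gI x y ⊓ J) (fun _ => 2 * (C3 : ℝ) * Θ) (fun _ => by positivity) hinf hDle
  rw [hPT] at hIDU
  set V : Finset (𝓞 K) := (pT fun _ : InfinitePlace K => 2 * (C3 : ℝ) * Θ).filter
    fun a => a ∈ gI x y ⊓ J with hVdef
  set A := (((pb K (U : ℝ) ×ˢ pb K (U : ℝ)) ×ˢ (TS K Θ W ×ˢ TS K Θ W)).filter fun p =>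
        Cmp (k * m) x y (p.1.1 ^ k + p.2.1) (p.1.2 ^ k + p.2.2)) with hA
  have hTSm : ∀ a ∈ TS K Θ W, cz a ≤ Θ ∧ (W : 𝓞 K) ∣ a := by
    intro a ha
    unfold TS at ha
    rw [Finset.mem_filter, mem_cb] at ha
    exact ha
  have hJm : ∀ a : 𝓞 K, (W : 𝓞 K) ∣ a → a ∈ J := fun a ha => Ideal.mem_span_singleton.2 ha
  have hAcard : (A.card : ℝ) ≤ (P.card * T) * (V.card : ℝ) := by
    have h0 := LL_card A (P ×ˢ TS K Θ W) (fun q => (q.1, q.2.1)) ?_ (V.card : ℝ) ?_
    · rw [Finset.card_product] at h0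
      push_cast at h0
      exact h0
    · rintro ⟨⟨w, w'⟩, ⟨u, v⟩⟩ hq
      rw [hA, Finset.mem_filter, Finset.mem_product, Finset.mem_product, Finset.mem_product] at hq
      obtain ⟨⟨⟨h1, h2⟩, h3, h4⟩, f, h5, h6⟩ := hq
      simp only at h1 h2 h3 h4 h5 h6
      rw [Finset.mem_product, hP, Finset.mem_filter, Finset.mem_product]
      refine ⟨⟨⟨h1, h2⟩, ?_⟩, h3⟩
      have h7 := hlam (k * m) f
      rw [h5, h6] at h7
      have h8 : w' ^ k - lam ^ (k * m) * w ^ k =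
          (w' ^ k + v - lam ^ (k * m) * (w ^ k + u)) + (lam ^ (k * m) * u - v) := by ring
      simp only
      rw [h8]
      refine add_mem (Ideal.mem_sup_left h7) (Ideal.mem_sup_right ?_)
      exact sub_mem (Ideal.mul_mem_left _ _ (hJm u (hTSm u h3).2)) (hJm v (hTSm v h4).2)
    · rintro ⟨⟨w, w'⟩, u⟩ _
      rw [Nat.cast_le]
      rcases (A.filter fun q => (q.1, q.2.1) = ((w, w'), u)).eq_empty_or_nonempty with h | ⟨q0, hq0⟩
      · rw [h]
        exact Nat.zero_le _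
      · have key : ∀ q ∈ A.filter fun q => (q.1, q.2.1) = ((w, w'), u),
            q = ((w, w'), (u, q.2.2)) ∧ q.2.2 ∈ TS K Θ W ∧
              w' ^ k + q.2.2 - lam ^ (k * m) * (w ^ k + u) ∈ gI x y := by
          rintro ⟨⟨w1, w1'⟩, ⟨u1, v1⟩⟩ hq
          rw [Finset.mem_filter, hA, Finset.mem_filter, Finset.mem_product, Finset.mem_product,
            Finset.mem_product] at hq
          obtain ⟨⟨⟨⟨h1, h2⟩, h3, h4⟩, f, h5, h6⟩, h7⟩ := hq
          simp only [Prod.mk.injEq] at h7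
          obtain ⟨⟨rfl, rfl⟩, rfl⟩ := h7
          simp only at h1 h2 h3 h4 h5 h6
          refine ⟨rfl, h4, ?_⟩
          have h7 := hlam (k * m) f
          rw [h5, h6] at h7
          exact h7
        obtain ⟨-, k2, k3⟩ := key q0 hq0
        refine Finset.card_le_card_of_injOn (fun q => q.2.2 - q0.2.2) ?_ ?_
        · intro q hq
          obtain ⟨-, l2, l3⟩ := key q (Finset.mem_coe.1 hq)
          rw [Finset.mem_coe, hVdef, Finset.mem_filter, mem_pT]
          refine ⟨fun v => ?_, ?_, ?_⟩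
          · refine (av_sub_le v _ _).trans ?_
            have e1 := hcmp q.2.2 v
            have e2 := hcmp q0.2.2 v
            have e3 : ((cz q.2.2 : ℕ) : ℝ) ≤ Θ := by exact_mod_cast (hTSm _ l2).1
            have e4 : ((cz q0.2.2 : ℕ) : ℝ) ≤ Θ := by exact_mod_cast (hTSm _ k2).1
            have e5 := mul_le_mul_of_nonneg_left e3 (show (0 : ℝ) ≤ C3 by positivity)
            have e6 := mul_le_mul_of_nonneg_left e4 (show (0 : ℝ) ≤ C3 by positivity)
            linarith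
          · have h8 : q.2.2 - q0.2.2 = (w' ^ k + q.2.2 - lam ^ (k * m) * (w ^ k + u)) -
                (w' ^ k + q0.2.2 - lam ^ (k * m) * (w ^ k + u)) := by ring
            show q.2.2 - q0.2.2 ∈ gI x y
            rw [h8]
            exact sub_mem l3 k3
          · exact sub_mem (hJm _ (hTSm _ l2).2) (hJm _ (hTSm _ k2).2)
        · intro q hq q' hq' h
          obtain ⟨l1, -, -⟩ := key q (Finset.mem_coe.1 hq)
          obtain ⟨l1', -, -⟩ := key q' (Finset.mem_coe.1 hq')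
          have h9 : q.2.2 = q'.2.2 := sub_left_injective h
          rw [l1, l1', h9]
  -- the end
  have hVcard : (V.card : ℝ) * wn x y ≤ C2 * (2 * C3) ^ dg K * T * N' := by
    have h1 : (V.card : ℝ) * (wn x y * (W : ℝ) ^ dg K) ≤
        C2 * (2 * C3) ^ dg K * T * N' * (W : ℝ) ^ dg K := by
      rw [← hmulr]
      calc (V.card : ℝ) * (N' * D') = (V.card * D') * N' := by ring
        _ ≤ (C2 * (2 * (C3 : ℝ) * Θ) ^ dg K) * N' := mul_le_mul_of_nonneg_right hIDU hN'r.le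
        _ = C2 * (2 * C3) ^ dg K * N' * (Θ : ℝ) ^ dg K := by rw [mul_pow]; ring
        _ ≤ C2 * (2 * C3) ^ dg K * N' * (T * (W : ℝ) ^ dg K) :=
            mul_le_mul_of_nonneg_left hT1 (by positivity)
        _ = C2 * (2 * C3) ^ dg K * T * N' * (W : ℝ) ^ dg K := by ring
    have h2 : (0 : ℝ) < (W : ℝ) ^ dg K := by positivity
    rw [← mul_assoc] at h1
    exact le_of_mul_le_mul_right h1 h2
  have hMM : 1 ≤ MM k := by
    unfold MM
    have : 2 ≤ k * (k + 1) := by nlinarith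
    omega
  have hfin : ((U : ℝ) ^ dg K * rp N' (MM k) + 1) * N' ≤
      ((U : ℝ) ^ dg K * rp (wn x y) (MM k) + 1) * wn x y := by
    have h1 := LL_rp hMM hN'r hN'Nr
    have h2 := mul_le_mul_of_nonneg_left h1 (show (0 : ℝ) ≤ (U : ℝ) ^ dg K by positivity)
    rw [add_mul, add_mul, one_mul, one_mul, mul_assoc, mul_assoc]
    linarith
  have hgoal : (A.card : ℝ) * wn x y ≤ (C4 * C1 * C2 * (2 * C3) ^ dg K * (T ^ 2 *
      ((U : ℝ) ^ dg K * ((U : ℝ) ^ dg K * rp (wn x y) (MM k) + 1)))) * wn x y := by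
    calc (A.card : ℝ) * wn x y ≤ ((P.card * T) * (V.card : ℝ)) * wn x y :=
          mul_le_mul_of_nonneg_right hAcard hNr.le
      _ = (P.card * T) * (V.card * wn x y) := by ring
      _ ≤ (P.card * T) * (C2 * (2 * C3) ^ dg K * T * N') :=
          mul_le_mul_of_nonneg_left hVcard (by positivity)
      _ = P.card * (C2 * (2 * C3) ^ dg K * T ^ 2 * N') := by ring
      _ ≤ ((C4 * (U : ℝ) ^ dg K) * (C1 * ((U : ℝ) ^ dg K * rp N' (MM k) + 1))) *
            (C2 * (2 * C3) ^ dg K * T ^ 2 * N') :=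
          mul_le_mul_of_nonneg_right hPcard (by positivity)
      _ = (C4 * C1 * C2 * (2 * C3) ^ dg K * T ^ 2 * (U : ℝ) ^ dg K) *
            (((U : ℝ) ^ dg K * rp N' (MM k) + 1) * N') := by ring
      _ ≤ (C4 * C1 * C2 * (2 * C3) ^ dg K * T ^ 2 * (U : ℝ) ^ dg K) *
            (((U : ℝ) ^ dg K * rp (wn x y) (MM k) + 1) * wn x y) :=
          mul_le_mul_of_nonneg_left hfin (by positivity)
      _ = _ := by ring
  exact le_of_mul_le_mul_right hgoal hNr

end Pool.Agent.RHC
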