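import Pool.Agent.RHC.StA
import Pool.Agent.RHK.SM

/-!
RHC [TSC] (helper9).
-/

set_option autoImplicit false

namespace Pool.Agent.RHC

open Classical NumberField
open Pool.Agent.RHK

theorem thm_TSC : St_TSC := by
  intro K _ _ Θ W hW
  have hW0 : (W : 𝓞 K) ≠ 0 := by exact_mod_cast hW.ne'
  have hmem : ∀ a : 𝓞 K, a ∈ TS K Θ W ↔ (W : 𝓞 K) ∣ a ∧ cz a ≤ Θ := by
    intro a
    unfold TS
    rw [Finset.mem_filter, mem_cb, and_comm]
  have h1 : TS K Θ W = (cb K (Θ / W)).image fun a => (W : 𝓞 K) * a := by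
    ext a
    rw [hmem, Finset.mem_image]
    constructor
    · rintro ⟨⟨b, rfl⟩, h2⟩
      refine ⟨b, ?_, rfl⟩
      rw [mem_cb, Nat.le_div_iff_mul_le hW, mul_comm]
      rwa [cz_natCast_mul] at h2
    · rintro ⟨b, hb, rfl⟩
      rw [mem_cb, Nat.le_div_iff_mul_le hW, mul_comm] at hb
      refine ⟨dvd_mul_right _ _, ?_⟩
      rwa [cz_natCast_mul]
  refine ⟨?_, ?_⟩
  · rw [h1, Finset.card_image_of_injective _ (mul_right_injective₀ hW0), card_cb]
  · rw [hmem]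
    refine ⟨dvd_zero _, ?_⟩
    have h2 := cz_natCast_mul (K := K) 0 (0 : 𝓞 K)
    simp only [Nat.cast_zero, zero_mul] at h2
    rw [h2]
    exact Nat.zero_le _

end Pool.Agent.RHC
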