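import Pool.Agent.RHC.StA
import Pool.Agent.RHC.TSC

/-!
RHC [DLT] (helper25): sums of the indicators and their local models.
-/

set_option autoImplicit false

namespace Pool.Agent.RHC

open scoped BigOperators
open Classical NumberField IsDedekindDomain
open Pool.Agent.RHP (Mon mono ev Prim)
open Pool.Agent.RHK

variable {K : Type} [Field K] [NumberField K]

theorem DLT_lmt {s d : ℕ} (Θ W : ℕ) (a : 𝓞 K) (x : Fin s → 𝓞 K) (f : Mon s d → 𝓞 K) :
    lmt Θ W a x f = 1 / ((TS K Θ W).card : ℝ) * ∑ u ∈ TS K Θ W, dlt (a + u) x f := by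
  have h1 : ∀ u : 𝓞 K, dlt (a + u) x f = if u = ev f x - a then (1 : ℝ) else 0 := by
    intro u
    unfold dlt
    congr 1
    apply propext
    constructor
    · intro h
      rw [h]
      ring
    · intro h
      rw [h]
      ring
  simp only [h1]
  rw [Finset.sum_ite_eq']
  unfold lmt TS
  simp only [Finset.mem_filter, mem_cb]
  by_cases h : (W : 𝓞 K) ∣ ev f x - a ∧ cz (ev f x - a) ≤ Θ
  · rw [if_pos h, if_pos ⟨h.2, h.1⟩, mul_one]
  · rw [if_neg h, if_neg fun h' => h ⟨h'.2, h'.1⟩, mul_zero]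

theorem DLT_one {s : ℕ} (d H : ℕ) (x y : Fin s → 𝓞 K) (a b : 𝓞 K) :
    ∑ f ∈ box K s d (2 * H), Ph H f * (dlt a x f * dlt b y f) = cP d H x y a b := by
  unfold cP
  rw [Finset.sum_filter]
  refine Finset.sum_congr rfl fun f _ => ?_
  unfold dlt
  by_cases h1 : ev f x = a
  · by_cases h2 : ev f y = b
    · rw [if_pos h1, if_pos h2, if_pos ⟨h1, h2⟩, mul_one, mul_one]
    · rw [if_neg h2, mul_zero, mul_zero, if_neg fun h => h2 h.2]
  · rw [if_neg h1, zero_mul, mul_zero, if_neg fun h => h1 h.1]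

omit [NumberField K] in
theorem DLT_avg {S : Finset (𝓞 K)} (g : 𝓞 K → ℝ) (c β : ℝ) (h0 : S.Nonempty)
    (h : ∀ u ∈ S, |g u - c| ≤ β) : |1 / (S.card : ℝ) * ∑ u ∈ S, g u - c| ≤ β := by
  have hN : (0 : ℝ) < (S.card : ℝ) := by exact_mod_cast h0.card_pos
  have h1 : 1 / (S.card : ℝ) * ∑ u ∈ S, g u - c = 1 / (S.card : ℝ) * ∑ u ∈ S, (g u - c) := by
    rw [Finset.sum_sub_distrib, Finset.sum_const, nsmul_eq_mul]
    field_simp
  rw [h1, abs_mul, abs_of_pos (by positivity : (0 : ℝ) < 1 / (S.card : ℝ)), one_div,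
    inv_mul_le_iff₀ hN]
  calc |∑ u ∈ S, (g u - c)| ≤ ∑ u ∈ S, |g u - c| := Finset.abs_sum_le_sum_abs _ _
    _ ≤ ∑ u ∈ S, β := Finset.sum_le_sum h
    _ = S.card * β := by rw [Finset.sum_const, nsmul_eq_mul]

theorem thm_DLT : St_DLT := by
  intro K _ _ s d H Θ W x y a b hW
  obtain ⟨-, h0⟩ := thm_TSC K Θ W hW
  have hne : (TS K Θ W).Nonempty := ⟨0, h0⟩
  have hsec : ∀ a b : 𝓞 K, ∑ f ∈ box K s d (2 * H), Ph H f * (lmt Θ W a x f * lmt Θ W b y f) =
      1 / ((TS K Θ W).card : ℝ) * ∑ u ∈ TS K Θ W, (1 / ((TS K Θ W).card : ℝ) *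
        ∑ v ∈ TS K Θ W, cP d H x y (a + u) (b + v)) := by
    intro a b
    have h1 : ∀ f : Mon s d → 𝓞 K, Ph H f * (lmt Θ W a x f * lmt Θ W b y f) =
        1 / ((TS K Θ W).card : ℝ) * ∑ u ∈ TS K Θ W, (1 / ((TS K Θ W).card : ℝ) *
          ∑ v ∈ TS K Θ W, Ph H f * (dlt (a + u) x f * dlt (b + v) y f)) := by
      intro f
      rw [DLT_lmt, DLT_lmt]
      simp only [Finset.mul_sum, Finset.sum_mul]
      rw [Finset.sum_comm]
      refine Finset.sum_congr rfl fun u _ => Finset.sum_congr rfl fun v _ => ?_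
      ring
    simp only [h1]
    rw [← Finset.mul_sum, Finset.sum_comm]
    congr 1
    refine Finset.sum_congr rfl fun u _ => ?_
    rw [← Finset.mul_sum, Finset.sum_comm]
    congr 1
    exact Finset.sum_congr rfl fun v _ => DLT_one d H x y _ _
  refine ⟨DLT_one d H x y a b, ?_, ?_⟩
  · rw [hsec, Finset.sum_product]
    simp only [Finset.mul_sum]
    refine Finset.sum_congr rfl fun u _ => Finset.sum_congr rfl fun v _ => ?_
    ring
  · intro β hβ
    have hm1 : ∑ f ∈ box K s d (2 * H), Ph H f * (dlt a x f * lmt Θ W b y f) =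
        1 / ((TS K Θ W).card : ℝ) * ∑ v ∈ TS K Θ W, cP d H x y a (b + v) := by
      have h1 : ∀ f : Mon s d → 𝓞 K, Ph H f * (dlt a x f * lmt Θ W b y f) =
          1 / ((TS K Θ W).card : ℝ) * ∑ v ∈ TS K Θ W, Ph H f * (dlt a x f * dlt (b + v) y f) := by
        intro f
        rw [DLT_lmt]
        simp only [Finset.mul_sum]
        refine Finset.sum_congr rfl fun v _ => ?_
        ring
      simp only [h1]
      rw [← Finset.mul_sum, Finset.sum_comm]
      congr 1
      exact Finset.sum_congr rfl fun v _ => DLT_one d H x y _ _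
    have hm2 : ∑ f ∈ box K s d (2 * H), Ph H f * (lmt Θ W a x f * dlt b y f) =
        1 / ((TS K Θ W).card : ℝ) * ∑ u ∈ TS K Θ W, cP d H x y (a + u) b := by
      have h1 : ∀ f : Mon s d → 𝓞 K, Ph H f * (lmt Θ W a x f * dlt b y f) =
          1 / ((TS K Θ W).card : ℝ) * ∑ u ∈ TS K Θ W, Ph H f * (dlt (a + u) x f * dlt b y f) := by
        intro f
        rw [DLT_lmt]
        simp only [Finset.mul_sum, Finset.sum_mul]
        refine Finset.sum_congr rfl fun v _ => ?_
        ring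
      simp only [h1]
      rw [← Finset.mul_sum, Finset.sum_comm]
      congr 1
      exact Finset.sum_congr rfl fun v _ => DLT_one d H x y _ _
    have hsplit : ∑ f ∈ box K s d (2 * H),
        Ph H f * ((dlt a x f - lmt Θ W a x f) * (dlt b y f - lmt Θ W b y f)) =
        ∑ f ∈ box K s d (2 * H), Ph H f * (dlt a x f * dlt b y f) -
        ∑ f ∈ box K s d (2 * H), Ph H f * (dlt a x f * lmt Θ W b y f) -
        ∑ f ∈ box K s d (2 * H), Ph H f * (lmt Θ W a x f * dlt b y f) +
        ∑ f ∈ box K s d (2 * H), Ph H f * (lmt Θ W a x f * lmt Θ W b y f) := by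
      rw [← Finset.sum_sub_distrib, ← Finset.sum_sub_distrib, ← Finset.sum_add_distrib]
      refine Finset.sum_congr rfl fun f _ => ?_
      ring
    rw [hsplit, DLT_one, hm1, hm2, hsec]
    have hb0 : 0 ≤ β := (abs_nonneg _).trans (hβ 0 h0 0 h0)
    have e1 := DLT_avg (S := TS K Θ W) (fun v => cP d H x y a (b + v)) (cP d H x y a b) β hne
      (fun v hv => by
        have := hβ 0 h0 v hv
        rwa [add_zero] at this)
    have e2 := DLT_avg (S := TS K Θ W) (fun u => cP d H x y (a + u) b) (cP d H x y a b) β hne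
      (fun u hu => by
        have := hβ u hu 0 h0
        rwa [add_zero] at this)
    have e3 := DLT_avg (S := TS K Θ W) (fun u => 1 / ((TS K Θ W).card : ℝ) *
        ∑ v ∈ TS K Θ W, cP d H x y (a + u) (b + v)) (cP d H x y a b) β hne
      (fun u hu => DLT_avg (S := TS K Θ W) (fun v => cP d H x y (a + u) (b + v))
        (cP d H x y a b) β hne (fun v hv => hβ u hu v hv))
    rw [abs_le] at e1 e2 e3
    linarith [e1.1, e2.1, e3.2]

end Pool.Agent.RHC
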