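import Pool.Agent.RHC.StA
import Pool.Agent.RHP.Ev

/-!
RHC [PHI] (helper35): the Lipschitz weight `Ph` and translations.
-/

set_option autoImplicit false

namespace Pool.Agent.RHC

open scoped BigOperators
open Classical NumberField IsDedekindDomain
open Pool.Agent.RHP (Mon mono ev Prim)
open Pool.Agent.RHK

section

variable {K : Type} [Field K] [NumberField K]

private theorem PHI_cz_add (a b : 𝓞 K) : cz (a + b) ≤ cz a + cz b := by
  unfold cz
  refine Finset.sup_le fun j _ => ?_
  have h1 : co (a + b) j = co a j + co b j := by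
    unfold co
    rw [map_add]
    rfl
  have h2 : (co a j).natAbs ≤ Finset.univ.sup fun j => (co a j).natAbs :=
    Finset.le_sup (f := fun j => (co a j).natAbs) (Finset.mem_univ j)
  have h3 : (co b j).natAbs ≤ Finset.univ.sup fun j => (co b j).natAbs :=
    Finset.le_sup (f := fun j => (co b j).natAbs) (Finset.mem_univ j)
  rw [h1]
  exact (Int.natAbs_add_le _ _).trans (add_le_add h2 h3)

private theorem PHI_cz_neg (a : 𝓞 K) : cz (-a) = cz a := by
  unfold cz
  refine Finset.sup_congr rfl fun j _ => ?_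
  have h1 : co (-a) j = - co a j := by
    unfold co
    rw [map_neg]
    rfl
  rw [h1, Int.natAbs_neg]

private theorem PHI_fm_le {s d H : ℕ} {f : Mon s d → 𝓞 K} : fm f ≤ H ↔ ∀ m, cz (f m) ≤ H := by
  unfold fm
  rw [Finset.sup_le_iff]
  exact ⟨fun h m => h m (Finset.mem_univ m), fun h m _ => h m⟩

private theorem PHI_mem {s d H : ℕ} {f : Mon s d → 𝓞 K} : f ∈ box K s d H ↔ fm f ≤ H := by
  unfold box
  rw [Fintype.mem_piFinset, PHI_fm_le]
  exact forall_congr' fun m => mem_cb

private theorem PHI_fm_add {s d : ℕ} (f g : Mon s d → 𝓞 K) :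
    fm (fun m => f m + g m) ≤ fm f + fm g := by
  rw [PHI_fm_le]
  intro m
  exact (PHI_cz_add _ _).trans (add_le_add (PHI_fm_le.1 le_rfl m) (PHI_fm_le.1 le_rfl m))

private theorem PHI_fm_sub {s d : ℕ} (f g : Mon s d → 𝓞 K) :
    fm (fun m => f m - g m) ≤ fm f + fm g := by
  rw [PHI_fm_le]
  intro m
  rw [sub_eq_add_neg]
  refine (PHI_cz_add _ _).trans (add_le_add (PHI_fm_le.1 le_rfl m) ?_)
  rw [PHI_cz_neg]
  exact PHI_fm_le.1 le_rfl m

private theorem PHI_zero {s d H : ℕ} (hH : 1 ≤ H) {f : Mon s d → 𝓞 K}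
    (h : f ∉ box K s d (2 * H)) : Ph H f = 0 := by
  rw [PHI_mem, not_le] at h
  unfold Ph
  apply max_eq_left
  have hH0 : (0 : ℝ) < H := by exact_mod_cast hH
  have h1 : ((2 * H : ℕ) : ℝ) ≤ fm f := by exact_mod_cast h.le
  push_cast at h1
  rw [sub_nonpos, le_div_iff₀ hH0]
  exact h1

private theorem PHI_nonneg {s d : ℕ} (H : ℕ) (f : Mon s d → 𝓞 K) : 0 ≤ Ph H f := le_max_left _ _

private theorem PHI_le_two {s d : ℕ} (H : ℕ) (f : Mon s d → 𝓞 K) : Ph H f ≤ 2 := by
  unfold Ph
  refine max_le (by norm_num) ?_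
  have : (0 : ℝ) ≤ (fm f : ℝ) / H := by positivity
  linarith

private theorem PHI_lip {s d H : ℕ} (hH : 1 ≤ H) (f z : Mon s d → 𝓞 K) :
    |Ph H (fun m => f m + z m) - Ph H f| ≤ (fm z : ℝ) / H := by
  have hH0 : (0 : ℝ) < H := by exact_mod_cast hH
  unfold Ph
  refine (abs_max_sub_max_le_max _ _ _ _).trans ?_
  rw [sub_self, abs_zero]
  refine max_le (by positivity) ?_
  have h1 : (2 - (fm (fun m => f m + z m) : ℝ) / H) - (2 - (fm f : ℝ) / H) =
      ((fm f : ℝ) - fm (fun m => f m + z m)) / H := by ring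
  rw [h1, abs_div, abs_of_pos hH0]
  refine div_le_div_of_nonneg_right ?_ hH0.le
  have h2 : fm (fun m => f m + z m) ≤ fm f + fm z := PHI_fm_add f z
  have h3 : fm f ≤ fm (fun m => f m + z m) + fm z := by
    have h4 := PHI_fm_sub (fun m => f m + z m) z
    have h5 : (fun m => (fun m => f m + z m) m - z m) = f := by
      funext m
      exact add_sub_cancel_right _ _
    rwa [h5] at h4
  have h2' : (fm (fun m => f m + z m) : ℝ) ≤ fm f + fm z := by exact_mod_cast h2
  have h3' : (fm f : ℝ) ≤ fm (fun m => f m + z m) + fm z := by exact_mod_cast h3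
  rw [abs_le]
  constructor <;> linarith

end

/-- [PHI] -/
theorem thm_PHI : St_PHI := by
  intro K _ _ s d H hH
  have hH0 : (0 : ℝ) < H := by exact_mod_cast hH
  refine ⟨fun f hf => ?_, fun f => ⟨PHI_nonneg H f, PHI_le_two H f⟩, fun x y a b => ⟨?_, ?_⟩, ?_⟩
  · unfold Ph
    refine le_max_of_le_right ?_
    have h1 : (fm f : ℝ) ≤ H := by exact_mod_cast PHI_mem.1 hf
    have h2 : (fm f : ℝ) / H ≤ 1 := (div_le_one hH0).2 h1
    linarith
  · unfold cP
    exact Finset.sum_nonneg fun f _ => PHI_nonneg H f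
  · unfold cP c2
    calc ∑ f ∈ (box K s d (2 * H)).filter (fun f => ev f x = a ∧ ev f y = b), Ph H f
        ≤ ∑ _f ∈ (box K s d (2 * H)).filter (fun f => ev f x = a ∧ ev f y = b), (2 : ℝ) :=
          Finset.sum_le_sum fun f _ => PHI_le_two H f
      _ = (((box K s d (2 * H)).filter (fun f => ev f x = a ∧ ev f y = b)).card : ℝ) * 2 := by
          rw [Finset.sum_const, nsmul_eq_mul]
      _ ≤ (((box K s d (3 * H)).filter (fun f => ev f x = a ∧ ev f y = b)).card : ℝ) * 2 := by
          refine mul_le_mul_of_nonneg_right ?_ (by norm_num)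
          rw [Nat.cast_le]
          refine Finset.card_le_card (Finset.filter_subset_filter _ fun f hf => ?_)
          rw [PHI_mem] at hf ⊢
          omega
      _ = _ := by ring
  · intro x y a b u w z k hk hu hw hz
    have hfz : fm z * k ≤ H := by
      rcases Nat.eq_zero_or_pos (fm z) with h0 | h0
      · rw [h0, Nat.zero_mul]
        exact Nat.zero_le _
      · have hne : (Finset.univ : Finset (Mon s d)).Nonempty := by
          by_contra hne
          rw [Finset.not_nonempty_iff_eq_empty] at hne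
          unfold fm at h0
          rw [hne, Finset.sup_empty] at h0
          exact absurd h0 (lt_irrefl _)
        obtain ⟨m, _, hm⟩ := Finset.exists_mem_eq_sup Finset.univ hne (fun m => cz (z m))
        have h1 : fm z = cz (z m) := hm
        rw [h1]
        exact hz m
    have hfz' : fm z ≤ H := by
      calc fm z = fm z * 1 := (Nat.mul_one _).symm
        _ ≤ fm z * k := Nat.mul_le_mul_left _ hk
        _ ≤ H := hfz
    have hk0 : (0 : ℝ) < k := by exact_mod_cast hk
    have hzk : (fm z : ℝ) / H ≤ 1 / k := by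
      rw [div_le_div_iff₀ hH0 hk0, one_mul]
      exact_mod_cast hfz
    set S := (box K s d (3 * H)).filter (fun f => ev f x = a ∧ ev f y = b) with hS
    have e1 : cP d H x y a b = ∑ f ∈ S, Ph H f := by
      unfold cP
      refine Finset.sum_subset ?_ ?_
      · refine Finset.filter_subset_filter _ fun f hf => ?_
        rw [PHI_mem] at hf ⊢
        omega
      · intro f hf hf'
        refine PHI_zero hH fun h => hf' ?_
        rw [hS, Finset.mem_filter] at hf
        exact Finset.mem_filter.2 ⟨h, hf.2⟩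
    have e2 : cP d H x y (a + u) (b + w) = ∑ f ∈ S, Ph H (fun m => f m + z m) := by
      have e3 : ∑ f ∈ S, Ph H (fun m => f m + z m) =
          ∑ f ∈ S.filter (fun f => (fun m => f m + z m) ∈ box K s d (2 * H)),
            Ph H (fun m => f m + z m) := by
        symm
        refine Finset.sum_subset (Finset.filter_subset _ _) ?_
        intro f hf hf'
        refine PHI_zero hH fun h => hf' ?_
        exact Finset.mem_filter.2 ⟨hf, h⟩
      rw [e3]
      unfold cP
      symm
      refine Finset.sum_bij (fun f _ => fun m => f m + z m) ?_ ?_ ?_ ?_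
      · intro f hf
        rw [Finset.mem_filter, hS, Finset.mem_filter] at hf
        rw [Finset.mem_filter]
        refine ⟨hf.2, ?_, ?_⟩
        · rw [Pool.Agent.RHP.ev_add, hf.1.2.1, hu]
        · rw [Pool.Agent.RHP.ev_add, hf.1.2.2, hw]
      · intro f _ g _ hfg
        funext m
        exact add_right_cancel (congrFun hfg m)
      · intro g hg
        rw [Finset.mem_filter] at hg
        have hback : (fun m => (fun m => g m - z m) m + z m) = g := by
          funext m
          exact sub_add_cancel _ _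
        refine ⟨fun m => g m - z m, ?_, hback⟩
        rw [Finset.mem_filter, hS, Finset.mem_filter]
        refine ⟨⟨?_, ?_, ?_⟩, ?_⟩
        · rw [PHI_mem]
          have h1 := PHI_fm_sub g z
          have h2 := PHI_mem.1 hg.1
          omega
        · rw [Pool.Agent.RHP.ev_sub, hg.2.1, hu, add_sub_cancel_right]
        · rw [Pool.Agent.RHP.ev_sub, hg.2.2, hw, add_sub_cancel_right]
        · rw [hback]
          exact hg.1
      · intro f _
        rfl
    rw [e1, e2, ← Finset.sum_sub_distrib]
    calc |∑ f ∈ S, (Ph H (fun m => f m + z m) - Ph H f)|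
        ≤ ∑ f ∈ S, |Ph H (fun m => f m + z m) - Ph H f| := Finset.abs_sum_le_sum_abs _ _
      _ ≤ ∑ _f ∈ S, (1 / k : ℝ) := Finset.sum_le_sum fun f _ => (PHI_lip hH f z).trans hzk
      _ = 1 / k * (S.card : ℝ) := by rw [Finset.sum_const, nsmul_eq_mul, mul_comm]
      _ = _ := rfl

end Pool.Agent.RHC
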