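import Pool.Agent.RHC.StA

/-!
RHC, ABSC: finite sums (helper16).
-/

set_option autoImplicit false

namespace Pool.Agent.RHC

open scoped BigOperators
open Classical

theorem thm_ABSC : St_ABSC := by
  intro Ω P Q S Φ G B δ lam Ty b hΦ hnn htyp
  have e1 : ∑ F ∈ S, Φ F * (∑ x ∈ G, ∑ w ∈ B, (δ x w F - lam x w F)) ^ 2 =
      ∑ p ∈ G ×ˢ G, ∑ q ∈ B ×ˢ B, ∑ F ∈ S,
        Φ F * ((δ p.1 q.1 F - lam p.1 q.1 F) * (δ p.2 q.2 F - lam p.2 q.2 F)) := by
    have h : ∀ F, Φ F * (∑ x ∈ G, ∑ w ∈ B, (δ x w F - lam x w F)) ^ 2 =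
        ∑ p ∈ G ×ˢ G, ∑ q ∈ B ×ˢ B,
          Φ F * ((δ p.1 q.1 F - lam p.1 q.1 F) * (δ p.2 q.2 F - lam p.2 q.2 F)) := by
      intro F
      rw [sq, Finset.sum_mul_sum, Finset.sum_product, Finset.mul_sum]
      apply Finset.sum_congr rfl
      intro x _
      rw [Finset.mul_sum]
      apply Finset.sum_congr rfl
      intro y _
      rw [Finset.sum_mul_sum, Finset.sum_product, Finset.mul_sum]
      apply Finset.sum_congr rfl
      intro w _
      rw [Finset.mul_sum]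
    rw [Finset.sum_congr rfl fun F _ => h F, Finset.sum_comm]
    apply Finset.sum_congr rfl
    intro p _
    rw [Finset.sum_comm]
  rw [e1, ← Finset.sum_filter_add_sum_filter_not (G ×ˢ G) (fun p => Ty p.1 p.2)]
  apply add_le_add
  · apply Finset.sum_le_sum
    intro p hp
    rw [Finset.mem_filter, Finset.mem_product] at hp
    have h2 : ∀ q ∈ B ×ˢ B, ∑ F ∈ S,
        Φ F * ((δ p.1 q.1 F - lam p.1 q.1 F) * (δ p.2 q.2 F - lam p.2 q.2 F)) ≤ b p.1 p.2 := by
      intro q hq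
      rw [Finset.mem_product] at hq
      exact htyp p.1 hp.1.1 p.2 hp.1.2 hp.2 q.1 hq.1 q.2 hq.2
    refine (Finset.sum_le_card_nsmul _ _ _ h2).trans (le_of_eq ?_)
    rw [Finset.card_product, nsmul_eq_mul]
    push_cast
    ring
  · apply Finset.sum_le_sum
    intro p _
    apply Finset.sum_le_sum
    intro q _
    rw [← Finset.sum_add_distrib]
    apply Finset.sum_le_sum
    intro F hF
    rw [← mul_add]
    apply mul_le_mul_of_nonneg_left _ (hΦ F hF)
    have h1 := hnn p.1 q.1 F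
    have h2 := hnn p.2 q.2 F
    nlinarith [mul_nonneg h1.1 h2.2, mul_nonneg h1.2 h2.1]

end Pool.Agent.RHC
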