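import Pool.Agent.RHC.StA
import Pool.Agent.RHP.Ev

/-!
RHC [CMPT] (helper9).
-/

set_option autoImplicit false

namespace Pool.Agent.RHC

open Classical NumberField
open Pool.Agent.RHP (Mon mono ev Prim)
open Pool.Agent.RHK

theorem thm_CMPT : St_CMPT := by
  intro K _ _ s x y hx
  obtain ⟨c, hc⟩ := hx
  refine ⟨∑ i, c i * y i, fun d f => ?_⟩
  rw [← Pool.Agent.RHP.ev_smul_pt, ← Ideal.Quotient.mk_eq_mk_iff_sub_mem,
    ← Pool.Agent.RHP.ev_map, ← Pool.Agent.RHP.ev_map]
  congr 1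
  funext j
  rw [Ideal.Quotient.mk_eq_mk_iff_sub_mem]
  have h1 : y j - (∑ i, c i * y i) * x j = ∑ i, c i * (x i * y j - x j * y i) := by
    calc y j - (∑ i, c i * y i) * x j = (∑ i, c i * x i) * y j - (∑ i, c i * y i) * x j := by
          rw [hc, one_mul]
      _ = ∑ i, c i * (x i * y j - x j * y i) := by
          rw [Finset.sum_mul, Finset.sum_mul, ← Finset.sum_sub_distrib]
          exact Finset.sum_congr rfl fun i _ => by ring
  rw [h1]
  exact Ideal.sum_mem _ fun i _ => Ideal.mul_mem_left _ _ (Ideal.subset_span ⟨(i, j), rfl⟩)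

end Pool.Agent.RHC
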