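import Pool.Agent.RHC.StA
import Pool.Agent.RHK.PS

/-!
RHC, block A: the pair sum, main groups (helper58).
-/

set_option autoImplicit false
set_option linter.unusedSectionVars false

namespace Pool.Agent.RHC

open scoped BigOperators
open Classical NumberField IsDedekindDomain
open Pool.Agent.RHP (Mon mono ev Prim)
open Pool.Agent.RHK

theorem CPA_rp_pos {N : ℝ} (hN : 0 < N) (M : ℕ) : 0 < rp N M := Real.rpow_pos_of_pos hN _

theorem CPA_exp_nonpos (M : ℕ) : -(1 : ℝ) / M ≤ 0 :=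
  div_nonpos_of_nonpos_of_nonneg (by norm_num) (Nat.cast_nonneg _)

theorem CPA_rp_anti {a b : ℝ} (ha : 0 < a) (hab : a ≤ b) (M : ℕ) : rp b M ≤ rp a M :=
  Real.rpow_le_rpow_of_nonpos ha hab (CPA_exp_nonpos M)

theorem CPA_rp_one (M : ℕ) : rp 1 M = 1 := Real.one_rpow _

theorem CPA_inv_le_rp {m : ℝ} (hm : 1 ≤ m) {M : ℕ} (hM : 1 ≤ M) : 1 / m ≤ rp m M := by
  have h1 : (1 : ℝ) / m = m ^ (-1 : ℝ) := by
    rw [Real.rpow_neg (by linarith), Real.rpow_one, one_div]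
  rw [h1]
  refine Real.rpow_le_rpow_of_exponent_le hm ?_
  have hM' : (1 : ℝ) ≤ M := by exact_mod_cast hM
  have h2 : (0 : ℝ) < M := by linarith
  rw [neg_div]
  have h3 : (1 : ℝ) / M ≤ 1 := by
    rw [div_le_one h2]
    exact hM'
  linarith

section CPA

variable {K : Type} [Field K] [NumberField K] {s : ℕ}

theorem CPA_wp_le (x y : Fin s → 𝓞 K) : wp x y ≤ PT fun v => (2 : ℝ) ^ (PS_b x y v) :=
  Finset.prod_le_prod (fun v _ => pow_nonneg (wv_nonneg v x y) _) fun v _ =>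
    pow_le_pow_left₀ (wv_nonneg v x y) (PS_wv_le x y v) _

theorem CPA_groups (hs : 3 ≤ s) {C3 : ℝ} (hC3 : 0 < C3) {X L : ℕ} (hX : 1 ≤ X) (hL : 1 ≤ L)
    {Z : ℝ} (hZ : 1 ≤ Z) (hCZ : C3 * Z ^ 2 ≤ ((X : ℝ) * L) ^ dg K) {x : Fin s → 𝓞 K}
    (hx : ∀ v : InfinitePlace K, vs v x ≤ X)
    (hM : ∀ (B : InfinitePlace K → ℝ) (I : Ideal (𝓞 K)),
      (∀ v, 0 < B v ∧ B v ≤ 4 * (X : ℝ) ^ 2) → I ≠ ⊥ → (PS_S X x B I).Nonempty →
      (C3 * (((X : ℝ) / L) ^ dg K * Ideal.absNorm I) ≤ PT B →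
        ((PS_S X x B I).card : ℝ) *
          (((X : ℝ) ^ (s - 2)) ^ dg K * (Ideal.absNorm I : ℝ) ^ (s - 1)) ≤ C3 * PT B ^ (s - 1)))
    (M : ℕ) (G : Finset (Fin s → 𝓞 K))
    (hG : ∀ y ∈ G, ¬ Par x y ∧ (∀ v : InfinitePlace K, vs v y ≤ X) ∧ (wn x y : ℝ) ≤ Z ∧
      ((X : ℝ) ^ 2) ^ dg K ≤ Z * wp x y) :
    ∑ y ∈ G, (wn x y : ℝ) * ((X : ℝ) ^ 2) ^ dg K / wp x y * rp (wn x y) M ≤
      C3 * 2 ^ dg K * ((X : ℝ) ^ 2) ^ dg K / ((X : ℝ) ^ (s - 2)) ^ dg K *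
        ∑ k ∈ G.image (PS_key x), (1 / (Ideal.absNorm k.1 : ℝ) * rp (Ideal.absNorm k.1) M) *
          (PT fun v => (2 : ℝ) ^ (k.2 v)) ^ (s - 2) := by
  have hXr : (0 : ℝ) < X := by exact_mod_cast hX
  have hLr : (0 : ℝ) < L := by exact_mod_cast hL
  have hZ0 : 0 < Z := by linarith
  rw [← Finset.sum_fiberwise_of_maps_to (g := PS_key x) (t := G.image (PS_key x))
      fun y hy => Finset.mem_image_of_mem _ hy, Finset.mul_sum]
  refine Finset.sum_le_sum fun k hk => ?_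
  obtain ⟨y0, hy0, rfl⟩ := Finset.mem_image.1 hk
  obtain ⟨hp, hv, hnZ, hpZ⟩ := hG y0 hy0
  have hsub : ∀ y ∈ G.filter (fun y => PS_key x y = PS_key x y0),
      y ∈ PS_S X x (fun v => (2 : ℝ) ^ ((PS_key x y0).2 v)) (PS_key x y0).1 := by
    intro y hy
    obtain ⟨h1, h2⟩ := Finset.mem_filter.1 hy
    obtain ⟨h3, h4, -⟩ := hG y h1
    unfold PS_S
    rw [Finset.mem_filter, mem_bx hXr.le]
    refine ⟨h4, h3, ?_, fun v => ?_⟩
    · rw [← h2]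
      exact le_rfl
    · rw [← h2]
      exact PS_wv_le x y v
  have hb : ∀ v, 0 < (2 : ℝ) ^ ((PS_key x y0).2 v) ∧
      (2 : ℝ) ^ ((PS_key x y0).2 v) ≤ 4 * (X : ℝ) ^ 2 := by
    intro v
    refine ⟨by positivity, ?_⟩
    have h1 := PS_lt x y0 v hp
    have h2 := wv_le_mul v x y0
    have h3 := mul_le_mul (hx v) (hv v) (vs_nonneg v y0) hXr.le
    show (2 : ℝ) ^ (PS_b x y0 v) ≤ 4 * (X : ℝ) ^ 2
    nlinarith
  have hN1 : (1 : ℝ) ≤ (Ideal.absNorm (PS_key x y0).1 : ℝ) := by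
    show (1 : ℝ) ≤ wn x y0
    exact_mod_cast wn_pos hp
  have hNZ : (Ideal.absNorm (PS_key x y0).1 : ℝ) ≤ Z := hnZ
  have hPw : wp x y0 ≤ PT fun v => (2 : ℝ) ^ ((PS_key x y0).2 v) := CPA_wp_le x y0
  have h1 := hM _ (PS_key x y0).1 hb (gI_ne_bot hp) ⟨y0, hsub y0
      (Finset.mem_filter.2 ⟨hy0, rfl⟩)⟩
  have hP : 0 < PT fun v => (2 : ℝ) ^ ((PS_key x y0).2 v) := PS_PT_pos _
  set P : ℝ := PT fun v => (2 : ℝ) ^ ((PS_key x y0).2 v) with hPdef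
  set N : ℝ := (Ideal.absNorm (PS_key x y0).1 : ℝ) with hN
  set S : ℝ := ((PS_S X x (fun v => (2 : ℝ) ^ ((PS_key x y0).2 v)) (PS_key x y0).1).card : ℝ)
    with hS
  have hN0 : 0 < N := by linarith
  have hS0 : 0 ≤ S := Nat.cast_nonneg _
  have hrp : 0 < rp N M := CPA_rp_pos hN0 M
  have hsum : ∑ y ∈ G.filter (fun y => PS_key x y = PS_key x y0),
      (wn x y : ℝ) * ((X : ℝ) ^ 2) ^ dg K / wp x y * rp (wn x y) M ≤
      S * (N * ((X : ℝ) ^ 2) ^ dg K * 2 ^ dg K / P * rp N M) := by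
    refine (Finset.sum_le_card_nsmul _ _ (N * ((X : ℝ) ^ 2) ^ dg K * 2 ^ dg K / P * rp N M)
      fun y hy => ?_).trans ?_
    · obtain ⟨g1, g2⟩ := Finset.mem_filter.1 hy
      have g3 : (wn x y : ℝ) = N := by
        have : gI x y = (PS_key x y0).1 := congrArg Prod.fst g2
        show ((Ideal.absNorm (gI x y) : ℕ) : ℝ) = N
        rw [this]
      have g4 : PS_b x y = (PS_key x y0).2 := congrArg Prod.snd g2
      have g5 := PS_wp x y (hG y g1).1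
      rw [g4] at g5
      have g6 : P ≤ 2 ^ dg K * wp x y := g5
      have g7 : 0 < wp x y := wp_pos (hG y g1).1
      rw [g3]
      refine mul_le_mul_of_nonneg_right ?_ hrp.le
      rw [div_le_div_iff₀ g7 hP]
      have g8 : 0 ≤ N * ((X : ℝ) ^ 2) ^ dg K := by positivity
      calc N * ((X : ℝ) ^ 2) ^ dg K * P ≤ N * ((X : ℝ) ^ 2) ^ dg K * (2 ^ dg K * wp x y) :=
            mul_le_mul_of_nonneg_left g6 g8
        _ = N * ((X : ℝ) ^ 2) ^ dg K * 2 ^ dg K * wp x y := by ring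
    · rw [nsmul_eq_mul]
      refine mul_le_mul_of_nonneg_right ?_ (by positivity)
      exact Nat.cast_le.2 (Finset.card_le_card hsub)
  refine hsum.trans ?_
  have hcase : C3 * (((X : ℝ) / L) ^ dg K * N) ≤ P := by
    refine le_trans ?_ hPw
    have k1 : ((X : ℝ) ^ 2) ^ dg K / Z ≤ wp x y0 := by
      rw [div_le_iff₀ hZ0, mul_comm]
      exact hpZ
    refine le_trans ?_ k1
    rw [le_div_iff₀ hZ0]
    have k2 : ((X : ℝ) ^ 2) ^ dg K = ((X : ℝ) / L) ^ dg K * ((X : ℝ) * L) ^ dg K := by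
      rw [← mul_pow]
      congr 1
      field_simp
    rw [k2]
    have k3 : 0 < ((X : ℝ) / L) ^ dg K := by positivity
    calc C3 * (((X : ℝ) / L) ^ dg K * N) * Z ≤ C3 * (((X : ℝ) / L) ^ dg K * Z) * Z := by
          refine mul_le_mul_of_nonneg_right ?_ hZ0.le
          refine mul_le_mul_of_nonneg_left ?_ hC3.le
          exact mul_le_mul_of_nonneg_left hNZ k3.le
      _ = ((X : ℝ) / L) ^ dg K * (C3 * Z ^ 2) := by ring
      _ ≤ ((X : ℝ) / L) ^ dg K * ((X : ℝ) * L) ^ dg K := mul_le_mul_of_nonneg_left hCZ k3.le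
  have h4 := h1 hcase
  obtain ⟨a, ha⟩ : ∃ a, s - 2 = a + 1 := ⟨s - 3, by omega⟩
  have ha' : s - 1 = a + 2 := by omega
  rw [ha, ha'] at h4
  rw [ha]
  have h5 : S ≤ C3 * P ^ (a + 2) / (((X : ℝ) ^ (a + 1)) ^ dg K * N ^ (a + 2)) := by
    rw [le_div_iff₀ (by positivity)]
    exact h4
  have h6 : 1 / N ^ (a + 1) ≤ 1 / N := by
    refine div_le_div_of_nonneg_left (by norm_num) hN0 ?_
    exact le_self_pow₀ hN1 (by omega)
  calc S * (N * ((X : ℝ) ^ 2) ^ dg K * 2 ^ dg K / P * rp N M) ≤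
      C3 * P ^ (a + 2) / (((X : ℝ) ^ (a + 1)) ^ dg K * N ^ (a + 2)) *
        (N * ((X : ℝ) ^ 2) ^ dg K * 2 ^ dg K / P * rp N M) :=
        mul_le_mul_of_nonneg_right h5 (by positivity)
    _ = C3 * 2 ^ dg K * ((X : ℝ) ^ 2) ^ dg K / ((X : ℝ) ^ (a + 1)) ^ dg K *
        (1 / N ^ (a + 1) * rp N M * P ^ (a + 1)) := by
        rw [pow_succ P (a + 1), pow_succ N (a + 1)]
        field_simp
    _ ≤ C3 * 2 ^ dg K * ((X : ℝ) ^ 2) ^ dg K / ((X : ℝ) ^ (a + 1)) ^ dg K *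
        (1 / N * rp N M * P ^ (a + 1)) := by
        refine mul_le_mul_of_nonneg_left ?_ (by positivity)
        refine mul_le_mul_of_nonneg_right ?_ (by positivity)
        exact mul_le_mul_of_nonneg_right h6 hrp.le

/-- a sum over a product -/
theorem CPA_prod (M : ℕ) (A : Finset (Ideal (𝓞 K))) (B : Finset (InfinitePlace K → ℤ)) (e : ℕ) :
    ∑ k ∈ A ×ˢ B, (1 / (Ideal.absNorm k.1 : ℝ) * rp (Ideal.absNorm k.1) M) *
      (PT fun v => (2 : ℝ) ^ (k.2 v)) ^ e =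
      (∑ I ∈ A, 1 / (Ideal.absNorm I : ℝ) * rp (Ideal.absNorm I) M) *
        ∑ b ∈ B, (PT fun v => (2 : ℝ) ^ (b v)) ^ e := by
  rw [Finset.sum_product, Finset.sum_mul_sum]

/-- the main sum -/
theorem CPA_main {e m1 X M : ℕ} (he : 1 ≤ e) (hm1 : 1 ≤ m1) (hX : 1 ≤ X) (hMM : 1 ≤ M)
    {Cs Cd : ℝ} (hCs : 0 < Cs) (hCd : 0 < Cd)
    (hS : ∀ (z : ℕ) (S : Finset (Ideal (𝓞 K))), 1 ≤ z → (∀ I ∈ S, z ≤ Ideal.absNorm I) →
      ∑ I ∈ S, (1 / (Ideal.absNorm I : ℝ)) * rp (Ideal.absNorm I) M ≤ Cs * rp z M)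
    (hD : ∀ (e j : ℕ) (N₁ N₀ : ℤ), 1 ≤ e →
      (∑ b ∈ Fintype.piFinset (fun _ : InfinitePlace K => Finset.Icc N₁ N₀),
        PT (fun v => (2 : ℝ) ^ (b v)) ^ e ≤ Cd * ((2 : ℝ) ^ N₀) ^ (e * dg K)) ∧
      (∑ b ∈ (Fintype.piFinset (fun _ : InfinitePlace K => Finset.Icc N₁ N₀)).filter
          (fun b => ∃ v, b v ≤ N₀ - j),
        PT (fun v => (2 : ℝ) ^ (b v)) ^ e ≤ Cd / 2 ^ j * ((2 : ℝ) ^ N₀) ^ (e * dg K)))
    {x : Fin s → 𝓞 K} (hx : ∀ v : InfinitePlace K, vs v x ≤ X)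
    (G : Finset (Fin s → 𝓞 K)) (hG : ∀ y ∈ G, ¬ Par x y ∧ ∀ v : InfinitePlace K, vs v y ≤ X)
    (hm : m1 = 1 ∨ ∀ y ∈ G, m1 < wn x y ∨ ∃ v : InfinitePlace K, m1 * wv v x y < (X : ℝ) ^ 2) :
    ∑ k ∈ G.image (PS_key x), (1 / (Ideal.absNorm k.1 : ℝ) * rp (Ideal.absNorm k.1) M) *
      (PT fun v => (2 : ℝ) ^ (k.2 v)) ^ e ≤
      3 * Cs * Cd * rp m1 M * (4 * (X : ℝ) ^ 2) ^ (e * dg K) := by
  have hXr : (0 : ℝ) < X := by exact_mod_cast hX
  have hm1r : (1 : ℝ) ≤ m1 := by exact_mod_cast hm1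
  set N₀ : ℤ := Int.clog 2 (2 * (X : ℝ) ^ 2) with hN₀
  set N₁ : ℤ := -((dg K : ℤ) * N₀) with hN₁
  set BB : Finset (InfinitePlace K → ℤ) :=
    Fintype.piFinset (fun _ : InfinitePlace K => Finset.Icc N₁ N₀) with hBB
  set II : Finset (Ideal (𝓞 K)) := G.image (gI x) with hII
  have hN0 : (2 : ℝ) ^ N₀ ≤ 4 * (X : ℝ) ^ 2 := by
    have h1 := Int.zpow_pred_clog_lt_self (b := 2) (by norm_num)
      (show (0 : ℝ) < 2 * (X : ℝ) ^ 2 by positivity)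
    rw [Nat.cast_ofNat, zpow_sub_one₀ (by norm_num)] at h1
    rw [← hN₀] at h1
    linarith
  have hN0' : 2 * (X : ℝ) ^ 2 ≤ (2 : ℝ) ^ N₀ := by
    have h := Int.self_le_zpow_clog (b := 2) (by norm_num) (2 * (X : ℝ) ^ 2)
    rw [Nat.cast_ofNat] at h
    exact h
  have hpw : ((2 : ℝ) ^ N₀) ^ (e * dg K) ≤ (4 * (X : ℝ) ^ 2) ^ (e * dg K) :=
    pow_le_pow_left₀ (by positivity) hN0 _
  set Z : ℝ := (4 * (X : ℝ) ^ 2) ^ (e * dg K) with hZ
  have hZ0 : 0 ≤ Z := by positivity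
  have hImem : ∀ I ∈ II, 1 ≤ Ideal.absNorm I := by
    intro I hI
    obtain ⟨y, hy, rfl⟩ := Finset.mem_image.1 hI
    exact wn_pos (hG y hy).1
  have hbmem : ∀ y ∈ G, PS_b x y ∈ BB := fun y hy => PS_b_mem hX hx (hG y hy).2 (hG y hy).1
  have hIall : ∑ I ∈ II, 1 / (Ideal.absNorm I : ℝ) * rp (Ideal.absNorm I) M ≤ Cs := by
    have := hS 1 II le_rfl hImem
    rwa [Nat.cast_one, CPA_rp_one, mul_one] at this
  have hball : ∑ b ∈ BB, PT (fun v => (2 : ℝ) ^ (b v)) ^ e ≤ Cd * Z :=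
    (hD e 0 N₁ N₀ he).1.trans (mul_le_mul_of_nonneg_left hpw hCd.le)
  have hterm : ∀ k ∈ II ×ˢ BB, 0 ≤ (1 / (Ideal.absNorm k.1 : ℝ) * rp (Ideal.absNorm k.1) M) *
      (PT fun v => (2 : ℝ) ^ (k.2 v)) ^ e := by
    intro k hk
    have h1 : (0 : ℝ) < Ideal.absNorm k.1 := by
      exact_mod_cast hImem _ (Finset.mem_product.1 hk).1
    have h2 := CPA_rp_pos h1 M
    have h3 := PS_PT_pos (K := K) k.2
    positivity
  have hb0 : ∀ B : Finset (InfinitePlace K → ℤ),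
      0 ≤ ∑ b ∈ B, PT (fun v => (2 : ℝ) ^ (b v)) ^ e := fun B =>
    Finset.sum_nonneg fun b _ => pow_nonneg (PS_PT_pos (K := K) b).le _
  have hrm : 0 < rp (m1 : ℝ) M := CPA_rp_pos (by linarith) M
  rcases hm with hm | hm
  · have hsub : G.image (PS_key x) ⊆ II ×ˢ BB := by
      intro k hk
      obtain ⟨y, hy, rfl⟩ := Finset.mem_image.1 hk
      exact Finset.mem_product.2 ⟨Finset.mem_image_of_mem _ hy, hbmem y hy⟩
    refine (Finset.sum_le_sum_of_subset_of_nonneg hsub fun k hk _ => hterm k hk).trans ?_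
    rw [CPA_prod, hm, Nat.cast_one, CPA_rp_one, mul_one]
    have h1 := mul_le_mul hIall hball (hb0 BB) hCs.le
    have h2 : 0 ≤ Cs * (Cd * Z) := by positivity
    linarith
  · set j : ℕ := Nat.log 2 m1 with hj
    have hj1 : 2 ^ j ≤ m1 := Nat.pow_log_le_self 2 (by omega)
    have hj2 : m1 < 2 ^ (j + 1) := Nat.lt_pow_succ_log_self (by norm_num) m1
    have hj1r : (2 : ℝ) ^ j ≤ m1 := by exact_mod_cast hj1
    have hj2r : (m1 : ℝ) < 2 * 2 ^ j := by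
      have : (m1 : ℝ) < 2 ^ (j + 1) := by exact_mod_cast hj2
      rwa [pow_succ, mul_comm] at this
    set I1 := II.filter fun I => m1 ≤ Ideal.absNorm I with hI1
    set B1 := BB.filter fun b => ∃ v, b v ≤ N₀ - j with hB1
    have hsub : G.image (PS_key x) ⊆ I1 ×ˢ BB ∪ II ×ˢ B1 := by
      intro k hk
      obtain ⟨y, hy, rfl⟩ := Finset.mem_image.1 hk
      rw [Finset.mem_union, Finset.mem_product, Finset.mem_product]
      rcases hm y hy with h | ⟨v, hv⟩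
      · left
        exact ⟨Finset.mem_filter.2 ⟨Finset.mem_image_of_mem _ hy, h.le⟩, hbmem y hy⟩
      · right
        refine ⟨Finset.mem_image_of_mem _ hy, Finset.mem_filter.2 ⟨hbmem y hy, v, ?_⟩⟩
        have h1 := PS_lt x y v (hG y hy).1
        have h2 : (2 : ℝ) ^ (PS_b x y v) * 2 ^ j < (2 : ℝ) ^ N₀ := by
          have h3 : (2 : ℝ) ^ (PS_b x y v) * 2 ^ j ≤ (2 : ℝ) ^ (PS_b x y v) * m1 :=
            mul_le_mul_of_nonneg_left hj1r (by positivity)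
          have h4 : (2 : ℝ) ^ (PS_b x y v) * m1 < 2 * wv v x y * m1 :=
            mul_lt_mul_of_pos_right h1 (by linarith)
          nlinarith
        have h3 : (2 : ℝ) ^ (PS_b x y v + j) < (2 : ℝ) ^ N₀ := by
          rw [zpow_add₀ (by norm_num), zpow_natCast]
          exact h2
        have h4 := (zpow_lt_zpow_iff_right₀ (by norm_num : (1 : ℝ) < 2)).1 h3
        show PS_b x y v ≤ N₀ - j
        omega
    have hsub1 : I1 ×ˢ BB ⊆ II ×ˢ BB :=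
      Finset.product_subset_product (Finset.filter_subset _ _) (Finset.Subset.refl _)
    have hsub2 : II ×ˢ B1 ⊆ II ×ˢ BB :=
      Finset.product_subset_product (Finset.Subset.refl _) (Finset.filter_subset _ _)
    refine (Finset.sum_le_sum_of_subset_of_nonneg hsub fun k hk _ =>
      hterm k (Finset.union_subset hsub1 hsub2 hk)).trans ?_
    have hun : ∑ k ∈ I1 ×ˢ BB ∪ II ×ˢ B1,
        (1 / (Ideal.absNorm k.1 : ℝ) * rp (Ideal.absNorm k.1) M) *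
        (PT fun v => (2 : ℝ) ^ (k.2 v)) ^ e ≤
        ∑ k ∈ I1 ×ˢ BB, (1 / (Ideal.absNorm k.1 : ℝ) * rp (Ideal.absNorm k.1) M) *
          (PT fun v => (2 : ℝ) ^ (k.2 v)) ^ e +
        ∑ k ∈ II ×ˢ B1, (1 / (Ideal.absNorm k.1 : ℝ) * rp (Ideal.absNorm k.1) M) *
          (PT fun v => (2 : ℝ) ^ (k.2 v)) ^ e := by
      rw [← Finset.sum_union_inter]
      exact le_add_of_nonneg_right (Finset.sum_nonneg fun k hk =>
        hterm k (hsub1 (Finset.mem_inter.1 hk).1))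
    refine hun.trans ?_
    rw [CPA_prod, CPA_prod]
    have g1 : ∑ I ∈ I1, 1 / (Ideal.absNorm I : ℝ) * rp (Ideal.absNorm I) M ≤ Cs * rp m1 M :=
      hS m1 I1 hm1 fun I hI => (Finset.mem_filter.1 hI).2
    have g2 : ∑ b ∈ B1, PT (fun v => (2 : ℝ) ^ (b v)) ^ e ≤ Cd * 2 * rp m1 M * Z := by
      refine (hD e j N₁ N₀ he).2.trans ?_
      refine mul_le_mul ?_ hpw (by positivity) (by positivity)
      have q1 := CPA_inv_le_rp hm1r hMM
      have q2 : Cd / 2 ^ j ≤ Cd * 2 * (1 / m1) := by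
        rw [mul_one_div, div_le_div_iff₀ (by positivity) (by linarith)]
        nlinarith
      exact q2.trans (mul_le_mul_of_nonneg_left q1 (by positivity))
    have g3 := mul_le_mul g1 hball (hb0 BB) (by positivity)
    have g4 := mul_le_mul hIall g2 (hb0 B1) hCs.le
    have g5 : Cs * rp m1 M * (Cd * Z) + Cs * (Cd * 2 * rp m1 M * Z) =
      3 * Cs * Cd * rp m1 M * Z := by ring
    linarith

end CPA

theorem thm_CPA (hM3 : St_M3) (hDYB : St_DYB) (hIDR : St_IDR) : St_CPA := by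
  intro K _ _ s M hs hMM
  obtain ⟨C3, hC3, hM⟩ := hM3 K s (by omega)
  obtain ⟨Cs, hCs, hS⟩ := hIDR K M hMM
  obtain ⟨Cd, hCd, hD⟩ := hDYB K
  set cA : ℝ := C3 * 2 ^ dg K * (3 * Cs * Cd) * (4 ^ (s - 2)) ^ dg K with hcA
  have hcA0 : 0 < cA := by positivity
  refine ⟨C3 + cA, by positivity, ?_⟩
  intro X Y L Z x hX hY hL hxp hxv hWR hxl hZ hCZ
  have hXr : (0 : ℝ) < X := by exact_mod_cast hX
  have hCZ' : C3 * Z ^ 2 ≤ ((X : ℝ) * L) ^ dg K := by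
    refine le_trans ?_ hCZ
    have : 0 ≤ cA * Z ^ 2 := by positivity
    linarith
  have main : ∀ (m1 : ℕ) (G : Finset (Fin s → 𝓞 K)), 1 ≤ m1 →
      (∀ y ∈ G, y ∈ bx K s (X : ℝ) ∧ ¬ Par x y ∧ (wn x y : ℝ) ≤ Z ∧
        ((X : ℝ) ^ 2) ^ dg K ≤ Z * wp x y) →
      (m1 = 1 ∨ ∀ y ∈ G, m1 < wn x y ∨ ∃ v : InfinitePlace K, m1 * wv v x y < (X : ℝ) ^ 2) →
      ∑ y ∈ G, (wn x y : ℝ) * ((X : ℝ) ^ 2) ^ dg K / wp x y * rp (wn x y) M ≤
        (C3 + cA) * rp m1 M * ((X : ℝ) ^ s) ^ dg K := by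
    intro m1 G hm1 hGG hm
    have hm1r : (0 : ℝ) < m1 := by exact_mod_cast hm1
    have h1 := CPA_groups (M := M) hs hC3 hX hL hZ hCZ' (fun v => (hxv v).2)
      (fun B I hB hI hne => (hM X Y L x B I hX hY hL hxp hxv hWR hxl hB hI hne).1) G
      (fun y hy => ⟨(hGG y hy).2.1, (mem_bx hXr.le).1 (hGG y hy).1, (hGG y hy).2.2.1,
        (hGG y hy).2.2.2⟩)
    have h2 := CPA_main (M := M) (e := s - 2) (by omega) hm1 hX hMM hCs hCd hS hD
      (fun v => (hxv v).2) G (fun y hy => ⟨(hGG y hy).2.1, (mem_bx hXr.le).1 (hGG y hy).1⟩) hm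
    have h3 : 0 ≤ C3 * 2 ^ dg K * ((X : ℝ) ^ 2) ^ dg K / ((X : ℝ) ^ (s - 2)) ^ dg K := by
      positivity
    refine h1.trans ((mul_le_mul_of_nonneg_left h2 h3).trans ?_)
    have e1 : (4 * (X : ℝ) ^ 2) ^ ((s - 2) * dg K) =
        (4 ^ (s - 2)) ^ dg K * (((X : ℝ) ^ (s - 2)) ^ dg K * ((X : ℝ) ^ (s - 2)) ^ dg K) := by
      have g : ((X : ℝ) ^ 2) ^ (s - 2) = (X : ℝ) ^ (s - 2) * (X : ℝ) ^ (s - 2) := by
        rw [pow_two, mul_pow]
      rw [pow_mul, mul_pow, mul_pow, g, mul_pow]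
    have e2 : ((X : ℝ) ^ s) ^ dg K = ((X : ℝ) ^ 2) ^ dg K * ((X : ℝ) ^ (s - 2)) ^ dg K := by
      rw [← mul_pow, ← pow_add]
      congr 2
      omega
    have e3 : C3 * 2 ^ dg K * ((X : ℝ) ^ 2) ^ dg K / ((X : ℝ) ^ (s - 2)) ^ dg K *
        (3 * Cs * Cd * rp m1 M * (4 * (X : ℝ) ^ 2) ^ ((s - 2) * dg K)) =
        cA * rp m1 M * ((X : ℝ) ^ s) ^ dg K := by
      rw [e1, e2, hcA]
      field_simp
    rw [e3]
    have h4 := CPA_rp_pos hm1r M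
    refine mul_le_mul_of_nonneg_right ?_ (by positivity)
    refine mul_le_mul_of_nonneg_right ?_ h4.le
    linarith
  constructor
  · have h := main 1 ((bx K s (X : ℝ)).filter fun y => ¬ Par x y ∧ (wn x y : ℝ) ≤ Z ∧
      ((X : ℝ) ^ 2) ^ dg K ≤ Z * wp x y) le_rfl (fun y hy => Finset.mem_filter.1 hy) (Or.inl rfl)
    rwa [Nat.cast_one, CPA_rp_one, mul_one] at h
  · intro m1 hm1
    refine main m1 _ hm1 (fun y hy => ?_) (Or.inr fun y hy => ?_)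
    · obtain ⟨h1, h2, -⟩ := Finset.mem_filter.1 hy
      exact ⟨h1, h2⟩
    · exact (Finset.mem_filter.1 hy).2.2

end Pool.Agent.RHC
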