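import Pool.Agent.RHC.StA
import Pool.Agent.RHK.EXC

/-!
RHC [CPARL]: parallel pairs (helper67).
-/

set_option autoImplicit false

namespace Pool.Agent.RHC

open scoped BigOperators
open Classical NumberField IsDedekindDomain
open Pool.Agent.RHP (Mon mono ev Prim)
open Pool.Agent.RHK

/-- values at parallel points are proportional -/
theorem CPARL_par {K : Type} [Field K] [NumberField K] {s : ℕ} {x y : Fin s → 𝓞 K} (hx : Prim x)
    (hp : Par x y) (d : ℕ) : ∃ e : 𝓞 K, ∀ f : Mon s d → 𝓞 K, ev f y = e * ev f x := by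
  obtain ⟨c, hc⟩ := hx
  have hy : ∀ j, y j = (∑ i, c i * y i) * x j := by
    intro j
    have h2 : ∀ i, x i * y j = x j * y i := fun i => by
      have := hp (i, j)
      unfold mn at this
      exact sub_eq_zero.1 this
    calc y j = (∑ i, c i * x i) * y j := by rw [hc, one_mul]
      _ = ∑ i, c i * (x i * y j) := by
        rw [Finset.sum_mul]
        exact Finset.sum_congr rfl fun i _ => mul_assoc _ _ _
      _ = ∑ i, c i * y i * x j := by
        refine Finset.sum_congr rfl fun i _ => ?_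
        rw [h2 i]
        ring
      _ = (∑ i, c i * y i) * x j := by rw [Finset.sum_mul]
  refine ⟨(∑ i, c i * y i) ^ d, fun f => ?_⟩
  rw [← Pool.Agent.RHP.ev_smul_pt]
  congr 1
  funext j
  exact hy j

/-- the number of the `k`-th roots -/
theorem CPARL_root {K : Type} [Field K] [NumberField K] (S : Finset (𝓞 K)) {k : ℕ} (hk : 0 < k)
    (a : 𝓞 K) : (S.filter fun w => w ^ k = a).card ≤ k := by
  have h1 : (S.filter fun w => w ^ k = a) ⊆ (Polynomial.nthRoots k a).toFinset := by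
    intro w hw
    rw [Multiset.mem_toFinset, Polynomial.mem_nthRoots hk]
    exact (Finset.mem_filter.1 hw).2
  exact (Finset.card_le_card h1).trans
    ((Multiset.toFinset_card_le _).trans (Polynomial.card_nthRoots k a))

/-- the estimate for one pair of parallel points -/
theorem CPARL_pair (hPHI : St_PHI) (hDLT : St_DLT) {K : Type} [Field K] [NumberField K]
    {s d k H Θ W : ℕ} (hk : 0 < k) (hH : 1 ≤ H) (hW : 0 < W) {x y : Fin s → 𝓞 K} (hx : Prim x)
    (hp : Par x y) (B : Finset (𝓞 K)) (M : ℝ) (hM0 : 0 ≤ M) (hT : 0 < (TS K Θ W).card)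
    (hM : ∀ a : 𝓞 K, 2 * (c1 (d := d) (3 * H) x a : ℝ) ≤ M) :
    ∑ q ∈ B ×ˢ B,
        (∑ f ∈ box K s d (2 * H), Ph H f * (dlt (q.1 ^ k) x f * dlt (q.2 ^ k) y f) +
        ∑ f ∈ box K s d (2 * H), Ph H f *
          (lmt Θ W (q.1 ^ k) x f * lmt Θ W (q.2 ^ k) y f)) ≤
      (B.card : ℝ) * (k * M) + (B.card : ℝ) ^ 2 * (M / (TS K Θ W).card) := by
  obtain ⟨e, he⟩ := CPARL_par hx hp d
  obtain ⟨-, -, hP3, -⟩ := hPHI K s d H hH
  have hcP : ∀ a b : 𝓞 K, cP d H x y a b ≤ if b = e * a then M else 0 := by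
    intro a b
    by_cases hb : b = e * a
    · rw [if_pos hb]
      refine le_trans (hP3 x y a b).2 (le_trans ?_ (hM a))
      have : c2 (d := d) (3 * H) x y a b ≤ c1 (d := d) (3 * H) x a := by
        unfold c1 c2
        refine Finset.card_le_card fun f hf => ?_
        rw [Finset.mem_filter] at hf ⊢
        exact ⟨hf.1, hf.2.1⟩
      have h2 : (c2 (d := d) (3 * H) x y a b : ℝ) ≤ c1 (d := d) (3 * H) x a := by
        exact_mod_cast this
      linarith
    · rw [if_neg hb]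
      unfold cP
      rw [Finset.filter_false_of_mem, Finset.sum_empty]
      intro f _ hf
      apply hb
      rw [← hf.1, ← hf.2]
      exact he f
  rw [Finset.sum_add_distrib]
  refine add_le_add ?_ ?_
  · have h1 : ∀ q ∈ B ×ˢ B,
        ∑ f ∈ box K s d (2 * H), Ph H f * (dlt (q.1 ^ k) x f * dlt (q.2 ^ k) y f) ≤
          if q.2 ^ k = e * q.1 ^ k then M else 0 := by
      intro q _
      rw [(hDLT K s d H Θ W x y (q.1 ^ k) (q.2 ^ k) hW).1]
      exact hcP _ _
    refine le_trans (Finset.sum_le_sum h1) ?_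
    rw [Finset.sum_product]
    have h2 : ∀ w ∈ B, ∑ w' ∈ B, (if w' ^ k = e * w ^ k then M else 0) ≤ k * M := by
      intro w _
      rw [← Finset.sum_filter, Finset.sum_const, nsmul_eq_mul]
      refine mul_le_mul_of_nonneg_right ?_ hM0
      exact_mod_cast CPARL_root B hk (e * w ^ k)
    refine le_trans (Finset.sum_le_sum h2) ?_
    rw [Finset.sum_const, nsmul_eq_mul]
  · have hTR : (0 : ℝ) < (TS K Θ W).card := by exact_mod_cast hT
    have h1 : ∀ q ∈ B ×ˢ B,
        ∑ f ∈ box K s d (2 * H), Ph H f * (lmt Θ W (q.1 ^ k) x f * lmt Θ W (q.2 ^ k) y f) ≤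
          M / (TS K Θ W).card := by
      intro q _
      rw [(hDLT K s d H Θ W x y (q.1 ^ k) (q.2 ^ k) hW).2.1]
      have h2 : ∑ p ∈ TS K Θ W ×ˢ TS K Θ W, cP d H x y (q.1 ^ k + p.1) (q.2 ^ k + p.2) ≤
          (TS K Θ W).card * M := by
        refine le_trans (Finset.sum_le_sum (fun p _ => hcP _ _)) ?_
        rw [Finset.sum_product]
        have h3 : ∀ u ∈ TS K Θ W, ∑ v ∈ TS K Θ W,
            (if q.2 ^ k + v = e * (q.1 ^ k + u) then M else 0) ≤ M := by
          intro u _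
          rw [← Finset.sum_filter, Finset.sum_const, nsmul_eq_mul]
          have h4 : ((TS K Θ W).filter fun v => q.2 ^ k + v = e * (q.1 ^ k + u)).card ≤ 1 := by
            rw [Finset.card_le_one]
            intro v hv v' hv'
            have e1 := (Finset.mem_filter.1 hv).2
            have e2 := (Finset.mem_filter.1 hv').2
            exact add_left_cancel (e1.trans e2.symm)
          have h5 : (((TS K Θ W).filter fun v => q.2 ^ k + v = e * (q.1 ^ k + u)).card : ℝ) ≤ 1 := by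
            exact_mod_cast h4
          calc _ ≤ 1 * M := mul_le_mul_of_nonneg_right h5 hM0
            _ = M := one_mul M
        refine le_trans (Finset.sum_le_sum h3) ?_
        rw [Finset.sum_const, nsmul_eq_mul]
      calc 1 / ((TS K Θ W).card : ℝ) ^ 2 *
            ∑ p ∈ TS K Θ W ×ˢ TS K Θ W, cP d H x y (q.1 ^ k + p.1) (q.2 ^ k + p.2)
          ≤ 1 / ((TS K Θ W).card : ℝ) ^ 2 * ((TS K Θ W).card * M) :=
            mul_le_mul_of_nonneg_left h2 (by positivity)
        _ = M / (TS K Θ W).card := by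
            field_simp
    refine le_trans (Finset.sum_le_sum h1) (le_of_eq ?_)
    rw [Finset.sum_const, nsmul_eq_mul, Finset.card_product]
    push_cast
    ring

/-- [CPARL] -/
theorem thm_CPARL (hCB : St_CB) (hPHI : St_PHI) (hDLT : St_DLT) (hTSC : St_TSC) (hPAR : St_PAR)
    (hPBC : Pool.Agent.RHM.St_PBC) (hIDU : St_IDU) : St_CPARL := by
  intro K _ _ s k m A hyp hA
  obtain ⟨C1, hC1, h1⟩ := hCB K s k m hyp
  obtain ⟨Cp, hp⟩ := hPAR K s
  obtain ⟨Cb, hCb, hb⟩ := EXC_pb hIDU K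
  obtain ⟨Cg, hCg, hg⟩ := hPBC K s
  have hk0 : 0 < k := by have := hyp.hk; omega
  have hkR : (0 : ℝ) < k := by exact_mod_cast hk0
  have hAR : (1 : ℝ) ≤ A := by exact_mod_cast hA
  refine ⟨2 * Cg * (Cp + 1) * (Cb * k + Cb ^ 2) * C1 * (A : ℝ) ^ dg K, by positivity,
    fun c v κ W par hκ hW => ?_⟩
  obtain ⟨t0, h2⟩ := h1 c v par
  refine ⟨max t0 (κ * W * A), fun t ht V H hR => ?_⟩
  have ht0 : t0 ≤ t := (le_max_left _ _).trans ht
  have ht1 : κ * W * A ≤ t := (le_max_right _ _).trans ht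
  have htp : 1 ≤ t := le_trans (Nat.mul_pos (Nat.mul_pos hκ hW) hA) ht1
  have h3 := h2 t ht0 V H hR
  have hV1 : 1 ≤ V := le_trans (Nat.one_le_pow _ _ htp) hR.1
  have hVH : V ^ k ≤ H := hR.2.2.1
  have hH1 : 1 ≤ H := le_trans (Nat.one_le_pow _ _ hV1) hVH
  have hX1 : 1 ≤ XC s c t := Nat.one_le_pow _ _ htp
  have htX : t ≤ XC s c t := by
    unfold XC
    exact Nat.le_self_pow (by omega) t
  set X := XC s c t with hX
  set U := UC s m A c t V with hU
  have hUd : U = A * X ^ m * V := rfl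
  have hm := hyp.hm
  have hk2 := hyp.hk
  have hU1 : 1 ≤ U := Nat.mul_pos (Nat.mul_pos hA (Nat.pow_pos hX1)) hV1
  -- the size of the local model
  have hkey : κ * W * U ≤ H * X ^ (k * m) := by
    have e1 : 1 ≤ V * X ^ m := Nat.mul_pos hV1 (Nat.pow_pos hX1)
    have e2 : (V * X ^ m) ^ 2 ≤ (V * X ^ m) ^ k := Nat.pow_le_pow_right e1 hk2
    have e3 : (V * X ^ m) ^ k = V ^ k * X ^ (k * m) := by
      rw [mul_pow, ← pow_mul, mul_comm m k]
    have e4 : κ * W * A ≤ V * X ^ m := by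
      calc κ * W * A ≤ t := ht1
        _ ≤ X := htX
        _ ≤ X ^ m := Nat.le_self_pow (by omega) X
        _ ≤ V * X ^ m := Nat.le_mul_of_pos_left _ hV1
    calc κ * W * U = (κ * W * A) * (V * X ^ m) := by rw [hUd]; ring
      _ ≤ (V * X ^ m) * (V * X ^ m) := Nat.mul_le_mul_right _ e4
      _ = (V * X ^ m) ^ 2 := by ring
      _ ≤ (V * X ^ m) ^ k := e2
      _ = V ^ k * X ^ (k * m) := e3
      _ ≤ H * X ^ (k * m) := Nat.mul_le_mul_right _ hVH
  have hTh : U ≤ ThC s c t H κ (k * m) / W := by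
    unfold ThC
    rw [Nat.div_div_eq_div_mul, Nat.le_div_iff_mul_le (Nat.mul_pos hκ hW)]
    calc U * (κ * W) = κ * W * U := by ring
      _ ≤ _ := hkey
  set Θ := ThC s c t H κ (k * m) with hΘ
  obtain ⟨hTc, -⟩ := hTSC K Θ W hW
  have hTU : U ^ dg K ≤ (TS K Θ W).card := by
    rw [hTc]
    exact Nat.pow_le_pow_left (by omega) _
  have hTpos : 0 < (TS K Θ W).card := lt_of_lt_of_le (Nat.pow_pos hU1) hTU
  -- the sizes
  have hXR : (1 : ℝ) ≤ X := by exact_mod_cast hX1
  have hHR : (1 : ℝ) ≤ H := by exact_mod_cast hH1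
  have hUR : (1 : ℝ) ≤ U := by exact_mod_cast hU1
  have hVR : (1 : ℝ) ≤ V := by exact_mod_cast hV1
  have hX0 : (0 : ℝ) < X := by linarith
  have hH0 : (0 : ℝ) < H := by linarith
  have hU0 : (0 : ℝ) < U := by linarith
  have hV0 : (0 : ℝ) < V := by linarith
  have hA0 : (0 : ℝ) < A := by linarith
  set N : ℝ := ((box K s (k * m) H).card : ℝ) with hN
  have hN0 : 0 ≤ N := Nat.cast_nonneg _
  set D : ℝ := ((H : ℝ) * (X : ℝ) ^ (k * m)) ^ dg K with hD
  have hD0 : 0 < D := by positivity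
  set M : ℝ := 2 * (C1 * N / D) with hM
  have hM0 : 0 ≤ M := by positivity
  set B := pb K ((U : ℕ) : ℝ) with hB
  have hBc : (B.card : ℝ) ≤ Cb * (U : ℝ) ^ dg K := hb _ hUR
  have hTR : (U : ℝ) ^ dg K ≤ ((TS K Θ W).card : ℝ) := by exact_mod_cast hTU
  have hTR0 : (0 : ℝ) < ((TS K Θ W).card : ℝ) := by exact_mod_cast hTpos
  have hUr : (0 : ℝ) < (U : ℝ) ^ dg K := by positivity
  have hpair : ∀ p ∈ (CG K s c t ×ˢ CG K s c t).filter (fun p => Par p.1 p.2),
      ∑ q ∈ B ×ˢ B,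
        (∑ f ∈ box K s (k * m) (2 * H), Ph H f * (dlt (q.1 ^ k) p.1 f * dlt (q.2 ^ k) p.2 f) +
        ∑ f ∈ box K s (k * m) (2 * H), Ph H f *
          (lmt Θ W (q.1 ^ k) p.1 f * lmt Θ W (q.2 ^ k) p.2 f)) ≤
      (Cb * k + Cb ^ 2) * (U : ℝ) ^ dg K * M := by
    intro p hpm
    rw [Finset.mem_filter, Finset.mem_product] at hpm
    have hx := (Finset.mem_filter.1 hpm.1.1).2
    have h4 := CPARL_pair (d := k * m) (Θ := Θ) hPHI hDLT hk0 hH1 hW hx.1 hpm.2 B M hM0 hTpos (by
      intro a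
      have h5 := (h3 p.1 hpm.1.1).1 a
      rw [hM]
      refine mul_le_mul_of_nonneg_left ?_ (by norm_num)
      rw [le_div_iff₀ hD0]
      exact h5)
    refine h4.trans ?_
    have h6 : (B.card : ℝ) * (k * M) ≤ Cb * (U : ℝ) ^ dg K * (k * M) :=
      mul_le_mul_of_nonneg_right hBc (by positivity)
    have h7 : (B.card : ℝ) ^ 2 * (M / (TS K Θ W).card) ≤
        (Cb * (U : ℝ) ^ dg K) ^ 2 * (M / (U : ℝ) ^ dg K) := by
      refine mul_le_mul ?_ ?_ (by positivity) (by positivity)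
      · exact pow_le_pow_left₀ (Nat.cast_nonneg _) hBc 2
      · exact div_le_div_of_nonneg_left hM0 hUr hTR
    have h8 : (Cb * (U : ℝ) ^ dg K) ^ 2 * (M / (U : ℝ) ^ dg K) =
        Cb ^ 2 * (U : ℝ) ^ dg K * M := by
      field_simp
    rw [h8] at h7
    calc _ ≤ Cb * (U : ℝ) ^ dg K * (k * M) + Cb ^ 2 * (U : ℝ) ^ dg K * M := add_le_add h6 h7
      _ = _ := by ring
  have hcount : (((CG K s c t ×ˢ CG K s c t).filter (fun p => Par p.1 p.2)).card : ℝ) ≤
      Cg * ((X : ℝ) ^ s) ^ dg K * (Cp + 1) := by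
    have e1 : ((CG K s c t ×ˢ CG K s c t).filter (fun p => Par p.1 p.2)).card =
        ∑ x ∈ CG K s c t, ((CG K s c t).filter fun y => Par x y).card := by
      rw [Finset.card_filter, Finset.sum_product]
      refine Finset.sum_congr rfl fun x _ => ?_
      rw [Finset.card_filter]
    have e2 : ∀ x ∈ CG K s c t, ((CG K s c t).filter fun y => Par x y).card ≤ Cp := by
      intro x hx
      have hx' := (Finset.mem_filter.1 hx).2
      refine le_trans (Finset.card_le_card ?_) (hp (X : ℝ) x hX0.le hx'.1 hx'.2.1)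
      intro y hy
      rw [Finset.mem_filter] at hy ⊢
      exact ⟨(Finset.mem_filter.1 hy.1).1, hy.2⟩
    have e3 : ((CG K s c t).card : ℝ) ≤ Cg * ((X : ℝ) ^ s) ^ dg K := by
      refine le_trans ?_ (hg X hX1)
      rw [Nat.cast_le]
      exact Finset.card_le_card (Finset.filter_subset _ _)
    have e4 : ((CG K s c t ×ˢ CG K s c t).filter (fun p => Par p.1 p.2)).card ≤
        (CG K s c t).card * Cp := by
      rw [e1]
      refine le_trans (Finset.sum_le_sum e2) ?_
      rw [Finset.sum_const, smul_eq_mul]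
    have e5 : (((CG K s c t ×ˢ CG K s c t).filter (fun p => Par p.1 p.2)).card : ℝ) ≤
        ((CG K s c t).card : ℝ) * Cp := by exact_mod_cast e4
    refine e5.trans ?_
    have e6 : (0 : ℝ) ≤ Cp := Nat.cast_nonneg _
    refine mul_le_mul e3 (by linarith) e6 (by positivity)
  refine le_trans (Finset.sum_le_sum hpair) ?_
  rw [Finset.sum_const, nsmul_eq_mul]
  have hfin : (((CG K s c t ×ˢ CG K s c t).filter (fun p => Par p.1 p.2)).card : ℝ) *
      ((Cb * k + Cb ^ 2) * (U : ℝ) ^ dg K * M) ≤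
      Cg * ((X : ℝ) ^ s) ^ dg K * (Cp + 1) * ((Cb * k + Cb ^ 2) * (U : ℝ) ^ dg K * M) :=
    mul_le_mul_of_nonneg_right hcount (by positivity)
  refine hfin.trans (le_of_eq ?_)
  have hEC : EC (dg K) s k m c t V H = ((X : ℝ) ^ s) ^ dg K * (((X : ℝ) ^ m) ^ dg K *
      (V : ℝ) ^ dg K) / D := by
    unfold EC
    rw [div_pow, mul_pow, mul_pow]
  have hUe : (U : ℝ) ^ dg K = (A : ℝ) ^ dg K * (((X : ℝ) ^ m) ^ dg K * (V : ℝ) ^ dg K) := by
    rw [hUd]
    push_cast
    rw [mul_pow, mul_pow]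
    ring
  rw [hEC, hUe, hM]
  field_simp

end Pool.Agent.RHC
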