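import Pool.Agent.RHC.StA
import Pool.Agent.RHK.PS

/-!
RHC [CPB]: the pair sum, the other groups (helper9; adapted from RHK/PS.lean).
-/

set_option autoImplicit false
set_option linter.unusedSectionVars false

namespace Pool.Agent.RHC

open scoped BigOperators
open Classical NumberField IsDedekindDomain
open Pool.Agent.RHP (Mon mono ev Prim)
open Pool.Agent.RHK

theorem cpb_rp_anti {a b : ℝ} (ha : 0 < a) (hab : a ≤ b) (M : ℕ) : rp b M ≤ rp a M := by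
  unfold rp
  refine Real.rpow_le_rpow_of_nonpos ha hab ?_
  exact div_nonpos_of_nonpos_of_nonneg (by norm_num) (Nat.cast_nonneg _)

theorem cpb_rp_nonneg (a : ℝ) (ha : 0 ≤ a) (M : ℕ) : 0 ≤ rp a M := Real.rpow_nonneg ha _

theorem cpb_rp_one (M : ℕ) : rp 1 M = 1 := Real.one_rpow _

theorem cpb_rp_inv {Z : ℝ} (hZ : 1 ≤ Z) {M : ℕ} (hM : 1 ≤ M) : 1 / Z ≤ rp Z M := by
  unfold rp
  rw [one_div, ← Real.rpow_neg_one]
  refine Real.rpow_le_rpow_of_exponent_le hZ ?_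
  have hMr : (1 : ℝ) ≤ M := by exact_mod_cast hM
  rw [le_div_iff₀ (by linarith)]
  linarith

section

variable {K : Type} [Field K] [NumberField K] {s : ℕ}

/-- the dyadic vectors -/
noncomputable def cpb_BB (K : Type) [Field K] [NumberField K] (X : ℕ) :
    Finset (InfinitePlace K → ℤ) :=
  Fintype.piFinset fun _ : InfinitePlace K =>
    Finset.Icc (-((dg K : ℤ) * Int.clog 2 (2 * (X : ℝ) ^ 2))) (Int.clog 2 (2 * (X : ℝ) ^ 2))

/-- their number -/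
theorem cpb_card {X : ℕ} (hX : 1 ≤ X) :
    ((cpb_BB K X).card : ℝ) ≤
      ((((1 + dg K) * 3 + 1 : ℕ) : ℝ) * ((1 : ℝ) + Nat.log 2 X)) ^ dg K := by
  unfold cpb_BB
  set N₀ : ℤ := Int.clog 2 (2 * (X : ℝ) ^ 2) with hN₀
  have hXr : (0 : ℝ) < X := by exact_mod_cast hX
  have h1 : N₀ ≤ ((1 + 2 * (Nat.log 2 X + 1) : ℕ) : ℤ) := by
    have h2 := Int.zpow_pred_clog_lt_self (b := 2) (by norm_num)
      (show (0 : ℝ) < 2 * (X : ℝ) ^ 2 by positivity)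
    rw [Nat.cast_ofNat, ← hN₀] at h2
    have h3 : 2 * (X : ℝ) ^ 2 ≤ (2 : ℝ) ^ ((1 + 2 * (Nat.log 2 X + 1) : ℕ) : ℤ) := by
      have h5 : X ≤ 2 ^ (Nat.log 2 X + 1) := (Nat.lt_pow_succ_log_self (by norm_num) X).le
      have h6 : 2 * X ^ 2 ≤ 2 ^ (1 + 2 * (Nat.log 2 X + 1)) := by
        rw [pow_add, pow_one, mul_comm 2 (Nat.log 2 X + 1), pow_mul]
        exact Nat.mul_le_mul_left _ (Nat.pow_le_pow_left h5 2)
      rw [zpow_natCast]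
      exact_mod_cast h6
    have h7 := (zpow_lt_zpow_iff_right₀ (by norm_num : (1 : ℝ) < 2)).1 (h2.trans_le h3)
    omega
  have h2 : N₀ + 1 - -((dg K : ℤ) * N₀) ≤
      ((((1 + dg K) * 3 + 1) * (1 + Nat.log 2 X) : ℕ) : ℤ) := by
    have h3 : (1 + (dg K : ℤ)) * N₀ ≤ (1 + (dg K : ℤ)) * ((1 + 2 * (Nat.log 2 X + 1) : ℕ) : ℤ) :=
      mul_le_mul_of_nonneg_left h1 (by positivity)
    push_cast at h3 ⊢
    have h4 : (0 : ℤ) ≤ (Nat.log 2 X : ℤ) := Int.natCast_nonneg _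
    have h5 : 0 ≤ (1 + (dg K : ℤ)) * (Nat.log 2 X : ℤ) := by positivity
    nlinarith
  rw [Fintype.card_piFinset, Finset.prod_const, Finset.card_univ, Int.card_Icc]
  have h3 : (N₀ + 1 - -((dg K : ℤ) * N₀)).toNat ≤ ((1 + dg K) * 3 + 1) * (1 + Nat.log 2 X) := by
    omega
  have h4 : (((N₀ + 1 - -((dg K : ℤ) * N₀)).toNat : ℕ) : ℝ) ≤
      (((1 + dg K) * 3 + 1 : ℕ) : ℝ) * ((1 : ℝ) + Nat.log 2 X) := by exact_mod_cast h3
  rw [Nat.cast_pow]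
  refine (pow_le_pow_left₀ (Nat.cast_nonneg _) h4 _).trans ?_
  refine pow_le_pow_right₀ ?_ PS_card_places
  have h5 : (1 : ℝ) ≤ (((1 + dg K) * 3 + 1 : ℕ) : ℝ) := by
    exact_mod_cast Nat.le_add_left 1 _
  have h6 : (0 : ℝ) ≤ (Nat.log 2 X : ℝ) := Nat.cast_nonneg _
  nlinarith

/-- one term -/
theorem cpb_term (x y : Fin s → 𝓞 K) (h : ¬ Par x y) (X M : ℕ) :
    (wn x y : ℝ) * ((X : ℝ) ^ 2) ^ dg K / wp x y * rp (wn x y) M ≤
      2 ^ dg K * ((X : ℝ) ^ 2) ^ dg K * ((Ideal.absNorm (PS_key x y).1 : ℝ) /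
        PT fun v => (2 : ℝ) ^ ((PS_key x y).2 v)) * rp (Ideal.absNorm (PS_key x y).1 : ℝ) M := by
  show (wn x y : ℝ) * ((X : ℝ) ^ 2) ^ dg K / wp x y * rp (wn x y) M ≤
      2 ^ dg K * ((X : ℝ) ^ 2) ^ dg K * ((wn x y : ℝ) /
        PT fun v => (2 : ℝ) ^ (PS_b x y v)) * rp (wn x y : ℝ) M
  refine mul_le_mul_of_nonneg_right ?_ (cpb_rp_nonneg _ (Nat.cast_nonneg _) M)
  have h2 : (0 : ℝ) ≤ wn x y := Nat.cast_nonneg _
  have e1 : 2 ^ dg K * ((X : ℝ) ^ 2) ^ dg K * ((wn x y : ℝ) /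
        PT fun v => (2 : ℝ) ^ (PS_b x y v)) = (2 ^ dg K * ((X : ℝ) ^ 2) ^ dg K * (wn x y : ℝ)) /
        PT fun v => (2 : ℝ) ^ (PS_b x y v) := by ring
  rw [e1, div_le_div_iff₀ (wp_pos h) (PS_PT_pos _)]
  have h1 := PS_wp x y h
  calc (wn x y : ℝ) * ((X : ℝ) ^ 2) ^ dg K * (PT fun v => (2 : ℝ) ^ (PS_b x y v)) ≤
      (wn x y : ℝ) * ((X : ℝ) ^ 2) ^ dg K * (2 ^ dg K * wp x y) :=
        mul_le_mul_of_nonneg_left h1 (by positivity)
    _ = 2 ^ dg K * ((X : ℝ) ^ 2) ^ dg K * (wn x y : ℝ) * wp x y := by ring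

/-- the groups -/
theorem cpb_groups {C3 : ℝ} (hC3 : 0 < C3) (hs : 3 ≤ s) (M : ℕ) {X Y : ℕ} (hX : 1 ≤ X)
    (hY : 1 ≤ Y) {x : Fin s → 𝓞 K} (hx : ∀ v : InfinitePlace K, vs v x ≤ X)
    (hM : ∀ (B : InfinitePlace K → ℝ) (I : Ideal (𝓞 K)),
      (∀ v, 0 < B v ∧ B v ≤ 4 * (X : ℝ) ^ 2) → I ≠ ⊥ → (PS_S X x B I).Nonempty →
      ((PS_S X x B I).card : ℝ) ≤
        C3 * (((Y : ℝ) / X) ^ dg K * PT B / Ideal.absNorm I) ^ (s - 1))
    (G : Finset (Fin s → 𝓞 K)) (hG : ∀ y ∈ G, ¬ Par x y ∧ ∀ v : InfinitePlace K, vs v y ≤ X) :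
    ∑ y ∈ G, (wn x y : ℝ) * ((X : ℝ) ^ 2) ^ dg K / wp x y * rp (wn x y) M ≤
      C3 * 2 ^ dg K * ((X : ℝ) ^ 2) ^ dg K * (((Y : ℝ) / X) ^ dg K) ^ (s - 1) *
        ∑ k ∈ G.image (PS_key x), (1 / (Ideal.absNorm k.1 : ℝ)) * rp (Ideal.absNorm k.1) M *
          (PT fun v => (2 : ℝ) ^ (k.2 v)) ^ (s - 2) := by
  have hXr : (0 : ℝ) < X := by exact_mod_cast hX
  have hYr : (0 : ℝ) < Y := by exact_mod_cast hY
  have key : ∀ k ∈ G.image (PS_key x), 1 ≤ (Ideal.absNorm k.1 : ℝ) ∧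
      (∀ v, 0 < (2 : ℝ) ^ (k.2 v) ∧ (2 : ℝ) ^ (k.2 v) ≤ 4 * (X : ℝ) ^ 2) ∧ k.1 ≠ ⊥ ∧
      (G.filter fun y => PS_key x y = k) ⊆ PS_S X x (fun v => (2 : ℝ) ^ (k.2 v)) k.1 ∧
      (PS_S X x (fun v => (2 : ℝ) ^ (k.2 v)) k.1).Nonempty := by
    intro k hk
    obtain ⟨y0, hy0, rfl⟩ := Finset.mem_image.1 hk
    obtain ⟨hp, hv⟩ := hG y0 hy0
    have hsub : ∀ y ∈ G.filter (fun y => PS_key x y = PS_key x y0),
        y ∈ PS_S X x (fun v => (2 : ℝ) ^ ((PS_key x y0).2 v)) (PS_key x y0).1 := by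
      intro y hy
      obtain ⟨h1, h2⟩ := Finset.mem_filter.1 hy
      obtain ⟨h3, h4⟩ := hG y h1
      unfold PS_S
      rw [Finset.mem_filter, mem_bx hXr.le]
      refine ⟨h4, h3, ?_, fun v => ?_⟩
      · rw [← h2]
        exact le_rfl
      · rw [← h2]
        exact PS_wv_le x y v
    refine ⟨?_, fun v => ⟨by positivity, ?_⟩, gI_ne_bot hp, hsub, y0, hsub y0
      (Finset.mem_filter.2 ⟨hy0, rfl⟩)⟩
    · show (1 : ℝ) ≤ wn x y0
      exact_mod_cast wn_pos hp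
    · have h1 := PS_lt x y0 v hp
      have h2 := wv_le_mul v x y0
      have h3 := mul_le_mul (hx v) (hv v) (vs_nonneg v y0) hXr.le
      show (2 : ℝ) ^ (PS_b x y0 v) ≤ 4 * (X : ℝ) ^ 2
      nlinarith
  rw [← Finset.sum_fiberwise_of_maps_to (g := PS_key x) (t := G.image (PS_key x))
    fun y hy => Finset.mem_image_of_mem _ hy, Finset.mul_sum]
  refine Finset.sum_le_sum fun k hk => ?_
  obtain ⟨k1, k2, k3, k4, k5⟩ := key k hk
  have h3 := hM _ k.1 k2 k3 k5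
  have hP : 0 < PT fun v => (2 : ℝ) ^ (k.2 v) := PS_PT_pos k.2
  set P : ℝ := PT fun v => (2 : ℝ) ^ (k.2 v) with hPdef
  set N : ℝ := (Ideal.absNorm k.1 : ℝ) with hN
  set S : ℝ := ((PS_S X x (fun v => (2 : ℝ) ^ (k.2 v)) k.1).card : ℝ) with hS
  have hS0 : 0 ≤ S := Nat.cast_nonneg _
  have hN0 : 0 < N := by linarith
  have hrp : 0 ≤ rp N M := cpb_rp_nonneg N hN0.le M
  have hsum : ∑ y ∈ G.filter (fun y => PS_key x y = k),
      (wn x y : ℝ) * ((X : ℝ) ^ 2) ^ dg K / wp x y * rp (wn x y) M ≤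
      S * (2 ^ dg K * ((X : ℝ) ^ 2) ^ dg K * (N / P) * rp N M) := by
    refine (Finset.sum_le_card_nsmul _ _ (2 ^ dg K * ((X : ℝ) ^ 2) ^ dg K * (N / P) * rp N M)
      fun y hy => ?_).trans ?_
    · obtain ⟨g1, g2⟩ := Finset.mem_filter.1 hy
      have g3 := cpb_term x y (hG y g1).1 X M
      rw [g2] at g3
      exact g3
    · rw [nsmul_eq_mul]
      refine mul_le_mul_of_nonneg_right ?_ (by positivity)
      exact Nat.cast_le.2 (Finset.card_le_card k4)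
  refine hsum.trans ?_
  obtain ⟨e, he⟩ : ∃ e, s = e + 3 := ⟨s - 3, by omega⟩
  have e1 : s - 1 = e + 1 + 1 := by omega
  have e2 : s - 2 = e + 1 := by omega
  rw [e1] at h3
  rw [e1, e2]
  calc S * (2 ^ dg K * ((X : ℝ) ^ 2) ^ dg K * (N / P) * rp N M) ≤
      (C3 * (((Y : ℝ) / X) ^ dg K * P / N) ^ (e + 1 + 1)) *
        (2 ^ dg K * ((X : ℝ) ^ 2) ^ dg K * (N / P) * rp N M) :=
        mul_le_mul_of_nonneg_right h3 (by positivity)
    _ = C3 * 2 ^ dg K * ((X : ℝ) ^ 2) ^ dg K * (((Y : ℝ) / X) ^ dg K) ^ (e + 1 + 1) *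
        ((1 / N) ^ e * ((1 / N) * rp N M * P ^ (e + 1))) := by
        have f1 : (((Y : ℝ) / X) ^ dg K * P / N) ^ (e + 1 + 1) =
            (((Y : ℝ) / X) ^ dg K) ^ (e + 1 + 1) * (P ^ (e + 1) * P) *
              ((1 / N) ^ e * (1 / N) * (1 / N)) := by
          rw [div_eq_mul_one_div, mul_pow, mul_pow, ← pow_succ, ← pow_succ, ← pow_succ]
        rw [f1]
        field_simp
    _ ≤ C3 * 2 ^ dg K * ((X : ℝ) ^ 2) ^ dg K * (((Y : ℝ) / X) ^ dg K) ^ (e + 1 + 1) *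
        (1 * ((1 / N) * rp N M * P ^ (e + 1))) := by
        refine mul_le_mul_of_nonneg_left (mul_le_mul_of_nonneg_right ?_ (by positivity))
          (by positivity)
        refine pow_le_one₀ (by positivity) ?_
        rw [div_le_one hN0]
        exact k1
    _ = _ := by rw [one_mul]

/-- a sum over a product -/
theorem cpb_prod (A : Finset (Ideal (𝓞 K))) (B : Finset (InfinitePlace K → ℤ)) (M e : ℕ) :
    ∑ k ∈ A ×ˢ B, (1 / (Ideal.absNorm k.1 : ℝ)) * rp (Ideal.absNorm k.1) M *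
        (PT fun v => (2 : ℝ) ^ (k.2 v)) ^ e =
      (∑ I ∈ A, (1 / (Ideal.absNorm I : ℝ)) * rp (Ideal.absNorm I) M) *
        ∑ b ∈ B, (PT fun v => (2 : ℝ) ^ (b v)) ^ e := by
  rw [Finset.sum_product, Finset.sum_mul_sum]

/-- the sum over the groups -/
theorem cpb_main {e X M : ℕ} (he : 1 ≤ e) (hMM : 1 ≤ M) (hX : 1 ≤ X) {Ci Cd Z : ℝ} (hCi : 0 < Ci)
    (hCd : 0 < Cd) (hZ : 1 ≤ Z)
    (hI : ∀ (z : ℕ) (S : Finset (Ideal (𝓞 K))), 1 ≤ z → (∀ I ∈ S, z ≤ Ideal.absNorm I) →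
      ∑ I ∈ S, (1 / (Ideal.absNorm I : ℝ)) * rp (Ideal.absNorm I) M ≤ Ci * rp z M)
    (hD : ∀ (N₁ N₀ : ℤ),
      (∑ b ∈ Fintype.piFinset (fun _ : InfinitePlace K => Finset.Icc N₁ N₀),
        PT (fun v => (2 : ℝ) ^ (b v)) ^ e ≤ Cd * ((2 : ℝ) ^ N₀) ^ (e * dg K)))
    {x : Fin s → 𝓞 K} (hx : ∀ v : InfinitePlace K, vs v x ≤ X)
    (G : Finset (Fin s → 𝓞 K)) (hG : ∀ y ∈ G, ¬ Par x y ∧ ∀ v : InfinitePlace K, vs v y ≤ X)
    (hm : ∀ y ∈ G, Z < wn x y ∨ Z * wp x y < ((X : ℝ) ^ 2) ^ dg K) :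
    ∑ k ∈ G.image (PS_key x), (1 / (Ideal.absNorm k.1 : ℝ)) * rp (Ideal.absNorm k.1) M *
      (PT fun v => (2 : ℝ) ^ (k.2 v)) ^ e ≤
      Ci * rp Z M * (Cd * (4 * (X : ℝ) ^ 2) ^ (e * dg K)) +
      Ci * (((((1 + dg K) * 3 + 1 : ℕ) : ℝ) * ((1 : ℝ) + Nat.log 2 X)) ^ dg K *
        ((2 ^ dg K * ((X : ℝ) ^ 2) ^ dg K) ^ e * rp Z M)) := by
  have hXr : (0 : ℝ) < X := by exact_mod_cast hX
  have hZ0 : 0 < Z := by linarith
  have hrpZ : 0 ≤ rp Z M := cpb_rp_nonneg Z hZ0.le M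
  set II : Finset (Ideal (𝓞 K)) := G.image (gI x) with hII
  set BB : Finset (InfinitePlace K → ℤ) := cpb_BB K X with hBB
  have hN0 : (2 : ℝ) ^ (Int.clog 2 (2 * (X : ℝ) ^ 2)) ≤ 4 * (X : ℝ) ^ 2 := by
    have h1 := Int.zpow_pred_clog_lt_self (b := 2) (by norm_num)
      (show (0 : ℝ) < 2 * (X : ℝ) ^ 2 by positivity)
    rw [Nat.cast_ofNat, zpow_sub_one₀ (by norm_num)] at h1
    linarith
  have hImem : ∀ I ∈ II, 1 ≤ Ideal.absNorm I := by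
    intro I hI
    obtain ⟨y, hy, rfl⟩ := Finset.mem_image.1 hI
    exact wn_pos (hG y hy).1
  have hbmem : ∀ y ∈ G, PS_b x y ∈ BB := fun y hy => PS_b_mem hX hx (hG y hy).2 (hG y hy).1
  have hIall : ∑ I ∈ II, (1 / (Ideal.absNorm I : ℝ)) * rp (Ideal.absNorm I) M ≤ Ci := by
    have := hI 1 II le_rfl hImem
    rwa [Nat.cast_one, cpb_rp_one, mul_one] at this
  have hIbig : ∑ I ∈ II.filter (fun I => Z < (Ideal.absNorm I : ℝ)),
      (1 / (Ideal.absNorm I : ℝ)) * rp (Ideal.absNorm I) M ≤ Ci * rp Z M := by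
    have h1 := hI ⌈Z⌉₊ (II.filter (fun I => Z < (Ideal.absNorm I : ℝ)))
      (Nat.one_le_iff_ne_zero.2 (Nat.ceil_pos.2 hZ0).ne') (fun I hI => by
        exact Nat.ceil_le.2 (Finset.mem_filter.1 hI).2.le)
    refine h1.trans (mul_le_mul_of_nonneg_left ?_ hCi.le)
    exact cpb_rp_anti hZ0 (Nat.le_ceil Z) M
  have hball : ∑ b ∈ BB, PT (fun v => (2 : ℝ) ^ (b v)) ^ e ≤
      Cd * (4 * (X : ℝ) ^ 2) ^ (e * dg K) :=
    (hD _ _).trans (mul_le_mul_of_nonneg_left (pow_le_pow_left₀ (by positivity) hN0 _) hCd.le)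
  have hidx : ∀ I : Ideal (𝓞 K), 0 ≤ (1 / (Ideal.absNorm I : ℝ)) * rp (Ideal.absNorm I) M :=
    fun I => mul_nonneg (by positivity) (cpb_rp_nonneg _ (Nat.cast_nonneg _) M)
  have hterm : ∀ k : Ideal (𝓞 K) × (InfinitePlace K → ℤ), 0 ≤ (1 / (Ideal.absNorm k.1 : ℝ)) *
      rp (Ideal.absNorm k.1) M * (PT fun v => (2 : ℝ) ^ (k.2 v)) ^ e := fun k =>
    mul_nonneg (hidx k.1) (pow_nonneg (PS_PT_pos k.2).le _)
  -- split
  rw [← Finset.sum_filter_add_sum_filter_not (G.image (PS_key x))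
    (fun k => Z < (Ideal.absNorm k.1 : ℝ))]
  refine add_le_add ?_ ?_
  · have hsub : (G.image (PS_key x)).filter (fun k => Z < (Ideal.absNorm k.1 : ℝ)) ⊆
        (II.filter (fun I => Z < (Ideal.absNorm I : ℝ))) ×ˢ BB := by
      intro k hk
      obtain ⟨hk1, hk2⟩ := Finset.mem_filter.1 hk
      obtain ⟨y, hy, rfl⟩ := Finset.mem_image.1 hk1
      exact Finset.mem_product.2 ⟨Finset.mem_filter.2 ⟨Finset.mem_image_of_mem _ hy, hk2⟩,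
        hbmem y hy⟩
    refine (Finset.sum_le_sum_of_subset_of_nonneg hsub fun k _ _ => hterm k).trans ?_
    rw [cpb_prod]
    exact mul_le_mul hIbig hball (Finset.sum_nonneg fun b _ => pow_nonneg (PS_PT_pos b).le _)
      (by positivity)
  · have hsub : (G.image (PS_key x)).filter (fun k => ¬ Z < (Ideal.absNorm k.1 : ℝ)) ⊆
        II ×ˢ BB := by
      intro k hk
      obtain ⟨hk1, hk2⟩ := Finset.mem_filter.1 hk
      obtain ⟨y, hy, rfl⟩ := Finset.mem_image.1 hk1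
      exact Finset.mem_product.2 ⟨Finset.mem_image_of_mem _ hy, hbmem y hy⟩
    have hQ : ∀ k ∈ (G.image (PS_key x)).filter (fun k => ¬ Z < (Ideal.absNorm k.1 : ℝ)),
        (1 / (Ideal.absNorm k.1 : ℝ)) * rp (Ideal.absNorm k.1) M *
          (PT fun v => (2 : ℝ) ^ (k.2 v)) ^ e ≤
        (1 / (Ideal.absNorm k.1 : ℝ)) * rp (Ideal.absNorm k.1) M *
          ((2 ^ dg K * ((X : ℝ) ^ 2) ^ dg K) ^ e * rp Z M) := by
      intro k hk
      obtain ⟨hk1, hk2⟩ := Finset.mem_filter.1 hk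
      obtain ⟨y, hy, rfl⟩ := Finset.mem_image.1 hk1
      refine mul_le_mul_of_nonneg_left ?_ (hidx _)
      have h1 : Z * wp x y < ((X : ℝ) ^ 2) ^ dg K := by
        rcases hm y hy with h | h
        · exact absurd h hk2
        · exact h
      have h2 := PS_wp x y (hG y hy).1
      have h3 : (PT fun v => (2 : ℝ) ^ (PS_b x y v)) ≤
          (2 ^ dg K * ((X : ℝ) ^ 2) ^ dg K) * (1 / Z) := by
        refine h2.trans ?_
        rw [mul_assoc]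
        refine mul_le_mul_of_nonneg_left ?_ (by positivity)
        rw [mul_one_div, le_div_iff₀ hZ0]
        linarith
      have h4 : (PT fun v => (2 : ℝ) ^ (PS_b x y v)) ^ e ≤
          ((2 ^ dg K * ((X : ℝ) ^ 2) ^ dg K) * (1 / Z)) ^ e :=
        pow_le_pow_left₀ (PS_PT_pos _).le h3 e
      refine h4.trans ?_
      rw [mul_pow]
      refine mul_le_mul_of_nonneg_left ?_ (by positivity)
      have h5 : (1 / Z) ^ e ≤ (1 / Z) ^ 1 := by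
        refine pow_le_pow_of_le_one (by positivity) ?_ he
        rw [div_le_one hZ0]
        exact hZ
      rw [pow_one] at h5
      exact h5.trans (cpb_rp_inv hZ hMM)
    refine (Finset.sum_le_sum hQ).trans ?_
    have hQ0 : 0 ≤ (2 ^ dg K * ((X : ℝ) ^ 2) ^ dg K) ^ e * rp Z M := by positivity
    refine (Finset.sum_le_sum_of_subset_of_nonneg hsub fun k _ _ =>
      mul_nonneg (hidx k.1) hQ0).trans ?_
    have e1 : ∑ k ∈ II ×ˢ BB, (1 / (Ideal.absNorm k.1 : ℝ)) * rp (Ideal.absNorm k.1) M *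
        ((2 ^ dg K * ((X : ℝ) ^ 2) ^ dg K) ^ e * rp Z M) =
        (∑ I ∈ II, (1 / (Ideal.absNorm I : ℝ)) * rp (Ideal.absNorm I) M) *
          ((BB.card : ℝ) * ((2 ^ dg K * ((X : ℝ) ^ 2) ^ dg K) ^ e * rp Z M)) := by
      rw [← Finset.sum_mul, Finset.sum_product]
      simp only [Finset.sum_const, nsmul_eq_mul]
      rw [← Finset.mul_sum]
      ring
    rw [e1]
    refine mul_le_mul hIall (mul_le_mul_of_nonneg_right (cpb_card hX) hQ0) (by positivity) hCi.le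

end

theorem thm_CPB (hM3 : Pool.Agent.RHK.St_M3) (hDYB : Pool.Agent.RHK.St_DYB) (hIDR : St_IDR) :
    St_CPB := by
  intro K _ _ s M hs hM1
  obtain ⟨C3, hC3, hM⟩ := hM3 K s (by omega)
  obtain ⟨Ci, hCi, hI⟩ := hIDR K M hM1
  obtain ⟨Cd, hCd, hD⟩ := hDYB K
  set C4 : ℝ := (((1 + dg K) * 3 + 1 : ℕ) : ℝ) with hC4
  refine ⟨C3 * 2 ^ dg K * (Ci * (Cd * (4 ^ (s - 2)) ^ dg K + C4 ^ dg K * (2 ^ (s - 2)) ^ dg K)),
    by positivity, ?_⟩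
  intro X Y L Z x hX hY hL hxp hxv hWR hxl hZ
  have hXr : (0 : ℝ) < X := by exact_mod_cast hX
  have hYr : (0 : ℝ) < Y := by exact_mod_cast hY
  have hZ0 : 0 < Z := by linarith
  have hrpZ : 0 ≤ rp Z M := cpb_rp_nonneg Z hZ0.le M
  have hxX : ∀ v : InfinitePlace K, vs v x ≤ X := fun v => (hxv v).2
  set G : Finset (Fin s → 𝓞 K) := (bx K s (X : ℝ)).filter (fun y => ¬ Par x y ∧ (Z < wn x y ∨
          Z * wp x y < ((X : ℝ) ^ 2) ^ dg K)) with hGdef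
  have hG : ∀ y ∈ G, ¬ Par x y ∧ ∀ v : InfinitePlace K, vs v y ≤ X := by
    intro y hy
    obtain ⟨h1, h2, -⟩ := Finset.mem_filter.1 hy
    exact ⟨h2, (mem_bx hXr.le).1 h1⟩
  have hm : ∀ y ∈ G, Z < wn x y ∨ Z * wp x y < ((X : ℝ) ^ 2) ^ dg K := fun y hy =>
    (Finset.mem_filter.1 hy).2.2
  have g1 := cpb_groups hC3 hs M hX hY hxX
    (fun B I hB hI' hne => (hM X Y L x B I hX hY hL hxp hxv hWR hxl hB hI' hne).2.2) G hG
  have g2 := cpb_main (e := s - 2) (by omega) hM1 hX hCi hCd hZ hI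
    (fun N₁ N₀ => (hD (s - 2) 0 N₁ N₀ (by omega)).1) hxX G hG hm
  refine g1.trans ?_
  refine (mul_le_mul_of_nonneg_left g2 (by positivity)).trans ?_
  have hlog : (1 : ℝ) ≤ (1 + (Nat.log 2 X : ℝ)) ^ dg K :=
    one_le_pow₀ (by have : (0 : ℝ) ≤ (Nat.log 2 X : ℝ) := Nat.cast_nonneg _; linarith)
  obtain ⟨e, he⟩ : ∃ e, s = e + 2 := ⟨s - 2, by omega⟩
  have e1 : s - 1 = e + 1 := by omega
  have e2 : s - 2 = e := by omega
  rw [e1, e2]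
  have hXY : ((X : ℝ) ^ 2) ^ dg K * (((Y : ℝ) / X) ^ dg K) ^ (e + 1) * (((X : ℝ) ^ 2) ^ e) ^ dg K =
      (((X : ℝ) * Y) ^ (e + 1)) ^ dg K := by
    rw [← pow_mul ((Y : ℝ) / X), mul_comm (dg K) (e + 1), pow_mul, ← mul_pow, ← mul_pow]
    congr 1
    rw [div_pow, mul_pow, pow_succ (X : ℝ) e, pow_succ (Y : ℝ) e]
    field_simp
    ring
  have f1 : (4 * (X : ℝ) ^ 2) ^ (e * dg K) = (4 ^ e) ^ dg K * (((X : ℝ) ^ 2) ^ e) ^ dg K := by
    rw [pow_mul, mul_pow, mul_pow]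
  have f2 : (2 ^ dg K * ((X : ℝ) ^ 2) ^ dg K) ^ e = (2 ^ e) ^ dg K * (((X : ℝ) ^ 2) ^ e) ^ dg K := by
    rw [← mul_pow, ← pow_mul, mul_comm (dg K) e, pow_mul, mul_pow, mul_pow]
  rw [f1, f2, mul_pow C4]
  set W : ℝ := (((X : ℝ) ^ 2) ^ e) ^ dg K with hW
  set T : ℝ := (1 + (Nat.log 2 X : ℝ)) ^ dg K with hT
  have h1 : C3 * 2 ^ dg K * ((X : ℝ) ^ 2) ^ dg K * (((Y : ℝ) / X) ^ dg K) ^ (e + 1) *
      (Ci * rp Z M * (Cd * ((4 ^ e) ^ dg K * W)) +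
        Ci * (C4 ^ dg K * T * ((2 ^ e) ^ dg K * W * rp Z M))) =
      C3 * 2 ^ dg K * (Ci * (Cd * (4 ^ e) ^ dg K + C4 ^ dg K * (2 ^ e) ^ dg K * T)) * rp Z M *
        (((X : ℝ) ^ 2) ^ dg K * (((Y : ℝ) / X) ^ dg K) ^ (e + 1) * W) := by ring
  rw [h1, hXY]
  have h2 : C3 * 2 ^ dg K * (Ci * (Cd * (4 ^ e) ^ dg K + C4 ^ dg K * (2 ^ e) ^ dg K)) *
      rp Z M * T * (((X : ℝ) * Y) ^ (e + 1)) ^ dg K =
      C3 * 2 ^ dg K * (Ci * (Cd * (4 ^ e) ^ dg K * T + C4 ^ dg K * (2 ^ e) ^ dg K * T)) *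
        rp Z M * (((X : ℝ) * Y) ^ (e + 1)) ^ dg K := by ring
  rw [h2]
  refine mul_le_mul_of_nonneg_right ?_ (by positivity)
  refine mul_le_mul_of_nonneg_right ?_ hrpZ
  refine mul_le_mul_of_nonneg_left ?_ (by positivity)
  refine mul_le_mul_of_nonneg_left ?_ hCi.le
  have h3 : Cd * (4 ^ e) ^ dg K * 1 ≤ Cd * (4 ^ e) ^ dg K * T :=
    mul_le_mul_of_nonneg_left hlog (by positivity)
  linarith

end Pool.Agent.RHC
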