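import Pool.Agent.RHC.StA

/-!
RHC [CPS] (helper55): the pair sums for a fixed good point, powers of `t`, from CPA, CPB, CWR, LTS.
-/

set_option autoImplicit false

namespace Pool.Agent.RHC

open scoped BigOperators
open Classical NumberField IsDedekindDomain
open Pool.Agent.RHP (Mon mono ev Prim)
open Pool.Agent.RHK

/-- a sum of nonnegative terms over a set covered by two sets -/
theorem CPS_split {ι : Type} {S A B : Finset ι} (f : ι → ℝ) (h : ∀ y ∈ S, y ∈ A ∨ y ∈ B)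
    (h0 : ∀ y, 0 ≤ f y) : ∑ y ∈ S, f y ≤ ∑ y ∈ A, f y + ∑ y ∈ B, f y := by
  have h1 : S ⊆ A ∪ B := fun y hy => Finset.mem_union.2 (h y hy)
  have h2 : ∑ y ∈ S, f y ≤ ∑ y ∈ A ∪ B, f y :=
    Finset.sum_le_sum_of_subset_of_nonneg h1 fun y _ _ => h0 y
  have h3 := Finset.sum_union_inter (s₁ := A) (s₂ := B) (f := f)
  have h4 : 0 ≤ ∑ y ∈ A ∩ B, f y := Finset.sum_nonneg fun y _ => h0 y
  linarith

theorem CPS_rp_nonneg (N : ℕ) (M : ℕ) : 0 ≤ rp (N : ℝ) M :=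
  Real.rpow_nonneg (Nat.cast_nonneg _) _

theorem CPS_wp_nonneg {K : Type} [Field K] [NumberField K] {s : ℕ} (x y : Fin s → 𝓞 K) :
    0 ≤ wp x y := Finset.prod_nonneg fun _ _ => pow_nonneg (wv_nonneg _ _ _) _

theorem CPS_term {K : Type} [Field K] [NumberField K] {s : ℕ} (X : ℕ) (x y : Fin s → 𝓞 K) :
    0 ≤ (wn x y : ℝ) * ((X : ℝ) ^ 2) ^ dg K / wp x y :=
  div_nonneg (mul_nonneg (Nat.cast_nonneg _) (by positivity)) (CPS_wp_nonneg x y)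

/-- the logarithm -/
theorem CPS_log (e t : ℕ) (ht : 1 ≤ t) : (1 : ℝ) + Nat.log 2 (t ^ e) ≤ (e + 1 : ℕ) * (t : ℝ) := by
  have h1 : Nat.log 2 (t ^ e) ≤ e * t := by
    have h2 : t ^ e ≤ 2 ^ (t * e) := by
      rw [pow_mul]
      exact Nat.pow_le_pow_left (Nat.lt_two_pow_self).le e
    calc Nat.log 2 (t ^ e) ≤ Nat.log 2 (2 ^ (t * e)) := Nat.log_mono_right h2
      _ = t * e := Nat.log_pow (by norm_num) _
      _ = e * t := Nat.mul_comm _ _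
  have h3 : 1 + Nat.log 2 (t ^ e) ≤ (e + 1) * t := by
    have : (e + 1) * t = e * t + t := by ring
    omega
  exact_mod_cast h3

/-- the value of `rp` at the power `t^(M e)` -/
theorem CPS_rp (t : ℝ) (ht : 0 < t) (M e : ℕ) (hM : 1 ≤ M) : rp (t ^ (M * e)) M = 1 / t ^ e := by
  unfold rp
  have hM0 : (M : ℝ) ≠ 0 := by exact_mod_cast (by omega : M ≠ 0)
  rw [← Real.rpow_natCast t (M * e), ← Real.rpow_mul ht.le]
  have h1 : ((M * e : ℕ) : ℝ) * (-(1 : ℝ) / M) = -(e : ℝ) := by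
    push_cast
    field_simp
  rw [h1, Real.rpow_neg ht.le, Real.rpow_natCast, one_div]

/-- the power of `t` in `(X Y)^n`, `n = a + 1` -/
theorem CPS_XY (T C1 : ℝ) (c a r : ℕ) :
    ((T ^ (c * (a + 1) + 1) * (C1 * T ^ (c + 1))) ^ (a + 1)) ^ r =
      (C1 ^ (a + 1)) ^ r * ((T ^ (c * (a + 1) + 1)) ^ (a + 2)) ^ r * (T ^ a) ^ r := by
  rw [← mul_pow, ← mul_pow]
  congr 1
  have h1 : (T ^ (c * (a + 1) + 1)) ^ (a + 2) =
      (T ^ (c * (a + 1) + 1)) ^ (a + 1) * T ^ (c * (a + 1) + 1) := pow_succ _ _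
  have h2 : (T ^ (c + 1)) ^ (a + 1) = T ^ (c * (a + 1) + 1) * T ^ a := by
    rw [← pow_mul, ← pow_add]
    congr 1
    ring
  rw [mul_pow, mul_pow, h1, h2]
  ring

theorem CPS_mem {K : Type} [Field K] [NumberField K] {s c t : ℕ} {x : Fin s → 𝓞 K}
    (h : x ∈ CG K s c t) : x ∈ bx K s ((XC s c t : ℕ) : ℝ) ∧
    (∀ v : InfinitePlace K, vs v x ≤ ((XC s c t : ℕ) : ℝ)) ∧ Prim x ∧
      (∀ v : InfinitePlace K, ((XC s c t : ℕ) : ℝ) < 2 * vs v x) ∧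
      ∀ l : Fin s → 𝓞 K, l ≠ 0 → (∀ v : InfinitePlace K, vs v l ≤ (t : ℝ) ^ c) → dp l x ≠ 0 := by
  unfold CG at h
  rw [Finset.mem_filter] at h
  exact ⟨h.1, (mem_bx (Nat.cast_nonneg _)).1 h.1, h.2.1, h.2.2.1, h.2.2.2⟩

theorem thm_CPS (hA : St_CPA) (hB : St_CPB) (hW : St_CWR) (hL : Pool.Agent.RHM.St_LTS) :
    St_CPS := by
  intro K _ _ s M hs hM
  obtain ⟨CA, hCA, HA⟩ := hA K s M hs hM
  obtain ⟨CB, hCB, HB⟩ := hB K s M hs hM
  obtain ⟨C1, hC1, HW⟩ := hW K s (by omega)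
  obtain ⟨CL, hCL, HL⟩ := hL K 1 s le_rfl (by omega)
  obtain ⟨a, ha⟩ : ∃ a, s = a + 2 := ⟨s - 2, by omega⟩
  have ha1 : 1 ≤ a := by omega
  have hs1 : s - 1 = a + 1 := by omega
  obtain ⟨r, hr⟩ : ∃ r, r = dg K := ⟨_, rfl⟩
  have hr1 : 1 ≤ r := by rw [hr]; exact dg_pos
  obtain ⟨e, he⟩ : ∃ e, e = r * (a + 1) + r + 1 := ⟨_, rfl⟩
  refine ⟨2 * (M * e) + s + 1, fun c hc => ?_⟩
  have hC1' : (0 : ℝ) < C1 := by exact_mod_cast hC1
  obtain ⟨D, hD⟩ : ∃ D : ℝ, D = ((c * (a + 1) + 1 + 1 : ℕ) : ℝ) := ⟨_, rfl⟩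
  have hD0 : 0 < D := by rw [hD]; positivity
  obtain ⟨B1, hB1⟩ : ∃ B1 : ℝ, B1 = CB * D ^ r * ((C1 : ℝ) ^ (a + 1)) ^ r := ⟨_, rfl⟩
  have hB10 : 0 < B1 := by rw [hB1]; positivity
  obtain ⟨L1, hL1⟩ : ∃ L1 : ℝ, L1 = CL * D * ((C1 : ℝ) ^ (a + 1)) ^ r := ⟨_, rfl⟩
  have hL10 : 0 < L1 := by rw [hL1]; positivity
  refine ⟨CA + B1 + L1, by positivity, max 1 ⌈CA⌉₊, fun t ht x hx => ?_⟩
  have ht1 : 1 ≤ t := (le_max_left _ _).trans ht
  have htA : CA ≤ (t : ℝ) := (Nat.le_ceil CA).trans (by exact_mod_cast (le_max_right _ _).trans ht)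
  have hT1 : (1 : ℝ) ≤ t := by exact_mod_cast ht1
  have hT0 : (0 : ℝ) < t := by linarith
  obtain ⟨hxb, hxX, hxP, hxX2, hxL⟩ := CPS_mem hx
  obtain ⟨X, hXdef⟩ : ∃ X, X = XC s c t := ⟨_, rfl⟩
  have hX : X = t ^ (c * (a + 1) + 1) := by rw [hXdef]; unfold XC; rw [hs1]
  have hXR : (X : ℝ) = (t : ℝ) ^ (c * (a + 1) + 1) := by rw [hX]; push_cast; rfl
  rw [← hXdef] at hxb hxX hxX2 ⊢
  have hX1 : 1 ≤ X := by rw [hX]; exact Nat.one_le_pow _ _ ht1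
  have hX1' : (1 : ℝ) ≤ X := by exact_mod_cast hX1
  have hY1 : 1 ≤ C1 * t ^ (c + 1) := Nat.mul_pos hC1 (Nat.pow_pos (by omega))
  have hLL1 : 1 ≤ t ^ c := Nat.one_le_pow _ _ ht1
  have hWR := HW c t ht1 x hx
  have hxv : ∀ v : InfinitePlace K, (X : ℝ) < 2 * vs v x ∧ vs v x ≤ X := fun v =>
    ⟨hxX2 v, hxX v⟩
  have hxl : ∀ l : Fin s → 𝓞 K, l ≠ 0 →
      (∀ v : InfinitePlace K, vs v l ≤ ((t ^ c : ℕ) : ℝ)) → dp l x ≠ 0 := fun l hl hl' =>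
    hxL l hl fun v => by have := hl' v; push_cast at this; exact this
  obtain ⟨Z, hZ⟩ : ∃ Z : ℝ, Z = (t : ℝ) ^ (M * e) := ⟨_, rfl⟩
  have hZ1 : 1 ≤ Z := by rw [hZ]; exact one_le_pow₀ hT1
  -- the condition of CPA
  have hcond : CA * Z ^ 2 ≤ ((X : ℝ) * (t ^ c : ℕ)) ^ dg K := by
    rw [← hr]
    have h1 : (1 : ℝ) ≤ (X : ℝ) * (t ^ c : ℕ) :=
      one_le_mul_of_one_le_of_one_le hX1' (by exact_mod_cast hLL1)
    have h2 : CA * Z ^ 2 ≤ (X : ℝ) * (t ^ c : ℕ) := by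
      calc CA * Z ^ 2 ≤ (t : ℝ) * Z ^ 2 := mul_le_mul_of_nonneg_right htA (sq_nonneg _)
        _ = (t : ℝ) ^ (2 * (M * e) + 1) := by rw [hZ, ← pow_mul]; ring
        _ ≤ (t : ℝ) ^ c := pow_le_pow_right₀ hT1 (by omega)
        _ = 1 * ((t ^ c : ℕ) : ℝ) := by push_cast; ring
        _ ≤ (X : ℝ) * (t ^ c : ℕ) := mul_le_mul_of_nonneg_right hX1' (Nat.cast_nonneg _)
    refine h2.trans ?_
    calc (X : ℝ) * (t ^ c : ℕ) = ((X : ℝ) * (t ^ c : ℕ)) ^ 1 := (pow_one _).symm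
      _ ≤ ((X : ℝ) * (t ^ c : ℕ)) ^ r := pow_le_pow_right₀ h1 hr1
  have hA2 := HA X (C1 * t ^ (c + 1)) (t ^ c) Z x hX1 hY1 hLL1 hxP hxv hWR hxl hZ1 hcond
  have hB2 := HB X (C1 * t ^ (c + 1)) (t ^ c) Z x hX1 hY1 hLL1 hxP hxv hWR hxl hZ1
  have hL2 := (HL X (C1 * t ^ (c + 1)) (t ^ c) x hX1 hY1 hLL1 hxP hxv hWR hxl).1
  rw [← hr] at hA2 hB2 hL2 ⊢
  -- the power of `t`
  obtain ⟨P, hP⟩ : ∃ P : ℝ, P = ((X : ℝ) ^ s) ^ r := ⟨_, rfl⟩
  have hP0 : 0 ≤ P := by rw [hP]; positivity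
  have hXY : (((X : ℝ) * ((C1 * t ^ (c + 1) : ℕ) : ℝ)) ^ (s - 1)) ^ r =
      ((C1 : ℝ) ^ (a + 1)) ^ r * P * ((t : ℝ) ^ a) ^ r := by
    rw [hs1, hP, hXR, ha]
    push_cast
    exact CPS_XY (t : ℝ) C1 c a r
  have hlog : (1 : ℝ) + Nat.log 2 X ≤ D * t := by
    rw [hX, hD]
    exact CPS_log _ t ht1
  have hlog0 : (0 : ℝ) ≤ 1 + Nat.log 2 X := by positivity
  have hBt : CB * rp Z M * (1 + Nat.log 2 X) ^ r *
      (((X : ℝ) * ((C1 * t ^ (c + 1) : ℕ) : ℝ)) ^ (s - 1)) ^ r ≤ B1 * (1 / t) * P := by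
    rw [hXY, hZ, CPS_rp (t : ℝ) hT0 M e hM]
    have h1 : (1 + (Nat.log 2 X : ℝ)) ^ r ≤ (D * t) ^ r := pow_le_pow_left₀ hlog0 hlog r
    calc CB * (1 / (t : ℝ) ^ e) * (1 + Nat.log 2 X) ^ r *
        (((C1 : ℝ) ^ (a + 1)) ^ r * P * ((t : ℝ) ^ a) ^ r)
        ≤ CB * (1 / (t : ℝ) ^ e) * (D * t) ^ r *
          (((C1 : ℝ) ^ (a + 1)) ^ r * P * ((t : ℝ) ^ a) ^ r) := by
          apply mul_le_mul_of_nonneg_right _ (by positivity)
          exact mul_le_mul_of_nonneg_left h1 (by positivity)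
      _ = B1 * P * ((t : ℝ) ^ (r + a * r) * (1 / (t : ℝ) ^ e)) := by
          rw [hB1, mul_pow, ← pow_mul (t : ℝ) a r, pow_add]
          ring
      _ ≤ B1 * P * (1 / t) := by
          apply mul_le_mul_of_nonneg_left _ (by positivity)
          rw [mul_one_div, div_le_div_iff₀ (by positivity) hT0, one_mul, ← pow_succ]
          apply pow_le_pow_right₀ hT1
          rw [he]
          nlinarith
      _ = B1 * (1 / t) * P := by ring
  have hinv : 1 / (t : ℝ) ≤ 1 := by rw [div_le_one hT0]; exact hT1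
  have hinv0 : 0 ≤ 1 / (t : ℝ) := by positivity
  refine ⟨?_, fun m1 hm1 => ?_, ?_⟩
  · refine (CPS_split (fun y => (wn x y : ℝ) * ((X : ℝ) ^ 2) ^ r / wp x y * rp (wn x y) M)
      (A := (bx K s (X : ℝ)).filter (fun y => ¬ Par x y ∧ (wn x y : ℝ) ≤ Z ∧
          ((X : ℝ) ^ 2) ^ r ≤ Z * wp x y))
      (B := (bx K s (X : ℝ)).filter (fun y => ¬ Par x y ∧ (Z < wn x y ∨
          Z * wp x y < ((X : ℝ) ^ 2) ^ r))) ?_ ?_).trans ?_
    · intro y hy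
      rw [Finset.mem_filter] at hy
      have hyb := (CPS_mem hy.1).1
      rw [← hXdef] at hyb
      by_cases h : (wn x y : ℝ) ≤ Z ∧ ((X : ℝ) ^ 2) ^ r ≤ Z * wp x y
      · exact Or.inl (Finset.mem_filter.2 ⟨hyb, hy.2, h⟩)
      · refine Or.inr (Finset.mem_filter.2 ⟨hyb, hy.2, ?_⟩)
        by_cases h' : (wn x y : ℝ) ≤ Z
        · exact Or.inr (not_le.1 fun h2 => h ⟨h', h2⟩)
        · exact Or.inl (not_le.1 h')
    · intro y
      have := CPS_term X x y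
      rw [← hr] at this
      exact mul_nonneg this (CPS_rp_nonneg _ _)
    · have h1 := hA2.1
      have h2 := hB2.trans hBt
      rw [← hP] at h1 ⊢
      have h3 : B1 * (1 / t) * P ≤ B1 * P := by
        have : B1 * (1 / (t : ℝ)) ≤ B1 := by nlinarith
        exact mul_le_mul_of_nonneg_right this hP0
      have h4 : 0 ≤ L1 * P := by positivity
      calc _ ≤ CA * P + B1 * P := add_le_add h1 (h2.trans h3)
        _ ≤ (CA + B1 + L1) * P := by linarith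
  · refine (CPS_split (fun y => (wn x y : ℝ) * ((X : ℝ) ^ 2) ^ r / wp x y * rp (wn x y) M)
      (A := (bx K s (X : ℝ)).filter (fun y => (¬ Par x y ∧ (wn x y : ℝ) ≤ Z ∧
          ((X : ℝ) ^ 2) ^ r ≤ Z * wp x y) ∧
          (m1 < wn x y ∨ ∃ v : InfinitePlace K, m1 * wv v x y < (X : ℝ) ^ 2)))
      (B := (bx K s (X : ℝ)).filter (fun y => ¬ Par x y ∧ (Z < wn x y ∨
          Z * wp x y < ((X : ℝ) ^ 2) ^ r))) ?_ ?_).trans ?_
    · intro y hy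
      rw [Finset.mem_filter] at hy
      have hyb := (CPS_mem hy.1).1
      rw [← hXdef] at hyb
      by_cases h : (wn x y : ℝ) ≤ Z ∧ ((X : ℝ) ^ 2) ^ r ≤ Z * wp x y
      · refine Or.inl (Finset.mem_filter.2 ⟨hyb, ⟨hy.2.1, h⟩, ?_⟩)
        have hT := hy.2.2
        unfold TyC at hT
        rw [← hXdef] at hT
        by_cases h' : wn x y ≤ m1
        · right
          by_contra h''
          push Not at h''
          exact hT ⟨h', h''⟩
        · exact Or.inl (not_le.1 h')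
      · refine Or.inr (Finset.mem_filter.2 ⟨hyb, hy.2.1, ?_⟩)
        by_cases h' : (wn x y : ℝ) ≤ Z
        · exact Or.inr (not_le.1 fun h2 => h ⟨h', h2⟩)
        · exact Or.inl (not_le.1 h')
    · intro y
      have := CPS_term X x y
      rw [← hr] at this
      exact mul_nonneg this (CPS_rp_nonneg _ _)
    · have h1 := hA2.2 m1 hm1
      have h2 := hB2.trans hBt
      rw [← hP] at h1 ⊢
      have h5 : 0 ≤ rp (m1 : ℝ) M := CPS_rp_nonneg _ _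
      have h4 : 0 ≤ (CA * (1 / (t : ℝ)) + B1 * rp (m1 : ℝ) M + L1 * (rp (m1 : ℝ) M + 1 / t)) * P := by
        positivity
      calc _ ≤ CA * rp (m1 : ℝ) M * P + B1 * (1 / t) * P := add_le_add h1 h2
        _ ≤ (CA + B1 + L1) * (rp (m1 : ℝ) M + 1 / t) * P := by nlinarith
  · have h1 : ∑ y ∈ (CG K s c t).filter (fun y => ¬ Par x y),
        (wn x y : ℝ) * ((X : ℝ) ^ 2) ^ r / wp x y ≤
        ∑ y ∈ (bx K s (X : ℝ)).filter (fun y => ¬ Par x y),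
        ((wn x y : ℝ) * ((X : ℝ) ^ 2) ^ r / wp x y) ^ 1 := by
      simp only [pow_one]
      apply Finset.sum_le_sum_of_subset_of_nonneg
      · intro y hy
        rw [Finset.mem_filter] at hy ⊢
        have hyb := (CPS_mem hy.1).1
        rw [← hXdef] at hyb
        exact ⟨hyb, hy.2⟩
      · intro y _ _
        have := CPS_term X x y
        rw [← hr] at this
        exact this
    refine h1.trans (hL2.trans ?_)
    rw [hXY, ← hP]
    calc CL * (((C1 : ℝ) ^ (a + 1)) ^ r * P * ((t : ℝ) ^ a) ^ r) * (1 + Nat.log 2 X)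
        ≤ CL * (((C1 : ℝ) ^ (a + 1)) ^ r * P * ((t : ℝ) ^ a) ^ r) * (D * t) :=
          mul_le_mul_of_nonneg_left hlog (by positivity)
      _ = L1 * (t : ℝ) ^ (a * r + 1) * P := by
          rw [hL1, ← pow_mul, pow_succ]
          ring
      _ ≤ L1 * ((t : ℝ) ^ s) ^ r * P := by
          apply mul_le_mul_of_nonneg_right _ hP0
          apply mul_le_mul_of_nonneg_left _ hL10.le
          rw [← pow_mul]
          apply pow_le_pow_right₀ hT1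
          rw [ha]
          nlinarith
      _ ≤ (CA + B1 + L1) * ((t : ℝ) ^ s) ^ r * P := by
          apply mul_le_mul_of_nonneg_right _ hP0
          apply mul_le_mul_of_nonneg_right _ (by positivity)
          linarith

end Pool.Agent.RHC
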