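import Pool.Agent.RHC.StA
import Pool.Agent.RHK.Sz
import Pool.Agent.RHM.PBC

/-!
RHC, CSUM: the sums over pairs (helper80).
-/

set_option autoImplicit false

namespace Pool.Agent.RHC

open scoped BigOperators
open Classical NumberField IsDedekindDomain
open Pool.Agent.RHP (Mon mono ev Prim)
open Pool.Agent.RHK

private theorem CSUM_pairs {P : Type} (G : Finset P) (R : P → P → Prop) (f : P → P → ℝ)
    [DecidablePred fun p : P × P => R p.1 p.2] [∀ x, DecidablePred fun y => R x y] :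
    ∑ p ∈ (G ×ˢ G).filter (fun p => R p.1 p.2), f p.1 p.2 =
      ∑ x ∈ G, ∑ y ∈ G.filter (fun y => R x y), f x y := by
  rw [Finset.sum_filter, Finset.sum_product]
  refine Finset.sum_congr rfl fun x _ => ?_
  rw [Finset.sum_filter]

private theorem CSUM_bound {P : Type} (G : Finset P) (R : P → P → Prop) (f : P → P → ℝ) (B D : ℝ)
    [DecidablePred fun p : P × P => R p.1 p.2] [∀ x, DecidablePred fun y => R x y] (hB : 0 ≤ B) (hG : (G.card : ℝ) ≤ D)
    (h : ∀ x ∈ G, ∑ y ∈ G.filter (fun y => R x y), f x y ≤ B) :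
    ∑ p ∈ (G ×ˢ G).filter (fun p => R p.1 p.2), f p.1 p.2 ≤ D * B := by
  rw [CSUM_pairs]
  calc _ ≤ ∑ _x ∈ G, B := Finset.sum_le_sum h
    _ = (G.card : ℝ) * B := by rw [Finset.sum_const, nsmul_eq_mul]
    _ ≤ D * B := mul_le_mul_of_nonneg_right hG hB

variable {K : Type} [Field K] [NumberField K]

private theorem CSUM_om_nonneg {s : ℕ} (X : ℝ) (x y : Fin s → 𝓞 K) (_ : 0 ≤ X) :
    0 ≤ (wn x y : ℝ) * (X ^ 2) ^ dg K / wp x y :=
  div_nonneg (mul_nonneg (Nat.cast_nonneg _) (by positivity))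
    (Finset.prod_nonneg fun v _ => pow_nonneg (wv_nonneg v x y) _)

theorem thm_CSUM (h1 : St_CPS) (h2 : RHM.St_PBC) : St_CSUM := by
  intro K _ _ s k m A hc hA
  have hs : 3 ≤ s := hc.hs
  have hM : 1 ≤ MM k := by
    unfold MM
    have := hc.hk
    have h3 : 2 * 3 ≤ k * (k + 1) := Nat.mul_le_mul this (by omega)
    omega
  obtain ⟨c0, h1⟩ := h1 K s (MM k) hs hM
  obtain ⟨C0, hC0, h2⟩ := h2 K s
  refine ⟨max c0 (s + 1), fun c hcc v => ?_⟩
  obtain ⟨C1, hC1, t0, h1⟩ := h1 c ((le_max_left _ _).trans hcc)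
  have hcs : s + 1 ≤ c := (le_max_right _ _).trans hcc
  refine ⟨2 * C0 * C1, by positivity, max t0 1, fun t ht V H hCR => ?_⟩
  have ht0 : t0 ≤ t := (le_max_left _ _).trans ht
  have ht1 : 1 ≤ t := (le_max_right _ _).trans ht
  have h1 := h1 t ht0
  have htR : (1 : ℝ) ≤ t := by exact_mod_cast ht1
  have hr : 1 ≤ dg K := dg_pos
  set r := dg K with hrdef
  have hV : 1 ≤ V := (Nat.one_le_pow _ _ ht1).trans hCR.1
  -- sizes
  have hX1 : 1 ≤ XC s c t := Nat.one_le_pow _ _ ht1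
  have hXt : t ^ (s + 1) ≤ XC s c t := by
    unfold XC
    refine Nat.pow_le_pow_right ht1 ?_
    have h3 : c * 1 ≤ c * (s - 1) := Nat.mul_le_mul_left c (by omega)
    omega
  have hU : t ^ (s + 1) ≤ UC s m A c t V := by
    unfold UC
    have h3 : XC s c t ≤ XC s c t ^ m := Nat.le_self_pow (by have := hc.hm; omega) _
    calc t ^ (s + 1) ≤ XC s c t := hXt
      _ ≤ XC s c t ^ m := h3
      _ = 1 * XC s c t ^ m * 1 := by ring
      _ ≤ A * XC s c t ^ m * V := Nat.mul_le_mul (Nat.mul_le_mul_right _ hA) hV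
  set U := UC s m A c t V with hUdef
  have hUR : (t : ℝ) ^ (s + 1) ≤ U := by exact_mod_cast hU
  have hU0 : (0 : ℝ) < U := lt_of_lt_of_le (by positivity) hUR
  set X : ℝ := (XC s c t : ℝ) with hXdef
  have hX0 : (0 : ℝ) < X := by
    rw [hXdef]
    exact_mod_cast hX1
  have hXs : 0 < (X ^ s) ^ r := by positivity
  have hkey : ((t : ℝ) ^ s) ^ r * (1 / (U : ℝ) ^ r) ≤ 1 / t := by
    rw [mul_one_div, div_le_div_iff₀ (by positivity) (by positivity), one_mul]
    calc ((t : ℝ) ^ s) ^ r * t ≤ ((t : ℝ) ^ s) ^ r * (t : ℝ) ^ r :=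
          mul_le_mul_of_nonneg_left (le_self_pow₀ htR (by omega)) (by positivity)
      _ = ((t : ℝ) ^ (s + 1)) ^ r := by rw [← mul_pow, pow_succ]
      _ ≤ (U : ℝ) ^ r := pow_le_pow_left₀ (by positivity) hUR _
  have h1t : (1 : ℝ) / t ≤ 1 := by
    rw [div_le_one (by positivity)]
    exact htR
  have hcard : ((CG K s c t).card : ℝ) ≤ C0 * (X ^ s) ^ r := by
    refine le_trans ?_ (h2 (XC s c t) hX1)
    exact_mod_cast Finset.card_le_card (Finset.filter_subset _ _)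
  have hsplit : ∀ x y : Fin s → 𝓞 K, wtC c t U (MM k) x y =
      (wn x y : ℝ) * (X ^ 2) ^ r / wp x y * rp (wn x y) (MM k) +
        (wn x y : ℝ) * (X ^ 2) ^ r / wp x y * (1 / (U : ℝ) ^ r) := by
    intro x y
    unfold wtC
    rw [mul_add]
  have hthird : ∀ x ∈ CG K s c t, ∀ (Q : (Fin s → 𝓞 K) → Prop) [DecidablePred Q],
      (∀ y, Q y → ¬ Par x y) → ∑ y ∈ (CG K s c t).filter (fun y => Q y),
        (wn x y : ℝ) * (X ^ 2) ^ r / wp x y * (1 / (U : ℝ) ^ r) ≤ C1 * (1 / t) * (X ^ s) ^ r := by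
    intro x hx Q _ hQ
    rw [← Finset.sum_mul]
    have h3 := (h1 x hx).2.2
    have h4 : ∑ y ∈ (CG K s c t).filter (fun y => Q y), (wn x y : ℝ) * (X ^ 2) ^ r / wp x y ≤
        C1 * ((t : ℝ) ^ s) ^ r * (X ^ s) ^ r := by
      refine le_trans (Finset.sum_le_sum_of_subset_of_nonneg ?_ ?_) h3
      · intro y hy
        rw [Finset.mem_filter] at hy ⊢
        exact ⟨hy.1, hQ y hy.2⟩
      · intro y _ _
        exact CSUM_om_nonneg X x y hX0.le
    calc (∑ y ∈ (CG K s c t).filter (fun y => Q y), (wn x y : ℝ) * (X ^ 2) ^ r / wp x y) *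
          (1 / (U : ℝ) ^ r) ≤ C1 * ((t : ℝ) ^ s) ^ r * (X ^ s) ^ r * (1 / (U : ℝ) ^ r) :=
          mul_le_mul_of_nonneg_right h4 (by positivity)
      _ = C1 * (((t : ℝ) ^ s) ^ r * (1 / (U : ℝ) ^ r)) * (X ^ s) ^ r := by ring
      _ ≤ C1 * (1 / t) * (X ^ s) ^ r := by gcongr
  constructor
  · have hB : ∀ x ∈ CG K s c t, ∑ y ∈ (CG K s c t).filter (fun y => ¬ Par x y),
        wtC c t U (MM k) x y ≤ 2 * C1 * (X ^ s) ^ r := by
      intro x hx
      have h3 := (h1 x hx).1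
      have h4 := hthird x hx (fun y => ¬ Par x y) (fun y hy => hy)
      have h5 : ∑ y ∈ (CG K s c t).filter (fun y => ¬ Par x y), wtC c t U (MM k) x y =
          ∑ y ∈ (CG K s c t).filter (fun y => ¬ Par x y),
            (wn x y : ℝ) * (X ^ 2) ^ r / wp x y * rp (wn x y) (MM k) +
          ∑ y ∈ (CG K s c t).filter (fun y => ¬ Par x y),
            (wn x y : ℝ) * (X ^ 2) ^ r / wp x y * (1 / (U : ℝ) ^ r) := by
        rw [← Finset.sum_add_distrib]
        exact Finset.sum_congr rfl fun y _ => hsplit x y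
      rw [h5]
      have h6 : C1 * (1 / t) * (X ^ s) ^ r ≤ C1 * 1 * (X ^ s) ^ r := by gcongr
      linarith
    have h7 := CSUM_bound (CG K s c t) (fun x y => ¬ Par x y) (wtC c t U (MM k))
      (2 * C1 * (X ^ s) ^ r) (C0 * (X ^ s) ^ r) (by positivity) hcard hB
    refine h7.trans (le_of_eq ?_)
    ring
  · intro m1 hm1
    have hrp : 0 ≤ rp (m1 : ℝ) (MM k) := Real.rpow_nonneg (Nat.cast_nonneg _) _
    have hB : ∀ x ∈ CG K s c t,
        ∑ y ∈ (CG K s c t).filter (fun y => ¬ Par x y ∧ ¬ TyC c t m1 x y),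
        wtC c t U (MM k) x y ≤ 2 * C1 * (rp m1 (MM k) + 1 / t) * (X ^ s) ^ r := by
      intro x hx
      have h3 := (h1 x hx).2.1 m1 hm1
      have h4 := hthird x hx (fun y => ¬ Par x y ∧ ¬ TyC c t m1 x y) (fun y hy => hy.1)
      have h5 : ∑ y ∈ (CG K s c t).filter (fun y => ¬ Par x y ∧ ¬ TyC c t m1 x y),
          wtC c t U (MM k) x y =
          ∑ y ∈ (CG K s c t).filter (fun y => ¬ Par x y ∧ ¬ TyC c t m1 x y),
            (wn x y : ℝ) * (X ^ 2) ^ r / wp x y * rp (wn x y) (MM k) +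
          ∑ y ∈ (CG K s c t).filter (fun y => ¬ Par x y ∧ ¬ TyC c t m1 x y),
            (wn x y : ℝ) * (X ^ 2) ^ r / wp x y * (1 / (U : ℝ) ^ r) := by
        rw [← Finset.sum_add_distrib]
        exact Finset.sum_congr rfl fun y _ => hsplit x y
      rw [h5]
      have h6 : C1 * (1 / t) * (X ^ s) ^ r ≤ C1 * (rp m1 (MM k) + 1 / t) * (X ^ s) ^ r := by
        gcongr
        linarith
      linarith
    have h7 := CSUM_bound (CG K s c t) (fun x y => ¬ Par x y ∧ ¬ TyC c t m1 x y)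
      (wtC c t U (MM k)) (2 * C1 * (rp m1 (MM k) + 1 / t) * (X ^ s) ^ r) (C0 * (X ^ s) ^ r)
      (by positivity) hcard hB
    refine h7.trans (le_of_eq ?_)
    ring

end Pool.Agent.RHC
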