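import Pool.Agent.RHC.StA
import Pool.Agent.RHK.EXG

/-!
RHC [CWR] (helper25): good points are well rounded.
-/

set_option autoImplicit false

namespace Pool.Agent.RHC

open Classical NumberField
open Pool.Agent.RHK

theorem thm_CWR (hM : St_MINK) : St_CWR := by
  intro K _ _ s hs
  obtain ⟨C, hC, h⟩ := GX_WR hM K s hs
  exact ⟨C, hC, fun c t ht x hx => h c t ht x hx⟩

end Pool.Agent.RHC
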