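import Pool.Agent.RHC.StA

/-!
RHC, module IDR: sums over ideals with the weight `N^(-1-1/M)` (helper29).
-/

set_option autoImplicit false

namespace Pool.Agent.RHC

open scoped BigOperators
open Classical NumberField IsDedekindDomain
open Pool.Agent.RHP (Mon mono ev Prim)
open Pool.Agent.RHK

theorem IDR_rp_anti {M : ℕ} {a b : ℝ} (ha : 0 < a) (hab : a ≤ b) : rp b M ≤ rp a M := by
  unfold rp
  apply Real.rpow_le_rpow_of_nonpos ha hab
  rw [neg_div]
  have : (0 : ℝ) ≤ 1 / M := by positivity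
  linarith

theorem IDR_rp_mul (M j : ℕ) (z : ℝ) (hz : 0 ≤ z) :
    rp (2 ^ j * z) M = ((2 : ℝ) ^ (-(1 : ℝ) / M)) ^ j * rp z M := by
  unfold rp
  rw [Real.mul_rpow (by positivity) hz]
  congr 1
  rw [← Real.rpow_natCast, ← Real.rpow_natCast, ← Real.rpow_mul (by norm_num),
    ← Real.rpow_mul (by norm_num), mul_comm]

theorem thm_IDR (h : St_IDC) : St_IDR := by
  intro K _ _ M hM
  obtain ⟨C, hC, hS⟩ := h K
  have hC' : (0 : ℝ) < C := by exact_mod_cast hC
  have hM' : (0 : ℝ) < M := by exact_mod_cast hM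
  set q : ℝ := (2 : ℝ) ^ (-(1 : ℝ) / M) with hq
  have hq0 : 0 < q := Real.rpow_pos_of_pos (by norm_num) _
  have hq1 : q < 1 := by
    apply Real.rpow_lt_one_of_one_lt_of_neg (by norm_num)
    rw [neg_div]
    have : (0 : ℝ) < 1 / M := by positivity
    linarith
  have h1q : 0 < 1 - q := by linarith
  refine ⟨2 * C * (1 - q)⁻¹, by positivity, fun z S hz hI => ?_⟩
  have hz' : (0 : ℝ) < z := by exact_mod_cast hz
  have hrz : 0 ≤ rp z M := by unfold rp; positivity
  let lg : Ideal (𝓞 K) → ℕ := fun I => Nat.log 2 (Ideal.absNorm I / z)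
  have hlow : ∀ I ∈ S, 2 ^ lg I * z ≤ Ideal.absNorm I := by
    intro I hIS
    have h1 : 0 < Ideal.absNorm I / z := Nat.div_pos (hI I hIS) hz
    have h2 : 2 ^ lg I ≤ Ideal.absNorm I / z := Nat.pow_log_le_self 2 h1.ne'
    exact (Nat.mul_le_mul_right z h2).trans (Nat.div_mul_le_self _ _)
  have hup : ∀ I : Ideal (𝓞 K), Ideal.absNorm I < 2 ^ (lg I + 1) * z := by
    intro I
    have h2 : Ideal.absNorm I / z < 2 ^ (lg I + 1) := Nat.lt_pow_succ_log_self one_lt_two _
    exact (Nat.div_lt_iff_lt_mul hz).1 h2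
  -- each term
  have h1 : ∑ I ∈ S, (1 / (Ideal.absNorm I : ℝ)) * rp (Ideal.absNorm I) M ≤
      ∑ I ∈ S, ((2 : ℝ) ^ lg I * z)⁻¹ * (q ^ lg I * rp z M) := by
    refine Finset.sum_le_sum fun I hIS => ?_
    have h3 : (2 : ℝ) ^ lg I * z ≤ Ideal.absNorm I := by exact_mod_cast hlow I hIS
    have h4 : (0 : ℝ) < (2 : ℝ) ^ lg I * z := by positivity
    rw [one_div]
    have h5 : rp (Ideal.absNorm I) M ≤ q ^ lg I * rp z M := by
      rw [hq, ← IDR_rp_mul M (lg I) z hz'.le]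
      exact IDR_rp_anti h4 h3
    have h6 : (0 : ℝ) ≤ rp (Ideal.absNorm I) M := by unfold rp; positivity
    exact mul_le_mul (inv_anti₀ h4 h3) h5 h6 (by positivity)
  refine h1.trans ?_
  rw [Finset.sum_comp (fun k : ℕ => ((2 : ℝ) ^ k * z)⁻¹ * (q ^ k * rp z M)) lg]
  have h2 : ∑ k ∈ S.image lg, (S.filter fun I => lg I = k).card •
      (((2 : ℝ) ^ k * z)⁻¹ * (q ^ k * rp z M)) ≤
      ∑ k ∈ S.image lg, (2 * C * rp z M : ℝ) * q ^ k := by
    refine Finset.sum_le_sum fun k _ => ?_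
    have h3 : (S.filter fun I => lg I = k).card ≤ C * (2 ^ (k + 1) * z) := by
      refine hS (2 ^ (k + 1) * z) _ fun I hI' => ?_
      obtain ⟨h4, h5⟩ := Finset.mem_filter.1 hI'
      refine ⟨?_, ?_⟩
      · rintro rfl
        have := lt_of_lt_of_le hz (hI _ h4)
        rw [Ideal.absNorm_bot] at this
        exact absurd this (lt_irrefl 0)
      · rw [← h5]
        exact (hup I).le
    have h4 : ((S.filter fun I => lg I = k).card : ℝ) ≤ C * (2 ^ (k + 1) * z) := by exact_mod_cast h3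
    rw [nsmul_eq_mul]
    refine (mul_le_mul_of_nonneg_right h4 (by positivity)).trans (le_of_eq ?_)
    rw [pow_succ (2 : ℝ)]
    have : (2 : ℝ) ^ k ≠ 0 := by positivity
    have hzne := hz'.ne'
    field_simp
  refine h2.trans ?_
  rw [← Finset.mul_sum]
  have h3 : ∑ k ∈ S.image lg, q ^ k ≤ (1 - q)⁻¹ := by
    rw [← tsum_geometric_of_lt_one hq0.le hq1]
    exact (summable_geometric_of_lt_one hq0.le hq1).sum_le_tsum _ fun _ _ => by positivity
  calc (2 * C * rp z M : ℝ) * ∑ k ∈ S.image lg, q ^ k ≤ 2 * C * rp z M * (1 - q)⁻¹ :=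
        mul_le_mul_of_nonneg_left h3 (by positivity)
    _ = 2 * C * (1 - q)⁻¹ * rp z M := by ring

end Pool.Agent.RHC
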