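import Pool.Agent.RHC.StA
import Pool.Agent.RHK.EXC

/-!
RHC [NN] (helper35): compatible pairs of `k`-th powers.
-/

set_option autoImplicit false

namespace Pool.Agent.RHC

open scoped BigOperators
open Classical NumberField IsDedekindDomain
open Pool.Agent.RHP (Mon mono ev Prim)
open Pool.Agent.RHK

private theorem NN_card_filter {α : Type} (S : Finset α) (P : α × α → Prop) :
    (((S ×ˢ S).filter fun p => P p).card) = ∑ w ∈ S, (S.filter fun w' => P (w, w')).card := by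
  rw [Finset.card_filter, Finset.sum_product]
  refine Finset.sum_congr rfl fun w _ => ?_
  rw [Finset.card_filter]

/-- [NN] -/
theorem thm_NN (hV : St_VDM) (hC : St_CMPT) (hI : St_IDU) : St_NN := by
  intro K _ _ s k m hk
  obtain ⟨C1, hC1, h1⟩ := hV K k hk
  obtain ⟨Cb, hCb, hb⟩ := EXC_pb hI K
  refine ⟨Cb * C1, mul_pos hCb hC1, fun U x y hU hx hxy => ?_⟩
  obtain ⟨lam, hlam⟩ := hC K s x y hx
  have hne : gI x y ≠ ⊥ := by
    intro h
    apply hxy
    intro p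
    have h2 : mn x y p ∈ gI x y := Ideal.subset_span ⟨p, rfl⟩
    rw [h] at h2
    exact (Submodule.mem_bot _).1 h2
  have hU1 : (1 : ℝ) ≤ U := by exact_mod_cast hU
  have hB : 0 ≤ C1 * ((U : ℝ) ^ dg K * rp (wn x y) (MM k) + 1) := by
    have : 0 ≤ rp (wn x y) (MM k) := by
      unfold rp
      positivity
    positivity
  have h3 : ∀ w ∈ pb K (U : ℝ), (((pb K (U : ℝ)).filter fun w' =>
      Cmp (k * m) x y (w ^ k) (w' ^ k)).card : ℝ) ≤
      C1 * ((U : ℝ) ^ dg K * rp (wn x y) (MM k) + 1) := by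
    intro w _
    refine le_trans ?_ (h1 U (lam ^ (k * m) * w ^ k) (gI x y) hU hne)
    rw [Nat.cast_le]
    refine Finset.card_le_card fun w' hw' => ?_
    rw [Finset.mem_filter] at hw' ⊢
    refine ⟨hw'.1, ?_⟩
    obtain ⟨f, hf1, hf2⟩ := hw'.2
    have h4 := hlam (k * m) f
    rwa [hf1, hf2] at h4
  rw [NN_card_filter, Nat.cast_sum]
  calc ∑ w ∈ pb K (U : ℝ), (((pb K (U : ℝ)).filter fun w' =>
        Cmp (k * m) x y (w ^ k) (w' ^ k)).card : ℝ)
      ≤ ∑ _w ∈ pb K (U : ℝ), C1 * ((U : ℝ) ^ dg K * rp (wn x y) (MM k) + 1) :=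
        Finset.sum_le_sum h3
    _ = ((pb K (U : ℝ)).card : ℝ) * (C1 * ((U : ℝ) ^ dg K * rp (wn x y) (MM k) + 1)) := by
        rw [Finset.sum_const, nsmul_eq_mul]
    _ ≤ (Cb * (U : ℝ) ^ dg K) * (C1 * ((U : ℝ) ^ dg K * rp (wn x y) (MM k) + 1)) :=
        mul_le_mul_of_nonneg_right (hb U hU1) hB
    _ = _ := by ring

end Pool.Agent.RHC
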