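import Pool.Agent.RHM.BlockA
import Pool.Agent.RHC.TSC
import Pool.Agent.RHC.IDR
import Pool.Agent.RHC.VDM
import Pool.Agent.RHC.CMPT
import Pool.Agent.RHC.NN
import Pool.Agent.RHC.LL
import Pool.Agent.RHC.CPA
import Pool.Agent.RHC.CPB
import Pool.Agent.RHC.CWR
import Pool.Agent.RHC.CPS
import Pool.Agent.RHC.CSUM
import Pool.Agent.RHC.CB
import Pool.Agent.RHC.CTR
import Pool.Agent.RHC.PHI
import Pool.Agent.RHC.DLT
import Pool.Agent.RHC.ABSC
import Pool.Agent.RHC.CTYP
import Pool.Agent.RHC.CNT
import Pool.Agent.RHC.CEXP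
import Pool.Agent.RHC.CPARL
import Pool.Agent.RHC.CSM

/-!
RHC: block A complete (helper50): the second moment for cyclic covers.
-/

set_option autoImplicit false

namespace Pool.Agent.RHC

open Pool.Agent.RHK

theorem block_IDR : St_IDR := thm_IDR thm_IDC
theorem block_VDM : St_VDM := thm_VDM thm_CELL thm_DVN
theorem block_NN : St_NN := thm_NN block_VDM thm_CMPT block_IDU
theorem block_LL : St_LL := thm_LL block_VDM thm_CMPT thm_TSC thm_CMP block_IDU
theorem block_CPA : St_CPA := thm_CPA block_M3 thm_DYB block_IDR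
theorem block_CPB : St_CPB := thm_CPB block_M3 thm_DYB block_IDR
theorem block_CWR : St_CWR := thm_CWR block_MINK
theorem block_CPS : St_CPS := thm_CPS block_CPA block_CPB block_CWR RHM.block_LTS
theorem block_CSUM : St_CSUM := thm_CSUM block_CPS RHM.block_PBC
theorem block_CB : St_CB := thm_CB block_CWR block_COV1 block_COV2 block_T1 block_T2
theorem block_CTR : St_CTR := thm_CTR thm_RF2 thm_GCD thm_CMP
theorem block_CTYP : St_CTYP := thm_CTYP block_CTR block_CB thm_PHI thm_DLT
theorem block_CNT : St_CNT := thm_CNT block_CB thm_PHI thm_DLT block_NN block_LL thm_TSC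
theorem block_CPARL : St_CPARL :=
  thm_CPARL block_CB thm_PHI thm_DLT thm_TSC thm_PAR RHM.block_PBC block_IDU

/-- the second moment for cyclic covers -/
theorem block_CSM : St_CSM :=
  thm_CSM thm_ABSC block_CTYP block_CNT block_CPARL block_CSUM thm_CEXP thm_PHI thm_TSC
    RHM.block_PBC

end Pool.Agent.RHC
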