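import Pool.Agent.RHC.StA

/-!
RHC, CEXP: the expected number is large (helper16).
-/

set_option autoImplicit false

namespace Pool.Agent.RHC

open scoped BigOperators
open Classical NumberField IsDedekindDomain
open Pool.Agent.RHK

theorem CEXP_nat (s k m c v t V H : ℕ) (hyp : CHyp s k m) (par : CPar s k m c v) (ht : 1 ≤ t)
    (hR : CR k v t V H) :
    t * (H * XC s c t ^ (k * m)) ≤
      2 ^ (k + v * (k - 1)) * (XC s c t ^ s * (XC s c t ^ m * V)) := by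
  have hk := hyp.hk
  have hF := hyp.hF
  have hE := par.hE
  obtain ⟨j, rfl⟩ : ∃ j, k = j + 1 := ⟨k - 1, by omega⟩
  rw [Nat.add_sub_cancel] at hF hE ⊢
  obtain ⟨ι, hι⟩ : ∃ ι, s = m * j + ι := ⟨s - m * j, by omega⟩
  have hV1 : 1 ≤ V := le_trans (Nat.one_le_pow _ _ ht) hR.1
  have hH : H ≤ 2 ^ (j + 1) * V ^ (j + 1) := by
    rw [← mul_pow]
    exact hR.2.2.2.trans (Nat.pow_le_pow_left (by omega) _)
  have hVj : V ^ j ≤ 2 ^ (v * j) * t ^ (v * j) := by
    rw [← mul_pow, pow_mul]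
    exact Nat.pow_le_pow_left hR.2.1 _
  have hX : t ^ (v * j + 1) ≤ XC s c t ^ ι := by
    have e1 : s - m * j = ι := by omega
    rw [e1] at hE
    unfold XC
    rw [← pow_mul]
    apply Nat.pow_le_pow_right ht
    calc v * j + 1 = j * v + 1 := by ring
      _ ≤ _ := hE
  have h1 : t * H ≤ 2 ^ (j + 1 + v * j) * (XC s c t ^ ι * V) := by
    calc t * H ≤ t * (2 ^ (j + 1) * V ^ (j + 1)) := Nat.mul_le_mul_left _ hH
      _ = 2 ^ (j + 1) * t * V * V ^ j := by ring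
      _ ≤ 2 ^ (j + 1) * t * V * (2 ^ (v * j) * t ^ (v * j)) := Nat.mul_le_mul_left _ hVj
      _ = 2 ^ (j + 1 + v * j) * V * t ^ (v * j + 1) := by ring
      _ ≤ 2 ^ (j + 1 + v * j) * V * XC s c t ^ ι := Nat.mul_le_mul_left _ hX
      _ = _ := by ring
  have h2 : XC s c t ^ s * (XC s c t ^ m * V) =
      XC s c t ^ ((j + 1) * m) * (XC s c t ^ ι * V) := by
    have e1 : XC s c t ^ s * XC s c t ^ m = XC s c t ^ ((j + 1) * m) * XC s c t ^ ι := by
      rw [← pow_add, ← pow_add]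
      congr 1
      rw [hι]
      ring
    calc _ = XC s c t ^ s * XC s c t ^ m * V := by ring
      _ = _ := by rw [e1]; ring
  rw [h2]
  calc t * (H * XC s c t ^ ((j + 1) * m)) = XC s c t ^ ((j + 1) * m) * (t * H) := by ring
    _ ≤ XC s c t ^ ((j + 1) * m) * (2 ^ (j + 1 + v * j) * (XC s c t ^ ι * V)) :=
        Nat.mul_le_mul_left _ h1
    _ = _ := by ring

theorem thm_CEXP : St_CEXP := by
  intro K _ _ s k m c v hyp par
  have hr : 1 ≤ dg K := Module.finrank_pos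
  refine ⟨((2 : ℝ) ^ (k + v * (k - 1))) ^ dg K, by positivity, fun t ht V H hR => ?_⟩
  have hV1 : 1 ≤ V := le_trans (Nat.one_le_pow _ _ ht) hR.1
  have hH1 : 1 ≤ H := le_trans (Nat.one_le_pow _ _ hV1) hR.2.2.1
  have hX1 : 1 ≤ XC s c t := Nat.one_le_pow _ _ ht
  have hHR : (0 : ℝ) < H := by exact_mod_cast hH1
  have hXR : (0 : ℝ) < XC s c t := by exact_mod_cast hX1
  have htR : (1 : ℝ) ≤ t := by exact_mod_cast ht
  have h1 : (t : ℝ) * ((H : ℝ) * (XC s c t : ℝ) ^ (k * m)) ≤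
      2 ^ (k + v * (k - 1)) * ((XC s c t : ℝ) ^ s * ((XC s c t : ℝ) ^ m * V)) := by
    exact_mod_cast CEXP_nat s k m c v t V H hyp par ht hR
  have h2 : (t : ℝ) ≤ 2 ^ (k + v * (k - 1)) * (((XC s c t : ℝ) ^ s *
      ((XC s c t : ℝ) ^ m * V)) / ((H : ℝ) * (XC s c t : ℝ) ^ (k * m))) := by
    rw [← mul_div_assoc, le_div_iff₀ (by positivity)]
    exact h1
  unfold EC
  rw [← mul_pow]
  calc (t : ℝ) = (t : ℝ) ^ 1 := (pow_one _).symm
    _ ≤ (t : ℝ) ^ dg K := pow_le_pow_right₀ htR hr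
    _ ≤ _ := pow_le_pow_left₀ (by linarith) h2 _

end Pool.Agent.RHC
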