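import Pool.Agent.RHK.Defs

/-!
RHC: the Hasse principle for 100 percent of the Fano cyclic covers `w^k = f(x)` of projective spaces over
a number field `K`.  Definitions (helper50).  See the paper /team-store/RHC_helper50.md.

`s = n + 1` variables `x`, `f` is a form of degree `k * m`, `m (k - 1) < s`.  The objects of RHK/Defs.lean
(`cz`, `av`, `vs`, `wv`, `wp`, `wn`, `Par`, `dp`, `cb`, `pb`, `bx`, `box`) are used.
-/

set_option autoImplicit false

namespace Pool.Agent.RHC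

open scoped BigOperators
open Classical NumberField IsDedekindDomain
open Pool.Agent.RHP (Mon mono ev Prim)
open Pool.Agent.RHK

/-! ### Parameters -/

/-- `X = t^(c n + 1)`, `n = s - 1` -/
def XC (s c t : ℕ) : ℕ := t ^ (c * (s - 1) + 1)

/-- the bound `U = A X^m V` for the variable `w` -/
def UC (s m A c t V : ℕ) : ℕ := A * XC s c t ^ m * V

/-- the ranges of the parameters: `V` is the integral part of `H^(1/k)`, `V` is about `t^v` -/
def CR (k v t V H : ℕ) : Prop := t ^ v ≤ V ∧ V ≤ (2 * t) ^ v ∧ V ^ k ≤ H ∧ H ≤ (V + 1) ^ k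

/-- the expected number `E = (X^s X^m V / (H X^(km)))^r`, `r` is the degree of the field -/
noncomputable def EC (r s k m c t V H : ℕ) : ℝ :=
  ((XC s c t : ℝ) ^ s * ((XC s c t : ℝ) ^ m * V) / ((H : ℝ) * (XC s c t : ℝ) ^ (k * m))) ^ r

section

variable (K : Type) [Field K] [NumberField K]

/-- good points: primitive, `X/2 < |x|_v <= X` at all infinite places `v`, on no hyperplane of height
`<= L = t^c` -/
noncomputable def CG (s c t : ℕ) : Finset (Fin s → 𝓞 K) :=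
  (bx K s ((XC s c t : ℕ) : ℝ)).filter fun x =>
    Prim x ∧ (∀ v : InfinitePlace K, ((XC s c t : ℕ) : ℝ) < 2 * vs v x) ∧
      ∀ l : Fin s → 𝓞 K, l ≠ 0 → (∀ v : InfinitePlace K, vs v l ≤ (t : ℝ) ^ c) → dp l x ≠ 0

variable {K}

/-- number of the points `(x,w)` with `f(x) = w^k`, `x` good and `|w|_v <= U` -/
noncomputable def NC {s k m : ℕ} (A c t V : ℕ) (f : Mon s (k * m) → 𝓞 K) : ℝ :=
  ∑ x ∈ CG K s c t, ∑ w ∈ pb K ((UC s m A c t V : ℕ) : ℝ), if ev f x = w ^ k then 1 else 0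

/-- `Theta = floor(H X^d / κ)` -/
def ThC (s c t H κ d : ℕ) : ℕ := H * XC s c t ^ d / κ

/-- number of multiples of `W` with coordinates in `[-Theta,Theta]` -/
def TC (r s c t H κ W d : ℕ) : ℕ := (2 * (ThC s c t H κ d / W) + 1) ^ r

/-- the local model of the number of points -/
noncomputable def NLC {s k m : ℕ} (A c t V H κ W : ℕ) (f : Mon s (k * m) → 𝓞 K) : ℝ :=
  ∑ x ∈ CG K s c t, ∑ w ∈ pb K ((UC s m A c t V : ℕ) : ℝ),
    if (W : 𝓞 K) ∣ ev f x - w ^ k ∧ cz (ev f x - w ^ k) ≤ ThC s c t H κ (k * m) then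
      (1 / (TC (dg K) s c t H κ W (k * m) : ℝ)) else 0

/-- a point of `w^k = f(x)` over the extension `L` of `K` -/
def HasZeroC {s k m : ℕ} (f : Mon s (k * m) → 𝓞 K) (L : Type) [Field L] [Algebra K L] : Prop :=
  ∃ x : Fin s → L, x ≠ 0 ∧ ∃ w : L, ev (fun μ => algebraMap K L (f μ : K)) x = w ^ k

/-- everywhere locally soluble -/
def ELSC {s k m : ℕ} (f : Mon s (k * m) → 𝓞 K) : Prop :=
  (∀ v : InfinitePlace K, HasZeroC f v.Completion) ∧
    ∀ v : HeightOneSpectrum (𝓞 K), HasZeroC f (v.adicCompletion K)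

end

/-- the hypotheses: at least three variables, `k >= 2`, `m >= 1`, Fano -/
structure CHyp (s k m : ℕ) : Prop where
  hs : 3 ≤ s
  hk : 2 ≤ k
  hm : 1 ≤ m
  hF : m * (k - 1) < s

/-- the inequalities between the parameters: `Y^2 <= H/t`, `E >= t^r` up to constants -/
structure CPar (s k m c v : ℕ) : Prop where
  hH : 2 * c + 4 ≤ k * v
  hE : (k - 1) * v + 1 ≤ (c * (s - 1) + 1) * (s - m * (k - 1))

variable (K : Type) [Field K] [NumberField K]

/-- OUTPUT of block A: the second moment of `NC - NLC`. -/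
def SMC (s k m A c v : ℕ) : Prop :=
  ∀ ε : ℝ, 0 < ε → ∃ κ m0 : ℕ, 0 < κ ∧ ∀ W : ℕ, 0 < W → (∀ g, 1 ≤ g → g ≤ m0 → g ∣ W) →
    ∃ t0 : ℕ, ∀ t ≥ t0, ∀ V H : ℕ, CR k v t V H →
      ∑ f ∈ box K s (k * m) H, (NC A c t V f - NLC A c t V H κ W f) ^ 2
        ≤ ε * EC (dg K) s k m c t V H ^ 2 * ((box K s (k * m) H).card : ℝ)

/-- OUTPUT 1 of block B: the local lower bound (`WW m = prod_{p <= m} p^m`, from RHP/Defs.lean). -/
def LLC (s k m A c v : ℕ) : Prop :=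
  ∀ ε : ℝ, 0 < ε → ∃ γ : ℝ, 0 < γ ∧ ∃ m2 : ℕ, ∀ m0 ≥ m2, ∀ κ : ℕ, 0 < κ →
    ∃ t0 : ℕ, ∀ t ≥ t0, ∀ V H : ℕ, CR k v t V H →
      (((box K s (k * m) H).filter fun f => ELSC f ∧
        NLC A c t V H κ (Pool.Agent.RHP.WW m0) f < γ * EC (dg K) s k m c t V H).card : ℝ)
        ≤ ε * ((box K s (k * m) H).card : ℝ)

/-- OUTPUT 2 of block B: positivity. -/
def LPC (s k m A c v : ℕ) : Prop :=
  ∃ γ : ℝ, 0 < γ ∧ ∃ γ' : ℝ, 0 < γ' ∧ ∃ m2 : ℕ, ∀ m0 ≥ m2, ∀ κ : ℕ, 0 < κ →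
    ∃ t0 : ℕ, ∀ t ≥ t0, ∀ V H : ℕ, CR k v t V H →
      γ' * ((box K s (k * m) H).card : ℝ) ≤
        (((box K s (k * m) H).filter fun f =>
          γ * EC (dg K) s k m c t V H ≤ NLC A c t V H κ (Pool.Agent.RHP.WW m0) f).card : ℝ)

/-- THE CONCLUSION for forms given by coefficient vectors, in the boxes of coordinates. -/
def CMain (s k m : ℕ) : Prop :=
  (∃ γ : ℝ, 0 < γ ∧ ∃ H0 : ℕ, ∀ H ≥ H0,
    γ * ((box K s (k * m) H).card : ℝ) ≤
      (((box K s (k * m) H).filter fun f => HasZeroC f K).card : ℝ)) ∧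
  (∀ ε : ℝ, 0 < ε → ∃ H0 : ℕ, ∀ H ≥ H0,
    (((box K s (k * m) H).filter fun f => ELSC f ∧ ¬ HasZeroC f K).card : ℝ) ≤
      ε * ((box K s (k * m) H).card : ℝ))

end Pool.Agent.RHC
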